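import Pool.Agent.Lib_MP_23a060_co.Defs

/-!
PART 5 : the upper bound `r(S, K_3) ≤ 2(|S|-1)+1` for double stars on consecutive centres.
-/

namespace OG23

open Finset

namespace ArrowD

open Classical in
/-- order preserving map from a smaller finset into a larger one -/
theorem exists_mono (S T : Finset ℕ) (h : S.card ≤ T.card) :
    ∃ φ : ℕ → ℕ, (∀ i ∈ S, φ i ∈ T) ∧ (∀ i ∈ S, ∀ j ∈ S, i < j → φ i < φ j) := by
  have hlt : ∀ i ∈ S, (S.filter (· < i)).card < T.card := by
    intro i hi
    have h1 : (S.filter (· < i)).card < S.card := by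
      apply Finset.card_lt_card
      refine ⟨Finset.filter_subset _ _, ?_⟩
      intro hc
      have := hc hi
      simp at this
    omega
  refine ⟨fun i => if hh : (S.filter (· < i)).card < T.card then
    T.orderEmbOfFin rfl ⟨(S.filter (· < i)).card, hh⟩ else 0, ?_, ?_⟩
  · intro i hi
    simp only [hlt i hi, dite_true]
    exact Finset.orderEmbOfFin_mem _ _ _
  · intro i hi j hj hij
    simp only [hlt i hi, hlt j hj, dite_true]
    apply (T.orderEmbOfFin rfl).strictMono
    show (S.filter (· < i)).card < (S.filter (· < j)).card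
    apply Finset.card_lt_card
    refine ⟨?_, ?_⟩
    · intro a ha
      simp only [Finset.mem_filter] at ha ⊢
      exact ⟨ha.1, by omega⟩
    · intro hc
      have : i ∈ S.filter (· < i) := hc (by simp [hi, hij])
      simp at this

theorem nth (K : Finset ℕ) (j : ℕ) (hj : j < K.card) :
    ∃ p ∈ K, (K.filter (· < p)).card = j := by
  refine ⟨K.orderEmbOfFin rfl ⟨j, hj⟩, Finset.orderEmbOfFin_mem _ _ _, ?_⟩
  have : K.filter (· < K.orderEmbOfFin rfl ⟨j, hj⟩) =
      (Finset.univ.filter (fun i : Fin K.card => i < ⟨j, hj⟩)).map
        (K.orderEmbOfFin rfl).toEmbedding := by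
    ext a
    simp only [Finset.mem_filter, Finset.mem_map, Finset.mem_univ, true_and]
    constructor
    · rintro ⟨ha, hlt⟩
      have : a ∈ Set.range (K.orderEmbOfFin rfl) := by
        rw [Finset.range_orderEmbOfFin]; exact ha
      obtain ⟨i, rfl⟩ := this
      exact ⟨i, (K.orderEmbOfFin rfl).lt_iff_lt.mp hlt, rfl⟩
    · rintro ⟨i, hi, rfl⟩
      exact ⟨Finset.orderEmbOfFin_mem _ _ _, (K.orderEmbOfFin rfl).lt_iff_lt.mpr hi⟩
  rw [this, Finset.card_map]
  have h2 : (Finset.univ.filter (fun i : Fin K.card => i < ⟨j, hj⟩)) = Finset.Iio ⟨j, hj⟩ := by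
    ext i; simp
  rw [h2, Fin.card_Iio]

theorem split3 (K : Finset ℕ) (p : ℕ) (hp : p ∈ K) :
    (K.filter (· < p)).card + (K.filter (p < ·)).card + 1 = K.card := by
  have h1 : K = (K.filter (· < p)) ∪ (K.filter (p < ·)) ∪ {p} := by
    ext a
    simp only [Finset.mem_union, Finset.mem_filter, Finset.mem_singleton]
    constructor
    · intro ha
      rcases lt_trichotomy a p with h | h | h
      · exact Or.inl (Or.inl ⟨ha, h⟩)
      · exact Or.inr h
      · exact Or.inl (Or.inr ⟨ha, h⟩)
    · rintro ((h | h) | h)
      · exact h.1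
      · exact h.1
      · rw [h]; exact hp
  have h2 : Disjoint (K.filter (· < p)) (K.filter (p < ·)) := by
    rw [Finset.disjoint_left]
    intro a ha hb
    simp only [Finset.mem_filter] at ha hb
    omega
  have h3 : Disjoint ((K.filter (· < p)) ∪ (K.filter (p < ·))) {p} := by
    rw [Finset.disjoint_left]
    intro a ha hb
    simp only [Finset.mem_union, Finset.mem_filter, Finset.mem_singleton] at ha hb
    omega
  conv_rhs => rw [h1]
  rw [Finset.card_union_of_disjoint h3, Finset.card_union_of_disjoint h2, Finset.card_singleton]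

section Main

variable {c m N : ℕ} {red : ℕ → ℕ → Prop}

/-- red clique -/
def Clq (red : ℕ → ℕ → Prop) (K : Finset ℕ) : Prop := ∀ p ∈ K, ∀ q ∈ K, p < q → red p q

open Classical in
/-- left red neighbours -/
noncomputable def LR (red : ℕ → ℕ → Prop) (w q : ℕ) : Finset ℕ := (Finset.Ico 1 w).filter (fun r => red r q)
open Classical in
/-- left blue neighbours -/
noncomputable def LB (red : ℕ → ℕ → Prop) (w q : ℕ) : Finset ℕ := (Finset.Ico 1 w).filter (fun r => ¬ red r q)
open Classical in
/-- right red neighbours -/
noncomputable def RR (N : ℕ) (red : ℕ → ℕ → Prop) (w p : ℕ) : Finset ℕ := (Finset.Ioc w N).filter (fun r => red p r)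
open Classical in
/-- right blue neighbours -/
noncomputable def RB (N : ℕ) (red : ℕ → ℕ → Prop) (w p : ℕ) : Finset ℕ := (Finset.Ioc w N).filter (fun r => ¬ red p r)

theorem LR_LB (w q : ℕ) : (LR red w q).card + (LB red w q).card = w - 1 := by
  classical
  have := Finset.card_filter_add_card_filter_not (s := Finset.Ico 1 w) (fun r => red r q)
  rw [Nat.card_Ico] at this
  exact this

theorem RR_RB (w p : ℕ) : (RR N red w p).card + (RB N red w p).card = N - w := by
  classical
  have := Finset.card_filter_add_card_filter_not (s := Finset.Ioc w N) (fun r => red p r)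
  rw [Nat.card_Ioc] at this
  exact this

theorem mem_LR {w q r : ℕ} : r ∈ LR red w q ↔ 1 ≤ r ∧ r < w ∧ red r q := by
  simp [LR, and_assoc]
theorem mem_LB {w q r : ℕ} : r ∈ LB red w q ↔ 1 ≤ r ∧ r < w ∧ ¬ red r q := by
  simp [LB, and_assoc]
theorem mem_RR {w p r : ℕ} : r ∈ RR N red w p ↔ w < r ∧ r ≤ N ∧ red p r := by
  simp [RR, and_assoc]
theorem mem_RB {w p r : ℕ} : r ∈ RB N red w p ↔ w < r ∧ r ≤ N ∧ ¬ red p r := by
  simp [RB, and_assoc]

/-- no blue triangle -/
def Tri (N : ℕ) (red : ℕ → ℕ → Prop) : Prop :=
  ∀ p q r, 1 ≤ p → p < q → q < r → r ≤ N → red p q ∨ red q r ∨ red p r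

/-- no red copy of the double star -/
def Star (c m N : ℕ) (red : ℕ → ℕ → Prop) : Prop :=
  ∀ p q, 1 ≤ p → p < q → q ≤ N → red p q → (LR red p q).card < m ∨ (RR N red q p).card < c

theorem clq_card (star : Star c m N red) {K : Finset ℕ} (hK : ∀ a ∈ K, 1 ≤ a ∧ a ≤ N)
    (hc : Clq red K) : K.card ≤ c + m + 1 := by
  by_contra hcon
  push Not at hcon
  obtain ⟨p, hp, hp1⟩ := nth K m (by omega)
  obtain ⟨q, hq, hq1⟩ := nth K (m + 1) (by omega)
  have hpq : p < q := by
    by_contra h
    push Not at h
    have : (K.filter (· < q)).card ≤ (K.filter (· < p)).card := by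
      apply Finset.card_le_card
      intro a ha
      simp only [Finset.mem_filter] at ha ⊢
      exact ⟨ha.1, by omega⟩
    omega
  have hs := split3 K q hq
  rcases star p q (hK p hp).1 hpq (hK q hq).2 (hc p hp q hq hpq) with h | h
  · have : (K.filter (· < p)).card ≤ (LR red p q).card := by
      apply Finset.card_le_card
      intro a ha
      simp only [Finset.mem_filter] at ha
      rw [mem_LR]
      exact ⟨(hK a ha.1).1, ha.2, hc a ha.1 q hq (by omega)⟩
    omega
  · have : (K.filter (q < ·)).card ≤ (RR N red q p).card := by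
      apply Finset.card_le_card
      intro a ha
      simp only [Finset.mem_filter] at ha
      rw [mem_RR]
      exact ⟨ha.2, (hK a ha.1).2, hc p hp a ha.1 (by omega)⟩
    omega

/-- the blue left neighbours of `q` form a red clique -/
theorem clq_LB (tri : Tri N red) {w q : ℕ} (hw : w ≤ q) (hq : q ≤ N) : Clq red (LB red w q) := by
  intro a ha b hb hab
  rw [mem_LB] at ha hb
  rcases tri a b q ha.1 hab (by omega) hq with h | h | h
  · exact h
  · exact absurd h hb.2.2
  · exact absurd h ha.2.2

theorem clq_RB (tri : Tri N red) {w p : ℕ} (hw : p ≤ w) (hp : 1 ≤ p) : Clq red (RB N red w p) := by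
  intro a ha b hb hab
  rw [mem_RB] at ha hb
  rcases tri p a b hp (by omega) hab hb.2.1 with h | h | h
  · exact absurd h ha.2.2
  · exact h
  · exact absurd h hb.2.2

theorem clq_both (tri : Tri N red) {v : ℕ} (hv : 1 ≤ v) (hvN : v ≤ N) {w : ℕ} (hw : v ≤ w) :
    Clq red (LB red v v ∪ RB N red w v) := by
  classical
  intro a ha b hb hab
  rw [Finset.mem_union] at ha hb
  rcases ha with ha | ha <;> rcases hb with hb | hb
  · exact clq_LB tri le_rfl hvN a ha b hb hab
  · rw [mem_LB] at ha
    rw [mem_RB] at hb
    rcases tri a v b ha.1 ha.2.1 (by omega) hb.2.1 with h | h | h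
    · exact absurd h ha.2.2
    · exact absurd h hb.2.2
    · exact h
  · rw [mem_RB] at ha
    rw [mem_LB] at hb
    omega
  · exact clq_RB tri hw hv a ha b hb hab

theorem main_false (hN : N = 2 * c + 2 * m + 3) (tri : Tri N red) (star : Star c m N red) :
    False := by
  classical
  -- the leftmost vertex with at least m+1 red left neighbours
  have hex : ∃ w, w ≤ N ∧ m + 1 ≤ (LR red w w).card := by
    refine ⟨N, le_rfl, ?_⟩
    have h1 := LR_LB (red := red) N N
    have h2 := clq_card star (K := LB red N N) (by
      intro a ha; rw [mem_LB] at ha; omega) (clq_LB tri le_rfl le_rfl)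
    omega
  obtain ⟨w, ⟨hwN, hwm⟩, hmin⟩ : ∃ w, (w ≤ N ∧ m + 1 ≤ (LR red w w).card) ∧
      ∀ v < w, (LR red v v).card ≤ m := by
    refine ⟨Nat.find hex, Nat.find_spec hex, ?_⟩
    intro v hv
    have h1 := Nat.find_min hex hv
    have h2 := (Nat.find_spec hex).1
    by_contra hcon
    exact h1 ⟨by omega, by omega⟩
  have hwL := LR_LB (red := red) w w
  have hw2 : m + 2 ≤ w := by omega
  -- cliques inside [1,w)
  have hcw : ∀ K : Finset ℕ, (∀ a ∈ K, 1 ≤ a ∧ a < w) → Clq red K → K.card ≤ m + 1 := by
    intro K hK hc
    rcases K.eq_empty_or_nonempty with h0 | hne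
    · rw [h0]; simp
    · have hv := Finset.max'_mem K hne
      set v := K.max' hne with hvdef
      have h1 : (K.erase v).card ≤ (LR red v v).card := by
        apply Finset.card_le_card
        intro a ha
        rw [Finset.mem_erase] at ha
        have hle : a ≤ v := Finset.le_max' K a ha.2
        rw [mem_LR]
        exact ⟨(hK a ha.2).1, lt_of_le_of_ne hle ha.1, hc a ha.2 v hv (lt_of_le_of_ne hle ha.1)⟩
      have h2 := hmin v (hK v hv).2
      have h3 := Finset.card_erase_of_mem hv
      omega
  -- w ≤ 2m+3
  have hw1 := LR_LB (red := red) (w - 1) (w - 1)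
  have hm1 := hmin (w - 1) (by omega)
  have hK1 := hcw (LB red (w - 1) (w - 1)) (by
    intro a ha; rw [mem_LB] at ha; omega) (clq_LB tri le_rfl (by omega))
  have hw3 : w ≤ 2 * m + 3 := by omega
  rcases Nat.lt_or_ge w (2 * m + 3) with hcase | hcase
  · -- CASE w ≤ 2m+2
    have hne : (LR red w w).Nonempty := by
      rw [← Finset.card_pos]; omega
    have hp := Finset.max'_mem _ hne
    set p := (LR red w w).max' hne with hpdef
    have hp' := mem_LR.mp hp
    have hbefore : m ≤ (LR red p w).card := by
      have : ((LR red w w).erase p).card ≤ (LR red p w).card := by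
        apply Finset.card_le_card
        intro a ha
        rw [Finset.mem_erase] at ha
        have hle : a ≤ p := Finset.le_max' _ a ha.2
        have ha2 := mem_LR.mp ha.2
        rw [mem_LR]
        exact ⟨ha2.1, lt_of_le_of_ne hle ha.1, ha2.2.2⟩
      have h3 := Finset.card_erase_of_mem hp
      omega
    have hRR : (RR N red w p).card < c := by
      rcases star p w hp'.1 hp'.2.1 hwN hp'.2.2 with h | h
      · omega
      · exact h
    have hsum := RR_RB (N := N) (red := red) w p
    have hQclq := clq_RB tri (N := N) (w := w) (p := p) (by omega) hp'.1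
    set Q := RB N red w p with hQdef
    -- i = |Q| - c
    obtain ⟨f1, hf1, hf1c⟩ := nth Q (Q.card - c - 2) (by omega)
    obtain ⟨f2, hf2, hf2c⟩ := nth Q (Q.card - c - 1) (by omega)
    have hf12 : f1 < f2 := by
      by_contra h
      push Not at h
      have : (Q.filter (· < f2)).card ≤ (Q.filter (· < f1)).card := by
        apply Finset.card_le_card
        intro a ha
        simp only [Finset.mem_filter] at ha ⊢
        exact ⟨ha.1, by omega⟩
      omega
    have hf1' := mem_RB.mp hf1
    have hf2' := mem_RB.mp hf2
    have hs2 := split3 Q f2 hf2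
    have hright : c ≤ (RR N red f2 f1).card := by
      have : (Q.filter (f2 < ·)).card ≤ (RR N red f2 f1).card := by
        apply Finset.card_le_card
        intro a ha
        simp only [Finset.mem_filter] at ha
        rw [mem_RR]
        exact ⟨ha.2, (mem_RB.mp ha.1).2.1, hQclq f1 hf1 a ha.1 (by omega)⟩
      omega
    have hleft : (LR red f1 f2).card < m := by
      rcases star f1 f2 (by omega) hf12 hf2'.2.1 (hQclq f1 hf1 f2 hf2 hf12) with h | h
      · exact h
      · omega
    have hcount : (LR red w f2).card + (Q.filter (· < f1)).card ≤ (LR red f1 f2).card := by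
      rw [← Finset.card_union_of_disjoint]
      · apply Finset.card_le_card
        intro a ha
        rw [Finset.mem_union] at ha
        rw [mem_LR]
        rcases ha with ha | ha
        · rw [mem_LR] at ha
          exact ⟨ha.1, by omega, ha.2.2⟩
        · rw [Finset.mem_filter] at ha
          have := mem_RB.mp ha.1
          exact ⟨by omega, ha.2, hQclq a ha.1 f2 hf2 (by omega)⟩
      · rw [Finset.disjoint_left]
        intro a ha hb
        rw [mem_LR] at ha
        rw [Finset.mem_filter] at hb
        have := mem_RB.mp hb.1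
        omega
    have hLf := LR_LB (red := red) w f2
    have hK2 := hcw (LB red w f2) (by
      intro a ha; rw [mem_LB] at ha; omega) (clq_LB tri (by omega) hf2'.2.1)
    omega
  · -- CASE w = 2m+3
    have hw : w = 2 * m + 3 := by omega
    by_cases hred : red (w - 1) w
    · have hp : w - 1 ∈ LR red w w := mem_LR.mpr ⟨by omega, by omega, hred⟩
      have hbefore : m ≤ (LR red (w - 1) w).card := by
        have : ((LR red w w).erase (w - 1)).card ≤ (LR red (w - 1) w).card := by
          apply Finset.card_le_card
          intro a ha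
          rw [Finset.mem_erase, mem_LR] at ha
          rw [mem_LR]
          exact ⟨ha.2.1, by omega, ha.2.2.2⟩
        have h3 := Finset.card_erase_of_mem hp
        omega
      have hRR : (RR N red w (w - 1)).card < c := by
        rcases star (w - 1) w (by omega) (by omega) hwN hred with h | h
        · omega
        · exact h
      have hsum := RR_RB (N := N) (red := red) w (w - 1)
      have hb := clq_card star (K := LB red (w - 1) (w - 1) ∪ RB N red w (w - 1)) (by
        intro a ha
        rw [Finset.mem_union, mem_LB, mem_RB] at ha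
        omega) (clq_both tri (by omega) (by omega) (by omega))
      rw [Finset.card_union_of_disjoint] at hb
      · omega
      · rw [Finset.disjoint_left]
        intro a ha hb
        rw [mem_LB] at ha
        rw [mem_RB] at hb
        omega
    · set K := LB red (w - 1) (w - 1) with hKdef
      have hKclq : Clq red K := clq_LB tri le_rfl (by omega)
      have hKw : ∀ k ∈ K, red k w := by
        intro k hk
        have hk' := mem_LB.mp hk
        rcases tri k (w - 1) w hk'.1 hk'.2.1 (by omega) hwN with h | h | h
        · exact absurd h hk'.2.2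
        · exact absurd h hred
        · exact h
      have hne : K.Nonempty := by
        rw [← Finset.card_pos]; omega
      have hp := Finset.max'_mem _ hne
      set p := K.max' hne with hpdef
      have hp' := mem_LB.mp hp
      have hbefore : m ≤ (LR red p w).card := by
        have : (K.erase p).card ≤ (LR red p w).card := by
          apply Finset.card_le_card
          intro a ha
          rw [Finset.mem_erase] at ha
          have hle : a ≤ p := Finset.le_max' _ a ha.2
          have ha2 := mem_LB.mp ha.2
          rw [mem_LR]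
          exact ⟨ha2.1, lt_of_le_of_ne hle ha.1, hKw a ha.2⟩
        have h3 := Finset.card_erase_of_mem hp
        omega
      have hRR : (RR N red w p).card < c := by
        rcases star p w hp'.1 (by omega) hwN (hKw p hp) with h | h
        · omega
        · exact h
      have hsum := RR_RB (N := N) (red := red) w p
      set Q := RB N red w p with hQdef
      have hQne : Q.Nonempty := by
        rw [← Finset.card_pos]; omega
      have hQred : ∀ f ∈ Q, red (w - 1) f := by
        intro f hf
        have hf' := mem_RB.mp hf
        rcases tri p (w - 1) f hp'.1 hp'.2.1 (by omega) hf'.2.1 with h | h | h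
        · exact absurd h hp'.2.2
        · exact h
        · exact absurd h hf'.2.2
      have hf := Finset.min'_mem _ hQne
      set f := Q.min' hQne with hfdef
      have hf' := mem_RB.mp hf
      have hright : c ≤ (RR N red f (w - 1)).card := by
        have : (Q.erase f).card ≤ (RR N red f (w - 1)).card := by
          apply Finset.card_le_card
          intro a ha
          rw [Finset.mem_erase] at ha
          have hle : f ≤ a := Finset.min'_le _ a ha.2
          have ha2 := mem_RB.mp ha.2
          rw [mem_RR]
          exact ⟨lt_of_le_of_ne hle (Ne.symm ha.1), ha2.2.1, hQred a ha.2⟩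
        have h3 := Finset.card_erase_of_mem hf
        omega
      have hleft : (LR red (w - 1) f).card < m := by
        rcases star (w - 1) f (by omega) (by omega) hf'.2.1 (hQred f hf) with h | h
        · exact h
        · omega
      have hLf := LR_LB (red := red) (w - 1) f
      have hK2 := hcw (LB red (w - 1) f) (by
        intro a ha; rw [mem_LB] at ha; omega) (clq_LB tri (by omega) hf'.2.1)
      omega

end Main

end ArrowD

open ArrowD in
theorem arrow_D {S : Finset ℕ} {E : ℕ → ℕ → Prop} {x y : ℕ} (hx : x ∈ S) (hy : y ∈ S) (hxy : x < y)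
    (hcons : ∀ z ∈ S, ¬ (x < z ∧ z < y))
    (hE : ∀ i ∈ S, ∀ j ∈ S, i < j → E i j → (j = y ∧ i ≤ x) ∨ (i = x ∧ y ≤ j)) : Arrow 3 S E := by
  classical
  intro A red hA
  set m := (S.filter (· < x)).card with hm
  set c := (S.filter (y < ·)).card with hc
  have hScard : S.card = c + m + 2 := by
    have h1 := split3 S y hy
    have h2 : (S.filter (· < y)).card = m + 1 := by
      have h3 := split3 (S.filter (· < y)) x (by simp [hx, hxy])
      have h4 : (S.filter (· < y)).filter (· < x) = S.filter (· < x) := by
        ext a; simp only [Finset.mem_filter]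
        constructor
        · rintro ⟨⟨h, _⟩, h'⟩; exact ⟨h, h'⟩
        · rintro ⟨h, h'⟩; exact ⟨⟨h, by omega⟩, h'⟩
      have h5 : (S.filter (· < y)).filter (x < ·) = ∅ := by
        rw [Finset.filter_eq_empty_iff]
        intro a ha hxa
        rw [Finset.mem_filter] at ha
        exact hcons a ha.1 ⟨hxa, ha.2⟩
      rw [h4, h5, Finset.card_empty] at h3
      omega
    omega
  set N := 2 * c + 2 * m + 3 with hN
  have hNA : (Finset.Icc 1 N).card ≤ A.card := by
    rw [Nat.card_Icc]
    rw [hScard] at hA
    omega
  obtain ⟨ψ, hψ, hψm⟩ := exists_mono (Finset.Icc 1 N) A hNA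
  by_contra hcon
  push Not at hcon
  obtain ⟨hno, hnb⟩ := hcon
  apply main_false (c := c) (m := m) (N := N) (red := fun p q => red (ψ p) (ψ q)) rfl
  · -- no blue triangle
    intro p q r hp hpq hqr hr
    by_contra hcon
    push Not at hcon
    obtain ⟨h1, h2, h3⟩ := hcon
    have mp : p ∈ Finset.Icc 1 N := Finset.mem_Icc.mpr ⟨hp, by omega⟩
    have mq : q ∈ Finset.Icc 1 N := Finset.mem_Icc.mpr ⟨by omega, by omega⟩
    have mr : r ∈ Finset.Icc 1 N := Finset.mem_Icc.mpr ⟨by omega, by omega⟩
    have hpq' := hψm p mp q mq hpq
    have hqr' := hψm q mq r mr hqr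
    apply hnb
    refine ⟨{ψ p, ψ q, ψ r}, ?_, ?_, ?_⟩
    · intro a ha
      simp only [Finset.mem_insert, Finset.mem_singleton] at ha
      rcases ha with rfl | rfl | rfl
      · exact hψ p mp
      · exact hψ q mq
      · exact hψ r mr
    · rw [Finset.card_insert_of_notMem, Finset.card_insert_of_notMem, Finset.card_singleton]
      · simp only [Finset.mem_singleton]; omega
      · simp only [Finset.mem_insert, Finset.mem_singleton]; omega
    · intro a ha b hb hab
      simp only [Finset.mem_insert, Finset.mem_singleton] at ha hb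
      rcases ha with rfl | rfl | rfl <;> rcases hb with rfl | rfl | rfl
      all_goals first | exact h1 | exact h2 | exact h3 | omega
  · -- the star condition
    intro p q hp hpq hq hr
    by_contra hcon
    push Not at hcon
    obtain ⟨h1, h2⟩ := hcon
    apply hno
    obtain ⟨φ1, hφ1, hφ1m⟩ := exists_mono (S.filter (· < x)) _ h1
    obtain ⟨φ2, hφ2, hφ2m⟩ := exists_mono (S.filter (y < ·)) _ h2
    have hφ1' : ∀ i ∈ S, i < x → 1 ≤ φ1 i ∧ φ1 i < p ∧ red (ψ (φ1 i)) (ψ q) := by
      intro i hi hix
      exact mem_LR.mp (hφ1 i (by simp [hi, hix]))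
    have hφ2' : ∀ i ∈ S, y < i → q < φ2 i ∧ φ2 i ≤ N ∧ red (ψ p) (ψ (φ2 i)) := by
      intro i hi hix
      exact mem_RR.mp (hφ2 i (by simp [hi, hix]))
    set φ : ℕ → ℕ := fun i => if i < x then φ1 i else if i = x then p else if i = y then q
      else φ2 i with hφ
    have e1 : ∀ i, i < x → φ i = φ1 i := by
      intro i hi; simp only [hφ, hi, if_true]
    have e2 : φ x = p := by simp [hφ]
    have e3 : φ y = q := by
      show (if y < x then φ1 y else if y = x then p else if y = y then q else φ2 y) = q
      rw [if_neg (by omega), if_neg (by omega), if_pos rfl]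
    have e4 : ∀ i, y < i → φ i = φ2 i := by
      intro i hi
      show (if i < x then φ1 i else if i = x then p else if i = y then q else φ2 i) = φ2 i
      rw [if_neg (by omega), if_neg (by omega), if_neg (by omega)]
    have hcases : ∀ i ∈ S, i < x ∨ i = x ∨ i = y ∨ y < i := by
      intro i hi
      have := hcons i hi
      omega
    have hmem : ∀ i ∈ S, φ i ∈ Finset.Icc 1 N := by
      intro i hi
      rw [Finset.mem_Icc]
      rcases hcases i hi with h | h | h | h
      · rw [e1 i h]; have := hφ1' i hi h; omega
      · rw [h, e2]; omega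
      · rw [h, e3]; omega
      · rw [e4 i h]; have := hφ2' i hi h; omega
    have hmono : ∀ i ∈ S, ∀ j ∈ S, i < j → φ i < φ j := by
      intro i hi j hj hij
      rcases hcases i hi with h | h | h | h <;> rcases hcases j hj with h' | h' | h' | h'
      · rw [e1 i h, e1 j h']
        exact hφ1m i (by simp [hi, h]) j (by simp [hj, h']) hij
      · rw [e1 i h, h', e2]; exact (hφ1' i hi h).2.1
      · rw [e1 i h, h', e3]; have := hφ1' i hi h; omega
      · rw [e1 i h, e4 j h']; have := hφ1' i hi h; have := hφ2' j hj h'; omega
      · omega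
      · omega
      · rw [h, h', e2, e3]; exact hpq
      · rw [h, e2, e4 j h']; have := hφ2' j hj h'; omega
      · omega
      · omega
      · omega
      · rw [h, e3, e4 j h']; exact (hφ2' j hj h').1
      · omega
      · omega
      · omega
      · rw [e4 i h, e4 j h']
        exact hφ2m i (by simp [hi, h]) j (by simp [hj, h']) hij
    refine ⟨fun i => ψ (φ i), fun i hi => hψ _ (hmem i hi), ?_, ?_⟩
    · intro i hi j hj hij
      exact hψm _ (hmem i hi) _ (hmem j hj) (hmono i hi j hj hij)
    · intro i hi j hj hij he
      show red (ψ (φ i)) (ψ (φ j))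
      rcases hE i hi j hj hij he with ⟨rfl, h2⟩ | ⟨rfl, h2⟩
      · rw [e3]
        rcases Nat.lt_or_ge i x with h | h
        · rw [e1 i h]; exact (hφ1' i hi h).2.2
        · have : i = x := by omega
          rw [this, e2]; exact hr
      · rw [e2]
        rcases Nat.lt_or_ge y j with h | h
        · rw [e4 j h]; exact (hφ2' j hj h).2.2
        · have : j = y := by omega
          rw [this, e3]; exact hr

end OG23
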