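import Pool.Agent.Lib_MP_23a060_co.Defs

/-!
MP_23a060_co, part 4: the easy cases of the upper bound.
-/

namespace OG23

theorem arrow_one {S : Finset ℕ} {E : ℕ → ℕ → Prop} (_hS : S.Nonempty) : Arrow 1 S E := by
  intro A red hA
  right
  have hA1 : 0 < A.card := by omega
  obtain ⟨a, ha⟩ := Finset.card_pos.mp hA1
  refine ⟨{a}, by simpa using ha, by simp, ?_⟩
  intro p hp q hq hpq
  rw [Finset.mem_singleton] at hp hq
  omega

/-- order embedding of `S` into `A` -/
theorem exists_mono_map (S A : Finset ℕ) (h : S.card ≤ A.card) :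
    ∃ φ : ℕ → ℕ, (∀ i ∈ S, φ i ∈ A) ∧ (∀ i ∈ S, ∀ j ∈ S, i < j → φ i < φ j) := by
  classical
  obtain ⟨A', hA', hc⟩ := Finset.exists_subset_card_eq h
  let e1 := S.orderIsoOfFin rfl
  let e2 := A'.orderEmbOfFin hc
  refine ⟨fun i => if h : i ∈ S then e2 (e1.symm ⟨i, h⟩) else 0, ?_, ?_⟩
  · intro i hi
    simp only [dif_pos hi]
    exact hA' (A'.orderEmbOfFin_mem hc _)
  · intro i hi j hj hij
    simp only [dif_pos hi, dif_pos hj]
    rw [e2.lt_iff_lt, e1.symm.lt_iff_lt]
    exact hij

theorem arrow_two {S : Finset ℕ} {E : ℕ → ℕ → Prop} (hS : S.Nonempty) : Arrow 2 S E := by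
  classical
  intro A red hA
  have hS1 : 1 ≤ S.card := Finset.card_pos.mpr hS
  by_cases hb : ∃ p ∈ A, ∃ q ∈ A, p < q ∧ ¬ red p q
  · right
    obtain ⟨p, hp, q, hq, hpq, hred⟩ := hb
    refine ⟨{p, q}, ?_, Finset.card_pair hpq.ne, ?_⟩
    · intro x hx
      rw [Finset.mem_insert, Finset.mem_singleton] at hx
      rcases hx with rfl | rfl
      · exact hp
      · exact hq
    · intro a ha b hb' hab
      rw [Finset.mem_insert, Finset.mem_singleton] at ha hb'
      rcases ha with rfl | rfl <;> rcases hb' with rfl | rfl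
      · exact absurd hab (lt_irrefl _)
      · exact hred
      · omega
      · exact absurd hab (lt_irrefl _)
  · left
    obtain ⟨φ, h1, h2⟩ := exists_mono_map S A (by omega)
    refine ⟨φ, h1, h2, ?_⟩
    intro i hi j hj hij _
    by_contra hne
    exact hb ⟨φ i, h1 i hi, φ j, h1 j hj, h2 i hi j hj hij, hne⟩

theorem arrow_point {n : ℕ} {S : Finset ℕ} {E : ℕ → ℕ → Prop} (_hn : 1 ≤ n) (hS : S.card = 1)
    (_hE : ∀ i, ¬ E i i) : Arrow n S E := by
  intro A red hA
  left
  have hA1 : 0 < A.card := by omega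
  obtain ⟨a, ha⟩ := Finset.card_pos.mp hA1
  rw [Finset.card_eq_one] at hS
  obtain ⟨s, rfl⟩ := hS
  refine ⟨fun _ => a, fun _ _ => ha, ?_, ?_⟩
  · intro i hi j hj hij
    rw [Finset.mem_singleton] at hi hj
    omega
  · intro i hi j hj hij
    rw [Finset.mem_singleton] at hi hj
    omega

/-- map of a star with the least vertex as centre -/
theorem star_copy_min {S : Finset ℕ} {E : ℕ → ℕ → Prop} {s : ℕ} (hs : s ∈ S)
    (hmin : ∀ i ∈ S, s ≤ i) (hE : ∀ i ∈ S, ∀ j ∈ S, i < j → E i j → i = s)
    (A : Finset ℕ) (red : ℕ → ℕ → Prop) (a : ℕ) (ha : a ∈ A) (R : Finset ℕ) (hR : R ⊆ A)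
    (hRa : ∀ r ∈ R, a < r ∧ red a r) (hc : S.card - 1 ≤ R.card) : CopyIn S E A red := by
  classical
  obtain ⟨ψ, h1, h2⟩ := exists_mono_map (S.erase s) R (by rw [Finset.card_erase_of_mem hs]; exact hc)
  refine ⟨fun i => if i = s then a else ψ i, ?_, ?_, ?_⟩
  · intro i hi
    by_cases h : i = s
    · simp only [h, if_true]; exact ha
    · simp only [h, if_false]
      exact hR (h1 i (Finset.mem_erase.mpr ⟨h, hi⟩))
  · intro i hi j hj hij
    have hjs : j ≠ s := by
      rintro rfl
      exact absurd (hmin i hi) (by omega)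
    by_cases h : i = s
    · simp only [h, hjs, if_true, if_false]
      exact (hRa _ (h1 j (Finset.mem_erase.mpr ⟨hjs, hj⟩))).1
    · simp only [h, hjs, if_false]
      exact h2 i (Finset.mem_erase.mpr ⟨h, hi⟩) j (Finset.mem_erase.mpr ⟨hjs, hj⟩) hij
  · intro i hi j hj hij hEij
    have hjs : j ≠ s := by
      rintro rfl
      exact absurd (hmin i hi) (by omega)
    have h := hE i hi j hj hij hEij
    simp only [h, hjs, if_true, if_false]
    exact (hRa _ (h1 j (Finset.mem_erase.mpr ⟨hjs, hj⟩))).2

theorem arrow_star_min_aux {S : Finset ℕ} {E : ℕ → ℕ → Prop} {s : ℕ} (hs : s ∈ S)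
    (hmin : ∀ i ∈ S, s ≤ i) (hE : ∀ i ∈ S, ∀ j ∈ S, i < j → E i j → i = s) (n : ℕ) :
    Arrow (n + 1) S E := by
  classical
  induction n with
  | zero => exact arrow_one ⟨s, hs⟩
  | succ n ih =>
    intro A red hA
    have hA1 : 0 < A.card := by omega
    have hne : A.Nonempty := Finset.card_pos.mp hA1
    set a := A.min' hne with hadef
    have ha : a ∈ A := A.min'_mem hne
    have hmina : ∀ x ∈ A, a ≤ x := fun x hx => A.min'_le x hx
    set R := (A.erase a).filter (fun r => red a r) with hR
    set B := (A.erase a).filter (fun r => ¬ red a r) with hB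
    have hcard : R.card + B.card = A.card - 1 := by
      rw [hR, hB, Finset.card_filter_add_card_filter_not, Finset.card_erase_of_mem ha]
    by_cases hRc : S.card - 1 ≤ R.card
    · left
      refine star_copy_min hs hmin hE A red a ha R ?_ ?_ hRc
      · exact (Finset.filter_subset _ _).trans (Finset.erase_subset _ _)
      · intro r hr
        rw [hR, Finset.mem_filter, Finset.mem_erase] at hr
        exact ⟨lt_of_le_of_ne (hmina r hr.1.2) (Ne.symm hr.1.1), hr.2⟩
    · have hBc : (n + 1 - 1) * (S.card - 1) + 1 ≤ B.card := by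
        have e : (n + 1 + 1 - 1) * (S.card - 1) = (n + 1 - 1) * (S.card - 1) + (S.card - 1) := by
          simp only [Nat.add_sub_cancel]
          ring
        rw [e] at hA
        omega
      have hBA : B ⊆ A := (Finset.filter_subset _ _).trans (Finset.erase_subset _ _)
      rcases ih B red hBc with ⟨φ, h1, h2, h3⟩ | ⟨C, hC1, hC2, hC3⟩
      · left
        exact ⟨φ, fun i hi => hBA (h1 i hi), h2, h3⟩
      · right
        have haC : a ∉ C := by
          intro h
          have := hC1 h
          rw [hB, Finset.mem_filter, Finset.mem_erase] at this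
          exact this.1.1 rfl
        refine ⟨insert a C, ?_, ?_, ?_⟩
        · intro x hx
          rw [Finset.mem_insert] at hx
          rcases hx with rfl | hx
          · exact ha
          · exact hBA (hC1 hx)
        · rw [Finset.card_insert_of_notMem haC, hC2]
        · intro p hp q hq hpq
          rw [Finset.mem_insert] at hp hq
          rcases hp with rfl | hp <;> rcases hq with rfl | hq
          · exact absurd hpq (lt_irrefl _)
          · have := hC1 hq
            rw [hB, Finset.mem_filter] at this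
            exact this.2
          · have := hmina p (hBA (hC1 hp))
            omega
          · exact hC3 p hp q hq hpq

theorem arrow_star_min {n : ℕ} {S : Finset ℕ} {E : ℕ → ℕ → Prop} {s : ℕ} (hn : 1 ≤ n) (hs : s ∈ S)
    (hmin : ∀ i ∈ S, s ≤ i) (hE : ∀ i ∈ S, ∀ j ∈ S, i < j → E i j → i = s) : Arrow n S E := by
  obtain ⟨m, rfl⟩ : ∃ m, n = m + 1 := ⟨n - 1, by omega⟩
  exact arrow_star_min_aux hs hmin hE m

/-- map of a star with the greatest vertex as centre -/
theorem star_copy_max {S : Finset ℕ} {E : ℕ → ℕ → Prop} {s : ℕ} (hs : s ∈ S)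
    (hmax : ∀ i ∈ S, i ≤ s) (hE : ∀ i ∈ S, ∀ j ∈ S, i < j → E i j → j = s)
    (A : Finset ℕ) (red : ℕ → ℕ → Prop) (a : ℕ) (ha : a ∈ A) (R : Finset ℕ) (hR : R ⊆ A)
    (hRa : ∀ r ∈ R, r < a ∧ red r a) (hc : S.card - 1 ≤ R.card) : CopyIn S E A red := by
  classical
  obtain ⟨ψ, h1, h2⟩ := exists_mono_map (S.erase s) R (by rw [Finset.card_erase_of_mem hs]; exact hc)
  refine ⟨fun i => if i = s then a else ψ i, ?_, ?_, ?_⟩
  · intro i hi
    by_cases h : i = s
    · simp only [h, if_true]; exact ha
    · simp only [h, if_false]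
      exact hR (h1 i (Finset.mem_erase.mpr ⟨h, hi⟩))
  · intro i hi j hj hij
    have his : i ≠ s := by
      rintro rfl
      exact absurd (hmax j hj) (by omega)
    by_cases h : j = s
    · simp only [h, his, if_true, if_false]
      exact (hRa _ (h1 i (Finset.mem_erase.mpr ⟨his, hi⟩))).1
    · simp only [h, his, if_false]
      exact h2 i (Finset.mem_erase.mpr ⟨his, hi⟩) j (Finset.mem_erase.mpr ⟨h, hj⟩) hij
  · intro i hi j hj hij hEij
    have his : i ≠ s := by
      rintro rfl
      exact absurd (hmax j hj) (by omega)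
    have h := hE i hi j hj hij hEij
    simp only [h, his, if_true, if_false]
    exact (hRa _ (h1 i (Finset.mem_erase.mpr ⟨his, hi⟩))).2

theorem arrow_star_max_aux {S : Finset ℕ} {E : ℕ → ℕ → Prop} {s : ℕ} (hs : s ∈ S)
    (hmax : ∀ i ∈ S, i ≤ s) (hE : ∀ i ∈ S, ∀ j ∈ S, i < j → E i j → j = s) (n : ℕ) :
    Arrow (n + 1) S E := by
  classical
  induction n with
  | zero => exact arrow_one ⟨s, hs⟩
  | succ n ih =>
    intro A red hA
    have hA1 : 0 < A.card := by omega
    have hne : A.Nonempty := Finset.card_pos.mp hA1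
    set a := A.max' hne with hadef
    have ha : a ∈ A := A.max'_mem hne
    have hmaxa : ∀ x ∈ A, x ≤ a := fun x hx => A.le_max' x hx
    set R := (A.erase a).filter (fun r => red r a) with hR
    set B := (A.erase a).filter (fun r => ¬ red r a) with hB
    have hcard : R.card + B.card = A.card - 1 := by
      rw [hR, hB, Finset.card_filter_add_card_filter_not, Finset.card_erase_of_mem ha]
    by_cases hRc : S.card - 1 ≤ R.card
    · left
      refine star_copy_max hs hmax hE A red a ha R ?_ ?_ hRc
      · exact (Finset.filter_subset _ _).trans (Finset.erase_subset _ _)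
      · intro r hr
        rw [hR, Finset.mem_filter, Finset.mem_erase] at hr
        exact ⟨lt_of_le_of_ne (hmaxa r hr.1.2) hr.1.1, hr.2⟩
    · have hBc : (n + 1 - 1) * (S.card - 1) + 1 ≤ B.card := by
        have e : (n + 1 + 1 - 1) * (S.card - 1) = (n + 1 - 1) * (S.card - 1) + (S.card - 1) := by
          simp only [Nat.add_sub_cancel]
          ring
        rw [e] at hA
        omega
      have hBA : B ⊆ A := (Finset.filter_subset _ _).trans (Finset.erase_subset _ _)
      rcases ih B red hBc with ⟨φ, h1, h2, h3⟩ | ⟨C, hC1, hC2, hC3⟩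
      · left
        exact ⟨φ, fun i hi => hBA (h1 i hi), h2, h3⟩
      · right
        have haC : a ∉ C := by
          intro h
          have := hC1 h
          rw [hB, Finset.mem_filter, Finset.mem_erase] at this
          exact this.1.1 rfl
        refine ⟨insert a C, ?_, ?_, ?_⟩
        · intro x hx
          rw [Finset.mem_insert] at hx
          rcases hx with rfl | hx
          · exact ha
          · exact hBA (hC1 hx)
        · rw [Finset.card_insert_of_notMem haC, hC2]
        · intro p hp q hq hpq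
          rw [Finset.mem_insert] at hp hq
          rcases hp with rfl | hp <;> rcases hq with rfl | hq
          · exact absurd hpq (lt_irrefl _)
          · have := hmaxa q (hBA (hC1 hq))
            omega
          · have := hC1 hp
            rw [hB, Finset.mem_filter] at this
            exact this.2
          · exact hC3 p hp q hq hpq

theorem arrow_star_max {n : ℕ} {S : Finset ℕ} {E : ℕ → ℕ → Prop} {s : ℕ} (hn : 1 ≤ n) (hs : s ∈ S)
    (hmax : ∀ i ∈ S, i ≤ s) (hE : ∀ i ∈ S, ∀ j ∈ S, i < j → E i j → j = s) : Arrow n S E := by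
  obtain ⟨m, rfl⟩ : ∃ m, n = m + 1 := ⟨n - 1, by omega⟩
  exact arrow_star_max_aux hs hmax hE m

theorem arrow_glue {n : ℕ} {S : Finset ℕ} {E : ℕ → ℕ → Prop} {v : ℕ} (_hn : 1 ≤ n) (hv : v ∈ S)
    (hcut : ∀ i ∈ S, ∀ j ∈ S, E i j → i < v → ¬ v < j)
    (h1 : Arrow n (S.filter (· ≤ v)) E) (h2 : Arrow n (S.filter (v ≤ ·)) E) : Arrow n S E := by
  classical
  intro A red hA
  by_cases hblue : BlueIn n A red
  · exact Or.inr hblue
  left
  set S1 := S.filter (· ≤ v) with hS1
  set S2 := S.filter (v ≤ ·) with hS2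
  have hv1 : v ∈ S1 := by rw [hS1, Finset.mem_filter]; exact ⟨hv, le_rfl⟩
  have hv2 : v ∈ S2 := by rw [hS2, Finset.mem_filter]; exact ⟨hv, le_rfl⟩
  have hc1 : 1 ≤ S1.card := Finset.card_pos.mpr ⟨v, hv1⟩
  have hc2 : 1 ≤ S2.card := Finset.card_pos.mpr ⟨v, hv2⟩
  have hcard : S1.card + S2.card = S.card + 1 := by
    have e1 : S1 ∪ S2 = S := by
      ext x
      simp only [hS1, hS2, Finset.mem_union, Finset.mem_filter]
      constructor
      · rintro (h | h)
        · exact h.1
        · exact h.1
      · intro h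
        rcases le_total x v with h' | h'
        · exact Or.inl ⟨h, h'⟩
        · exact Or.inr ⟨h, h'⟩
    have e2 : S1 ∩ S2 = {v} := by
      ext x
      simp only [hS1, hS2, Finset.mem_inter, Finset.mem_filter, Finset.mem_singleton]
      constructor
      · rintro ⟨⟨_, h3⟩, ⟨_, h4⟩⟩
        omega
      · rintro rfl
        exact ⟨⟨hv, le_rfl⟩, ⟨hv, le_rfl⟩⟩
    have := Finset.card_union_add_card_inter S1 S2
    rw [e1, e2, Finset.card_singleton] at this
    omega
  -- the ends of the copies of S1
  set A1 := A.filter (fun a => ∃ φ : ℕ → ℕ, (∀ i ∈ S1, φ i ∈ A) ∧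
    (∀ i ∈ S1, ∀ j ∈ S1, i < j → φ i < φ j) ∧
    (∀ i ∈ S1, ∀ j ∈ S1, i < j → E i j → red (φ i) (φ j)) ∧ φ v = a) with hA1
  have hA1A : A1 ⊆ A := Finset.filter_subset _ _
  have hrest : (A \ A1).card ≤ (n - 1) * (S1.card - 1) := by
    by_contra hlt
    push Not at hlt
    rcases h1 (A \ A1) red (by omega) with ⟨φ, g1, g2, g3⟩ | ⟨C, hC1, hC2, hC3⟩
    · have hmem := g1 v hv1
      rw [Finset.mem_sdiff] at hmem
      apply hmem.2
      rw [hA1, Finset.mem_filter]
      exact ⟨hmem.1, φ, fun i hi => (Finset.mem_sdiff.mp (g1 i hi)).1, g2, g3, rfl⟩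
    · exact hblue ⟨C, fun x hx => (Finset.mem_sdiff.mp (hC1 hx)).1, hC2, hC3⟩
  have hA1c : (n - 1) * (S2.card - 1) + 1 ≤ A1.card := by
    have e3 : (A \ A1).card + A1.card = A.card := Finset.card_sdiff_add_card_eq_card hA1A
    have e4 : S.card - 1 = (S1.card - 1) + (S2.card - 1) := by omega
    rw [e4, Nat.mul_add] at hA
    omega
  rcases h2 A1 red hA1c with ⟨ψ, g1, g2, g3⟩ | ⟨C, hC1, hC2, hC3⟩
  swap
  · exact absurd ⟨C, fun x hx => hA1A (hC1 hx), hC2, hC3⟩ hblue
  have hmem := g1 v hv2
  rw [hA1, Finset.mem_filter] at hmem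
  obtain ⟨hvA, φ, f1, f2, f3, f4⟩ := hmem
  have m1 : ∀ i ∈ S, i ≤ v → i ∈ S1 := fun i hi h => by
    rw [hS1, Finset.mem_filter]; exact ⟨hi, h⟩
  have m2 : ∀ i ∈ S, v ≤ i → i ∈ S2 := fun i hi h => by
    rw [hS2, Finset.mem_filter]; exact ⟨hi, h⟩
  refine ⟨fun i => if i ≤ v then φ i else ψ i, ?_, ?_, ?_⟩
  · intro i hi
    by_cases h : i ≤ v
    · simp only [h, if_true]
      exact f1 i (m1 i hi h)
    · simp only [h, if_false]
      exact hA1A (g1 i (m2 i hi (by omega)))
  · intro i hi j hj hij
    by_cases hj' : j ≤ v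
    · have hi' : i ≤ v := by omega
      simp only [hi', hj', if_true]
      exact f2 i (m1 i hi hi') j (m1 j hj hj') hij
    · by_cases hi' : i ≤ v
      · simp only [hi', hj', if_true, if_false]
        have a1 : ψ v < ψ j := g2 v hv2 j (m2 j hj (by omega)) (by omega)
        have a2 : φ i ≤ φ v := by
          rcases Nat.lt_or_ge i v with h | h
          · exact (f2 i (m1 i hi hi') v hv1 h).le
          · have : i = v := by omega
            rw [this]
        omega
      · simp only [hi', hj', if_false]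
        exact g2 i (m2 i hi (by omega)) j (m2 j hj (by omega)) hij
  · intro i hi j hj hij hE
    by_cases hj' : j ≤ v
    · have hi' : i ≤ v := by omega
      simp only [hi', hj', if_true]
      exact f3 i (m1 i hi hi') j (m1 j hj hj') hij hE
    · by_cases hi' : i ≤ v
      · have hiv : i = v := by
          by_contra hne
          exact hcut i hi j hj hE (by omega) (by omega)
        simp only [hi', hj', if_true, if_false]
        have := g3 v hv2 j (m2 j hj (by omega)) (by omega) (by rw [← hiv]; exact hE)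
        rw [hiv, f4]
        exact this
      · simp only [hi', hj', if_false]
        exact g3 i (m2 i hi (by omega)) j (m2 j hj (by omega)) hij hE

end OG23
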