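import Pool.Agent.Lib_MP_23a060_co.Kill

/-! Case 1: the first and the last vertex are adjacent; and the general word A. -/

namespace OG23

variable {G : ℕ → ℕ → Prop} {k : ℕ}

/-- existence of a 5-block word with given end positions and classes -/
theorem word5 (t1 t2 t3 t4 c1 c2 c3 c4 c5 : ℕ) (h12 : t1 ≤ t2) (h23 : t2 ≤ t3) (h34 : t3 ≤ t4) :
    ∃ cls : ℕ → ℕ, ∀ p, (p ≤ t1 ∧ cls p = c1) ∨ (t1 < p ∧ p ≤ t2 ∧ cls p = c2) ∨
      (t2 < p ∧ p ≤ t3 ∧ cls p = c3) ∨ (t3 < p ∧ p ≤ t4 ∧ cls p = c4) ∨
      (t4 < p ∧ cls p = c5) := by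
  refine ⟨fun p => if p ≤ t1 then c1 else if p ≤ t2 then c2 else if p ≤ t3 then c3 else
      if p ≤ t4 then c4 else c5, ?_⟩
  intro p; dsimp only; split_ifs <;> omega

theorem killedP2 (hG : OG G k) {α β : ℕ} (h0 : G 1 k) (h1 : G 1 α) (h2 : G β k) (hβ : 2 ≤ β)
    (hβα : β < α) (hα : α < k) : Killed G k := by
  obtain ⟨cls, hcls⟩ := word5 (β - 1) α (k - 2 + β) (k - 1 + α) 0 1 2 3 4 (by omega) (by omega)
    (by omega)
  refine ⟨cls, ?_, ?_⟩
  · intro p; have := hcls p; omega
  · intro φ hφ
    have e0 := emb_red hG hφ h0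
    have e1 := emb_red hG hφ h1
    have e2 := emb_red hG hφ h2
    have g1 := hφ.pos 1 le_rfl (by omega)
    have g2 := hφ.gap (i := 1) (j := β) le_rfl (by omega) (by omega)
    have g3 := hφ.gap (i := β) (j := α) (by omega) (by omega) (by omega)
    have g4 := hφ.gap (i := α) (j := k) (by omega) (by omega) (by omega)
    have g5 := hφ.le k (by omega) le_rfl
    have s1 := hcls (φ 1)
    have s2 := hcls (φ β)
    have s3 := hcls (φ α)
    have s4 := hcls (φ k)
    unfold redC at e0 e1 e2
    omega

theorem killedP6 (hG : OG G k) {s y : ℕ} (h0 : G 1 k) (h1 : G 1 s) (h2 : G s y) (hs : 2 ≤ s)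
    (hsy : s < y) (hy : y < k) : Killed G k := by
  obtain ⟨cls, hcls⟩ := word5 (s - 1) s k (k + s - 1) 0 1 4 3 2 (by omega) (by omega)
    (by omega)
  refine ⟨cls, ?_, ?_⟩
  · intro p; have := hcls p; omega
  · intro φ hφ
    have e0 := emb_red hG hφ h0
    have e1 := emb_red hG hφ h1
    have e2 := emb_red hG hφ h2
    have g1 := hφ.pos 1 le_rfl (by omega)
    have g2 := hφ.gap (i := 1) (j := s) le_rfl (by omega) (by omega)
    have g3 := hφ.gap (i := s) (j := y) (by omega) (by omega) (by omega)
    have g4 := hφ.gap (i := y) (j := k) (by omega) (by omega) (by omega)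
    have g5 := hφ.le k (by omega) le_rfl
    have s1 := hcls (φ 1)
    have s2 := hcls (φ s)
    have s3 := hcls (φ y)
    have s4 := hcls (φ k)
    unfold redC at e0 e1 e2
    omega

theorem killedB (hG : OG G k) {s t : ℕ} (h0 : G 1 k) (hleaf : ∀ i, G i k → i = 1) (h1 : G 1 s)
    (h2 : G t s) (ht : 2 ≤ t) (hts : t < s) (hs : s < k) : Killed G k := by
  obtain ⟨cls, hcls⟩ := word5 (t - 1) t (t + k - 2) (2 * k - 2) 0 1 2 4 3 (by omega) (by omega)
    (by omega)
  refine ⟨cls, ?_, ?_⟩
  · intro p; have := hcls p; omega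
  · intro φ hφ
    have e0 := emb_red hG hφ h0
    have e1 := emb_red hG hφ h1
    have e2 := emb_red hG hφ h2
    have g1 := hφ.pos 1 le_rfl (by omega)
    have g2 := hφ.gap (i := 1) (j := t) le_rfl (by omega) (by omega)
    have g3 := hφ.gap (i := t) (j := s) (by omega) (by omega) (by omega)
    have g4 := hφ.gap (i := s) (j := k) (by omega) (by omega) (by omega)
    have g5 := hφ.le k (by omega) le_rfl
    have s1 := hcls (φ 1)
    have s2 := hcls (φ t)
    have s3 := hcls (φ s)
    have s4 := hcls (φ k)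
    have key : t < φ 1 ∧ φ 1 ≤ t + k - 2 ∧ φ k = 2 * k - 1 := by
      unfold redC at e0 e1 e2
      omega
    obtain ⟨l, hl, hcut⟩ := hφ.cut (t + k - 2)
    have hl1 : 1 ≤ l := (hcut 1 le_rfl (by omega)).1 (by omega)
    have hl2 : l + 1 < k := by
      by_contra hcon
      have h5 := (hcut (k - 1) (by omega) (by omega)).2 (by omega)
      have h6 := hφ.gap (i := 1) (j := k - 1) le_rfl (by omega) (by omega)
      omega
    obtain ⟨i, j, hij, hi, hj⟩ := hG.conn (fun i => l < i ∧ i < k)
      ⟨l + 1, by omega, by omega, by omega, hl2⟩ ⟨1, le_rfl, by omega, by omega⟩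
    have rj := hG.rng _ _ (hG.symm _ _ hij)
    have ri := hG.rng _ _ hij
    have hi' : ¬ φ i ≤ t + k - 2 := fun hc => by
      have := (hcut i (by omega) (by omega)).1 hc
      omega
    have hik := hφ.mono i k (by omega) hi.2 le_rfl
    have si := hcls (φ i)
    have sj := hcls (φ j)
    have er := emb_red hG hφ hij
    by_cases hjk : j = k
    · subst hjk
      have := hleaf i hij
      omega
    · have hj' : φ j ≤ t + k - 2 := (hcut j (by omega) (by omega)).2 (by omega)
      have hj1 := hφ.gap (i := 1) (j := j) le_rfl (by omega) (by omega)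
      unfold redC at er
      omega

theorem killedA (hG : OG G k) (hirr : Irred G k) {α β : ℕ} (h1 : G 1 α) (h2 : G β k)
    (hα : 2 ≤ α) (hαβ : α ≤ β) (hβ : β < k) : Killed G k := by
  obtain ⟨cls, hcls⟩ := word5 (α - 1) (α + β - 2) (α + β - 1) (β + k - 1) 0 2 3 4 1 (by omega)
    (by omega) (by omega)
  refine ⟨cls, ?_, ?_⟩
  · intro p; have := hcls p; omega
  · intro φ hφ
    have e1 := emb_red hG hφ h1
    have e2 := emb_red hG hφ h2
    have g1 := hφ.pos 1 le_rfl (by omega)
    have g2 := hφ.gap (i := 1) (j := α) le_rfl (by omega) (by omega)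
    have g3 := hφ.gap (i := α) (j := β) (by omega) (by omega) (by omega)
    have g4 := hφ.gap (i := β) (j := k) (by omega) (by omega) (by omega)
    have g5 := hφ.le k (by omega) le_rfl
    have s1 := hcls (φ 1)
    have s2 := hcls (φ α)
    have s3 := hcls (φ β)
    have s4 := hcls (φ k)
    have key : α - 1 < φ 1 ∧ φ 1 ≤ α + β - 2 ∧ α + β - 1 < φ k ∧ φ k ≤ β + k - 1 := by
      unfold redC at e1 e2
      omega
    -- the last vertex in the second block
    obtain ⟨l, hl, hcut⟩ := hφ.cut (α + β - 2)
    have hl1 : 1 ≤ l := (hcut 1 le_rfl (by omega)).1 (by omega)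
    have hl2 : l < k := by
      by_contra hcon
      have h5 := (hcut k (by omega) (by omega)).2 (by omega)
      omega
    have hl3 : ¬ φ (l + 1) ≤ α + β - 2 := fun hc => by
      have := (hcut (l + 1) (by omega) (by omega)).1 hc
      omega
    by_cases hv : φ (l + 1) = α + β - 1
    · -- a cut vertex
      have hlk : l + 1 < k := by
        rcases Nat.lt_or_ge (l + 1) k with h | h
        · exact h
        · have : l + 1 = k := by omega
          rw [this] at hv
          omega
      obtain ⟨i, j, hij, hi, hj⟩ := hirr (l + 1) (by omega) hlk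
      have ri := hG.rng _ _ hij
      have rj := hG.rng _ _ (hG.symm _ _ hij)
      have f1 : φ i ≤ α + β - 2 := (hcut i (by omega) (by omega)).2 (by omega)
      have f2 := hφ.gap (i := 1) (j := i) le_rfl (by omega) (by omega)
      have f3 := hφ.gap (i := l + 1) (j := j) (by omega) (by omega) (by omega)
      have f4 := hφ.gap (i := j) (j := k) (by omega) (by omega) (by omega)
      have er := emb_red hG hφ hij
      have si := hcls (φ i)
      have sj := hcls (φ j)
      unfold redC at er
      omega
    · obtain ⟨i, j, hij, hi, hj⟩ := hG.conn (fun i => i ≤ l)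
        ⟨1, le_rfl, by omega, hl1⟩ ⟨l + 1, by omega, by omega, by omega⟩
      have ri := hG.rng _ _ hij
      have rj := hG.rng _ _ (hG.symm _ _ hij)
      have f1 : φ i ≤ α + β - 2 := (hcut i (by omega) (by omega)).2 (by omega)
      have f2 := hφ.gap (i := 1) (j := i) le_rfl (by omega) (by omega)
      have f3 := hφ.gap (i := l + 1) (j := j) (by omega) (by omega) (by omega)
      have f4 := hφ.gap (i := j) (j := k) (by omega) (by omega) (by omega)
      have er := emb_red hG hφ hij
      have si := hcls (φ i)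
      have sj := hcls (φ j)
      unfold redC at er
      omega

/-- if the last vertex is a leaf at 1 -/
theorem case1_leaf (hG : OG G k) (hk : 3 ≤ k) (h0 : G 1 k) (hleaf : ∀ i, G i k → i = 1)
    (hnk : ¬ Killed G k) : DShape G k := by
  -- no neighbour of 1 other than k has another neighbour
  have hno : ∀ s y, G 1 s → s ≠ k → G s y → y = 1 := by
    intro s y h1 hsk hsy
    have rs := hG.rng _ _ hsy
    have ry := hG.rng _ _ (hG.symm _ _ hsy)
    have hs1 : s ≠ 1 := by rintro rfl; exact hG.irr _ h1
    have hys : y ≠ s := by rintro rfl; exact hG.irr _ hsy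
    by_contra hy1
    by_cases hyk : y = k
    · subst hyk
      exact hs1 (hleaf _ hsy)
    · apply hnk
      rcases lt_or_gt_of_ne hys with h | h
      · exact killedB hG h0 hleaf h1 (hG.symm _ _ hsy) (by omega) h (by omega)
      · exact killedP6 hG h0 h1 hsy (by omega) h (by omega)
  have hall : ∀ i, 1 ≤ i → i ≤ k → i = 1 ∨ G 1 i := by
    intro i hi hik
    by_contra hcon
    obtain ⟨a, b, hab, ha, hb⟩ := hG.conn (fun i => i = 1 ∨ G 1 i) ⟨1, le_rfl, by omega, Or.inl rfl⟩
      ⟨i, hi, hik, hcon⟩
    rcases ha with rfl | ha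
    · exact hb (Or.inr hab)
    · by_cases hak : a = k
      · subst hak
        exact hb (Or.inl (hleaf _ (hG.symm _ _ hab)))
      · exact hb (Or.inl (hno a b ha hak hab))
  refine ⟨1, le_rfl, by omega, ?_⟩
  intro i j hij hlt
  right
  have ri := hG.rng _ _ hij
  have rj := hG.rng _ _ (hG.symm _ _ hij)
  by_contra hcon
  have hi1 : i ≠ 1 := by
    rintro rfl
    exact hcon ⟨rfl, by omega⟩
  rcases hall i (by omega) (by omega) with h | h
  · exact hi1 h
  · have := hno i j h (by omega) hij
    omega

theorem case1 (hG : OG G k) (hirr : Irred G k) (hk : 3 ≤ k) (h0 : G 1 k) (hnk : ¬ Killed G k) :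
    DShape G k := by
  by_cases hleaf : ∀ i, G i k → i = 1
  · exact case1_leaf hG hk h0 hleaf hnk
  · by_cases hleaf' : ∀ i, G i 1 → i = k
    · apply dshape_mir hG
      apply case1_leaf (og_mir hG) hk
      · show G (k + 1 - 1) (k + 1 - k)
        have e1 : k + 1 - 1 = k := by omega
        have e2 : k + 1 - k = 1 := by omega
        rw [e1, e2]
        exact hG.symm _ _ h0
      · intro i hi
        have r := (og_mir hG).rng _ _ hi
        have hi' : G (k + 1 - i) (k + 1 - k) := hi
        have e2 : k + 1 - k = 1 := by omega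
        rw [e2] at hi'
        have := hleaf' _ hi'
        omega
      · exact fun h => hnk (killed_mir hG h)
    · exfalso
      push Not at hleaf hleaf'
      obtain ⟨β, hβ, hβ1⟩ := hleaf
      obtain ⟨α, hα, hαk⟩ := hleaf'
      have rα := hG.rng _ _ hα
      have rβ := hG.rng _ _ hβ
      have hα1 : α ≠ 1 := by rintro rfl; exact hG.irr _ hα
      have hβk : β ≠ k := by rintro rfl; exact hG.irr _ hβ
      apply hnk
      rcases Nat.lt_or_ge β α with h | h
      · exact killedP2 hG h0 (hG.symm _ _ hα) hβ (by omega) h (by omega)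
      · exact killedA hG hirr (hG.symm _ _ hα) hβ (by omega) h (by omega)

end OG23
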