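import Pool.Agent.Lib_MP_23a060_co.Goodness

/-!
Definitions for the problem MP_23a060_co (heredity of ordered Ramsey goodness).
Core combinatorics is done on natural number positions `1, …, k`.
-/

namespace OG23

/-! ### Positions in the natural numbers -/

/-- A red copy of the ordered graph with vertex set `S` and edge relation `E` inside `A`;
`red p q` is only looked at for `p < q`. -/
def CopyIn (S : Finset ℕ) (E : ℕ → ℕ → Prop) (A : Finset ℕ) (red : ℕ → ℕ → Prop) : Prop :=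
  ∃ φ : ℕ → ℕ, (∀ i ∈ S, φ i ∈ A) ∧ (∀ i ∈ S, ∀ j ∈ S, i < j → φ i < φ j) ∧
    (∀ i ∈ S, ∀ j ∈ S, i < j → E i j → red (φ i) (φ j))

/-- A blue clique of size `n` inside `A`. -/
def BlueIn (n : ℕ) (A : Finset ℕ) (red : ℕ → ℕ → Prop) : Prop :=
  ∃ B : Finset ℕ, B ⊆ A ∧ B.card = n ∧ ∀ p ∈ B, ∀ q ∈ B, p < q → ¬ red p q

/-- The upper bound `r(S, K_n) ≤ (n-1)(|S|-1)+1`. -/
def Arrow (n : ℕ) (S : Finset ℕ) (E : ℕ → ℕ → Prop) : Prop :=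
  ∀ (A : Finset ℕ) (red : ℕ → ℕ → Prop), (n - 1) * (S.card - 1) + 1 ≤ A.card →
    CopyIn S E A red ∨ BlueIn n A red

/-- The ordered graph `E` on `1, …, k` is not `n`-good. -/
def Bad (n : ℕ) (E : ℕ → ℕ → Prop) (k : ℕ) : Prop :=
  ∃ red : ℕ → ℕ → Prop, ¬ CopyIn (Finset.Icc 1 k) E (Finset.Icc 1 ((n - 1) * (k - 1) + 1)) red ∧
    ¬ BlueIn n (Finset.Icc 1 ((n - 1) * (k - 1) + 1)) red

/-- A connected ordered graph on the positions `1, …, k`. -/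
structure OG (G : ℕ → ℕ → Prop) (k : ℕ) : Prop where
  pos : 1 ≤ k
  symm : ∀ i j, G i j → G j i
  rng : ∀ i j, G i j → 1 ≤ i ∧ i ≤ k
  irr : ∀ i, ¬ G i i
  conn : ∀ U : ℕ → Prop, (∃ i, 1 ≤ i ∧ i ≤ k ∧ U i) → (∃ j, 1 ≤ j ∧ j ≤ k ∧ ¬ U j) →
    ∃ i j, G i j ∧ U i ∧ ¬ U j

/-- An embedding of `G` (positions `1, …, k`) into `1, …, N` with all edges red. -/
structure Emb (G : ℕ → ℕ → Prop) (k : ℕ) (red : ℕ → ℕ → Prop) (N : ℕ) (φ : ℕ → ℕ) : Prop where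
  mono : ∀ i j, 1 ≤ i → i < j → j ≤ k → φ i < φ j
  pos : ∀ i, 1 ≤ i → i ≤ k → 1 ≤ φ i
  le : ∀ i, 1 ≤ i → i ≤ k → φ i ≤ N
  edge : ∀ i j, i < j → G i j → red (φ i) (φ j)

/-- adjacency of classes in the red pentagon `0 - 1 - 2 - 3 - 4 - 0`, with loops -/
def redC (c d : ℕ) : Prop := c = d ∨ c = d + 1 ∨ d = c + 1 ∨ (c = 0 ∧ d = 4) ∨ (c = 4 ∧ d = 0)

/-- `G` is killed by a word: positions `1, …, 2k-1` get classes in the pentagon such that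
there is no red copy of `G`. -/
def Killed (G : ℕ → ℕ → Prop) (k : ℕ) : Prop :=
  ∃ cls : ℕ → ℕ, (∀ p, cls p < 5) ∧
    ∀ φ : ℕ → ℕ, ¬ Emb G k (fun p q => redC (cls p) (cls q)) (2 * k - 1) φ

/-- No position strictly inside is a cut position. -/
def Irred (G : ℕ → ℕ → Prop) (k : ℕ) : Prop :=
  ∀ v, 1 < v → v < k → ∃ i j, G i j ∧ i < v ∧ v < j

/-- The shape of the irreducible 3-good graphs. -/
def DShape (G : ℕ → ℕ → Prop) (k : ℕ) : Prop :=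
  ∃ x, 1 ≤ x ∧ x < k ∧ ∀ i j, G i j → i < j → (j = x + 1 ∧ i ≤ x) ∨ (i = x ∧ x + 1 ≤ j)

/-- The mirror image. -/
def mir (G : ℕ → ℕ → Prop) (k : ℕ) : ℕ → ℕ → Prop := fun i j => G (k + 1 - i) (k + 1 - j)

/-- The window `s, …, e` moved to `1, …, e - s + 1`. -/
def win (G : ℕ → ℕ → Prop) (s e : ℕ) : ℕ → ℕ → Prop := fun i j =>
  1 ≤ i ∧ i ≤ e - s + 1 ∧ 1 ≤ j ∧ j ≤ e - s + 1 ∧ G (i + s - 1) (j + s - 1)

/-- `b` is reachable from `a` by steps whose endpoints satisfy `P`. -/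
def Reach (P : ℕ → Prop) (G : ℕ → ℕ → Prop) (a b : ℕ) : Prop :=
  ∀ U : ℕ → Prop, U a → (∀ i j, U i → G i j → P j → U j) → U b

/-- Connectedness of `(S, E)` in cut form. -/
def ConnS (S : Finset ℕ) (E : ℕ → ℕ → Prop) : Prop :=
  ∀ U : ℕ → Prop, (∃ i ∈ S, U i) → (∃ j ∈ S, ¬ U j) → ∃ i ∈ S, ∃ j ∈ S, E i j ∧ U i ∧ ¬ U j

end OG23
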