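import Pool.Agent.Lib_MP_23a060_co.Defs

/-!
MP_23a060_co, part 1: conversion between ordered graphs on `Fin k` and on the positions `1, …, k`,
and the lower bound for the ordered Ramsey number of a connected graph.
-/

namespace OG23

/-- transfer of a graph on `Fin k` to the positions `1, …, k` -/
def toNat {k : ℕ} (G : SimpleGraph (Fin k)) : ℕ → ℕ → Prop := fun i j =>
  ∃ u v : Fin k, i = u.val + 1 ∧ j = v.val + 1 ∧ G.Adj u v

/-- cut form of connectedness -/
theorem exists_cut_edge {V : Type*} (G : SimpleGraph V) (hG : G.Connected) (U : V → Prop)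
    (a b : V) (ha : U a) (hb : ¬ U b) : ∃ u v, G.Adj u v ∧ U u ∧ ¬ U v := by
  classical
  obtain ⟨w⟩ := hG.preconnected a b
  obtain ⟨d, _, hd1, hd2⟩ := w.exists_boundary_dart {x | U x} ha hb
  exact ⟨d.fst, d.snd, d.adj, hd1, hd2⟩

theorem og_toNat {k : ℕ} (G : SimpleGraph (Fin k)) (hG : G.Connected) : OG (toNat G) k := by
  refine ⟨?_, ?_, ?_, ?_, ?_⟩
  · obtain ⟨x⟩ := hG.nonempty
    have := x.isLt
    omega
  · rintro i j ⟨u, v, hi, hj, h⟩
    exact ⟨v, u, hj, hi, h.symm⟩
  · rintro i j ⟨u, v, hi, hj, h⟩
    have := u.isLt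
    omega
  · rintro i ⟨u, v, hi, hj, h⟩
    have : u = v := Fin.ext (by omega)
    subst this
    exact h.ne rfl
  · rintro U ⟨i, hi1, hik, hi⟩ ⟨j, hj1, hjk, hj⟩
    obtain ⟨u, v, huv, hu, hv⟩ := exists_cut_edge G hG (fun x => U (x.val + 1))
      ⟨i - 1, by omega⟩ ⟨j - 1, by omega⟩ (by simpa [Nat.sub_add_cancel hi1] using hi)
      (by simpa [Nat.sub_add_cancel hj1] using hj)
    exact ⟨u.val + 1, v.val + 1, ⟨u, v, rfl, rfl, huv⟩, hu, hv⟩

theorem not_bad_of_nGood {k n : ℕ} (G : SimpleGraph (Fin k)) (hn : 1 ≤ n) (h : NGood n G) :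
    ¬ Bad n (toNat G) k := by
  classical
  obtain ⟨hconn, hram⟩ := h
  rintro ⟨red, hno, hnb⟩
  set N := (n - 1) * (k - 1) + 1 with hN
  -- N is in the set
  have hmem : N ∈ {N : ℕ | ∀ red : SimpleGraph (Fin N), Contains red G ∨
      Contains redᶜ (⊤ : SimpleGraph (Fin n))} := by
    unfold ramsey at hram
    rw [← hram]
    apply Nat.sInf_mem
    by_contra hne
    rw [Set.not_nonempty_iff_eq_empty] at hne
    rw [hne] at hram
    simp at hram
  let redG : SimpleGraph (Fin N) :=
    { Adj := fun u v => (u < v ∧ red (u.val + 1) (v.val + 1)) ∨ (v < u ∧ red (v.val + 1) (u.val + 1))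
      symm := ⟨by
        rintro u v (h | h)
        · exact Or.inr h
        · exact Or.inl h⟩
      loopless := ⟨by
        rintro u (h | h)
        · exact lt_irrefl _ h.1
        · exact lt_irrefl _ h.1⟩ }
  rcases hmem redG with ⟨f, hf⟩ | ⟨f, hf⟩
  · apply hno
    -- copy
    have hk : ∀ i ∈ Finset.Icc 1 k, i - 1 < k := by
      intro i hi
      rw [Finset.mem_Icc] at hi
      omega
    refine ⟨fun i => if h : i - 1 < k then (f ⟨i - 1, h⟩).val + 1 else 0, ?_, ?_, ?_⟩
    · intro i hi
      simp only [dif_pos (hk i hi)]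
      rw [Finset.mem_Icc]
      have := (f ⟨i - 1, hk i hi⟩).isLt
      omega
    · intro i hi j hj hij
      simp only [dif_pos (hk i hi), dif_pos (hk j hj)]
      have : f ⟨i - 1, hk i hi⟩ < f ⟨j - 1, hk j hj⟩ := by
        rw [f.lt_iff_lt, Fin.lt_def]
        rw [Finset.mem_Icc] at hi hj
        simp only
        omega
      have := Fin.lt_def.mp this
      omega
    · intro i hi j hj hij hE
      simp only [dif_pos (hk i hi), dif_pos (hk j hj)]
      obtain ⟨u, v, hu, hv, huv⟩ := hE
      have e1 : (⟨i - 1, hk i hi⟩ : Fin k) = u := Fin.ext (by simp only; omega)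
      have e2 : (⟨j - 1, hk j hj⟩ : Fin k) = v := Fin.ext (by simp only; omega)
      rw [e1, e2]
      rcases hf u v huv with h | h
      · exact h.2
      · exfalso
        have h1 := h.1
        rw [f.lt_iff_lt, Fin.lt_def] at h1
        omega
  · apply hnb
    refine ⟨Finset.univ.image (fun u : Fin n => (f u).val + 1), ?_, ?_, ?_⟩
    · intro p hp
      rw [Finset.mem_image] at hp
      obtain ⟨u, _, rfl⟩ := hp
      rw [Finset.mem_Icc]
      have := (f u).isLt
      omega
    · rw [Finset.card_image_of_injective]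
      · simp
      · intro u v huv
        simp only at huv
        exact f.injective (Fin.ext (by omega))
    · intro p hp q hq hpq hred
      rw [Finset.mem_image] at hp hq
      obtain ⟨u, _, rfl⟩ := hp
      obtain ⟨v, _, rfl⟩ := hq
      have huv : u ≠ v := by
        rintro rfl
        exact lt_irrefl _ hpq
      have := hf u v (by simpa using huv)
      rw [SimpleGraph.compl_adj] at this
      apply this.2
      left
      exact ⟨by rw [Fin.lt_def]; omega, hred⟩

/-- image positions of `f`, and the edges of `H` on them -/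
def imgS {h k : ℕ} (f : Fin h ↪o Fin k) : Finset ℕ := Finset.univ.image (fun u : Fin h => (f u).val + 1)
def imgE {h k : ℕ} (H : SimpleGraph (Fin h)) (f : Fin h ↪o Fin k) : ℕ → ℕ → Prop := fun i j =>
  ∃ u v : Fin h, i = (f u).val + 1 ∧ j = (f v).val + 1 ∧ H.Adj u v

theorem mem_imgS {h k : ℕ} (f : Fin h ↪o Fin k) (u : Fin h) : (f u).val + 1 ∈ imgS f :=
  Finset.mem_image.mpr ⟨u, Finset.mem_univ _, rfl⟩

theorem card_imgS {h k : ℕ} (f : Fin h ↪o Fin k) : (imgS f).card = h := by
  unfold imgS
  rw [Finset.card_image_of_injective]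
  · simp
  · intro u v huv
    simp only at huv
    exact f.injective (Fin.ext (by omega))

theorem connS_img {h k : ℕ} (H : SimpleGraph (Fin h)) (hH : H.Connected) (f : Fin h ↪o Fin k) :
    (imgS f).Nonempty ∧ ConnS (imgS f) (imgE H f) := by
  constructor
  · obtain ⟨x⟩ := hH.nonempty
    exact ⟨_, mem_imgS f x⟩
  · rintro U ⟨i, hi, hUi⟩ ⟨j, hj, hUj⟩
    unfold imgS at hi hj
    rw [Finset.mem_image] at hi hj
    obtain ⟨a, _, rfl⟩ := hi
    obtain ⟨b, _, rfl⟩ := hj
    obtain ⟨u, v, huv, hu, hv⟩ := exists_cut_edge H hH (fun x => U ((f x).val + 1)) a b hUi hUj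
    exact ⟨_, mem_imgS f u, _, mem_imgS f v, ⟨u, v, rfl, rfl, huv⟩, hu, hv⟩

/-- the number of values in a strictly increasing map is at most the length of the range -/
theorem le_of_strictMono_mem {h m a : ℕ} (g : Fin h → ℕ) (hg : StrictMono g)
    (h1 : ∀ u, a ≤ g u) (h2 : ∀ u, g u < a + m) : h ≤ m := by
  have : (Finset.univ.image g).card = h := by
    rw [Finset.card_image_of_injective _ hg.injective]
    simp
  have hsub : Finset.univ.image g ⊆ Finset.Ico a (a + m) := by
    intro x hx
    rw [Finset.mem_image] at hx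
    obtain ⟨u, _, rfl⟩ := hx
    rw [Finset.mem_Ico]
    exact ⟨h1 u, h2 u⟩
  have := Finset.card_le_card hsub
  rw [Nat.card_Ico] at this
  omega

/-- lower bound for the ordered Ramsey number of a connected graph -/
theorem ramsey_lower {h n M : ℕ} (hn : 1 ≤ n) (H : SimpleGraph (Fin h)) (hH : H.Connected)
    (hM : ∀ red : SimpleGraph (Fin M), Contains red H ∨ Contains redᶜ (⊤ : SimpleGraph (Fin n))) :
    (n - 1) * (h - 1) + 1 ≤ M := by
  classical
  by_contra hlt
  have hMle : M ≤ (n - 1) * (h - 1) := by omega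
  have hh : 1 ≤ h := by
    obtain ⟨x⟩ := hH.nonempty
    have := x.isLt
    omega
  let redG : SimpleGraph (Fin M) :=
    { Adj := fun u v => u ≠ v ∧ u.val / (h - 1) = v.val / (h - 1)
      symm := ⟨fun u v h => ⟨h.1.symm, h.2.symm⟩⟩
      loopless := ⟨fun u h => h.1 rfl⟩ }
  rcases hM redG with ⟨f, hf⟩ | ⟨f, hf⟩
  · -- red copy
    have hM1 : 1 ≤ M := by
      have := (f ⟨0, hh⟩).isLt
      omega
    have hh2 : 1 ≤ h - 1 := by
      rcases Nat.eq_zero_or_pos (h - 1) with h0 | h0
      · rw [h0, Nat.mul_zero] at hMle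
        omega
      · exact h0
    -- all in the same interval
    have hall : ∀ u : Fin h, (f u).val / (h - 1) = (f ⟨0, hh⟩).val / (h - 1) := by
      by_contra hne
      push Not at hne
      obtain ⟨b, hb⟩ := hne
      obtain ⟨u, v, huv, hu, hv⟩ := exists_cut_edge H hH
        (fun x => (f x).val / (h - 1) = (f ⟨0, hh⟩).val / (h - 1)) ⟨0, hh⟩ b rfl hb
      have := (hf u v huv).2
      exact hv (by rw [← this]; exact hu)
    have := le_of_strictMono_mem (a := (f ⟨0, hh⟩).val / (h - 1) * (h - 1)) (m := h - 1)
      (fun u : Fin h => (f u).val) (fun u v huv => by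
        have : f u < f v := f.lt_iff_lt.mpr huv
        exact Fin.lt_def.mp this) (fun u => by
          rw [← hall u]
          exact Nat.div_mul_le_self _ _) (fun u => by
          rw [← hall u]
          have := Nat.lt_div_mul_add (a := (f u).val) (b := h - 1) (by omega)
          exact this)
    omega
  · -- blue clique
    have hinj : Function.Injective (fun u : Fin n => (f u).val / (h - 1)) := by
      intro u v huv
      by_contra hne
      have := hf u v (by simpa using hne)
      rw [SimpleGraph.compl_adj] at this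
      exact this.2 ⟨this.1, huv⟩
    have hcard := Finset.card_image_of_injective (Finset.univ : Finset (Fin n)) hinj
    have hsub : Finset.univ.image (fun u : Fin n => (f u).val / (h - 1)) ⊆ Finset.range (n - 1) := by
      intro x hx
      rw [Finset.mem_image] at hx
      obtain ⟨u, _, rfl⟩ := hx
      rw [Finset.mem_range]
      apply Nat.div_lt_of_lt_mul
      have := (f u).isLt
      rw [Nat.mul_comm]
      omega
    have := Finset.card_le_card hsub
    rw [hcard] at this
    simp at this
    omega

theorem nGood_of_arrow {h k n : ℕ} (hn : 1 ≤ n) (H : SimpleGraph (Fin h)) (hH : H.Connected)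
    (f : Fin h ↪o Fin k) (harr : Arrow n (imgS f) (imgE H f)) : NGood n H := by
  classical
  refine ⟨hH, ?_⟩
  have hh : 1 ≤ h := by
    obtain ⟨x⟩ := hH.nonempty
    have := x.isLt
    omega
  set N := (n - 1) * (h - 1) + 1 with hN
  have hmem : N ∈ {N : ℕ | ∀ red : SimpleGraph (Fin N), Contains red H ∨
      Contains redᶜ (⊤ : SimpleGraph (Fin n))} := by
    intro red
    have h1 := harr (Finset.Icc 1 N) (fun p q => ∃ u v : Fin N, p = u.val + 1 ∧ q = v.val + 1 ∧
      red.Adj u v) (by rw [card_imgS]; simp [hN])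
    rcases h1 with ⟨φ, hφA, hφm, hφe⟩ | ⟨B, hBA, hBc, hBb⟩
    · left
      have hA : ∀ u : Fin h, 1 ≤ φ ((f u).val + 1) ∧ φ ((f u).val + 1) ≤ N := by
        intro u
        have := hφA _ (mem_imgS f u)
        rw [Finset.mem_Icc] at this
        exact this
      have hlt : ∀ u : Fin h, φ ((f u).val + 1) - 1 < N := by
        intro u
        have := hA u
        omega
      have hmono : StrictMono (fun u : Fin h => (⟨φ ((f u).val + 1) - 1, hlt u⟩ : Fin N)) := by
        intro u v huv
        rw [Fin.lt_def]
        simp only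
        have h2 : (f u).val + 1 < (f v).val + 1 := by
          have : f u < f v := f.lt_iff_lt.mpr huv
          have := Fin.lt_def.mp this
          omega
        have h3 := hφm _ (mem_imgS f u) _ (mem_imgS f v) h2
        have := hA u
        have := hA v
        omega
      refine ⟨OrderEmbedding.ofStrictMono _ hmono, ?_⟩
      have key : ∀ u v : Fin h, u < v → H.Adj u v →
          red.Adj (⟨φ ((f u).val + 1) - 1, hlt u⟩ : Fin N) ⟨φ ((f v).val + 1) - 1, hlt v⟩ := by
        intro u v huv hadj
        have h2 : (f u).val + 1 < (f v).val + 1 := by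
          have : f u < f v := f.lt_iff_lt.mpr huv
          have := Fin.lt_def.mp this
          omega
        obtain ⟨a, b, ha, hb, hab⟩ := hφe _ (mem_imgS f u) _ (mem_imgS f v) h2
          ⟨u, v, rfl, rfl, hadj⟩
        have e1 : (⟨φ ((f u).val + 1) - 1, hlt u⟩ : Fin N) = a := Fin.ext (by simp only; omega)
        have e2 : (⟨φ ((f v).val + 1) - 1, hlt v⟩ : Fin N) = b := Fin.ext (by simp only; omega)
        rw [e1, e2]
        exact hab
      intro i j hij
      simp only [OrderEmbedding.coe_ofStrictMono]
      rcases lt_trichotomy i j with hlt' | heq | hgt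
      · exact key i j hlt' hij
      · exact absurd heq hij.ne
      · exact (key j i hgt hij.symm).symm
    · right
      -- blue clique
      let e := B.orderEmbOfFin hBc
      have hB1 : ∀ u : Fin n, 1 ≤ e u ∧ e u ≤ N := by
        intro u
        have h2 : e u ∈ B := B.orderEmbOfFin_mem hBc u
        have := hBA h2
        rw [Finset.mem_Icc] at this
        exact this
      have hlt : ∀ u : Fin n, e u - 1 < N := by
        intro u
        have := hB1 u
        omega
      have hmono : StrictMono (fun u : Fin n => (⟨e u - 1, hlt u⟩ : Fin N)) := by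
        intro u v huv
        rw [Fin.lt_def]
        simp only
        have h3 : e u < e v := e.lt_iff_lt.mpr huv
        have := hB1 u
        have := hB1 v
        omega
      refine ⟨OrderEmbedding.ofStrictMono _ hmono, ?_⟩
      have key : ∀ u v : Fin n, u < v →
          ¬ red.Adj (⟨e u - 1, hlt u⟩ : Fin N) ⟨e v - 1, hlt v⟩ := by
        intro u v huv hadj
        have h3 : e u < e v := e.lt_iff_lt.mpr huv
        have := hB1 u
        have := hB1 v
        apply hBb (e u) (B.orderEmbOfFin_mem hBc u) (e v) (B.orderEmbOfFin_mem hBc v) h3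
        exact ⟨⟨e u - 1, hlt u⟩, ⟨e v - 1, hlt v⟩, by simp only; omega, by simp only; omega, hadj⟩
      intro i j hij
      simp only [OrderEmbedding.coe_ofStrictMono]
      rw [SimpleGraph.compl_adj]
      have hne : i ≠ j := by simpa using hij
      refine ⟨?_, ?_⟩
      · intro h4
        exact hne (hmono.injective h4)
      · rcases lt_trichotomy i j with hlt' | heq | hgt
        · exact key i j hlt'
        · exact absurd heq hne
        · intro h5
          exact key j i hgt h5.symm
  unfold ramsey
  apply le_antisymm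
  · exact Nat.sInf_le hmem
  · exact le_csInf ⟨N, hmem⟩ (fun M hM => ramsey_lower hn H hH hM)

end OG23
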