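import Pool.Agent.Lib_MP_23a060_co.Defs

set_option autoImplicit false

namespace OG23

namespace FourBad

/-- the block (numbered `1, …, 10`) of a position -/
def bl (m c p : ℕ) : ℕ :=
  if p ≤ m then 1 else if p ≤ 2 * m then 2 else if p ≤ 2 * m + 1 then 3
  else if p ≤ 2 * m + 2 then 4 else if p ≤ 3 * m + 2 then 5 else if p ≤ 3 * m + c + 2 then 6
  else if p ≤ 3 * m + c + 3 then 7 else if p ≤ 3 * m + 2 * c + 3 then 8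
  else if p ≤ 3 * m + 2 * c + 4 then 9 else 10

/-- the red pairs of blocks -/
def R (i j : ℕ) : Prop :=
  i = j ∨ (i = 1 ∧ j = 3) ∨ (i = 2 ∧ j = 4) ∨ (i = 4 ∧ j = 5) ∨ (i = 2 ∧ j = 6) ∨ (i = 4 ∧ j = 6) ∨
  (i = 1 ∧ j = 7) ∨ (i = 2 ∧ j = 7) ∨ (i = 6 ∧ j = 7) ∨ (i = 5 ∧ j = 8) ∨ (i = 7 ∧ j = 8) ∨
  (i = 3 ∧ j = 9) ∨ (i = 5 ∧ j = 9) ∨ (i = 8 ∧ j = 9) ∨ (i = 1 ∧ j = 10) ∨ (i = 3 ∧ j = 10) ∨
  (i = 9 ∧ j = 10)

instance (i j : ℕ) : Decidable (R i j) := by unfold R; infer_instance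

theorem bl_spec (m c p : ℕ) (h1 : 1 ≤ p) (h2 : p ≤ 3 * m + 3 * c + 4) :
    (bl m c p = 1 ∧ p ≤ m) ∨ (bl m c p = 2 ∧ m < p ∧ p ≤ 2 * m) ∨
    (bl m c p = 3 ∧ p = 2 * m + 1) ∨ (bl m c p = 4 ∧ p = 2 * m + 2) ∨
    (bl m c p = 5 ∧ 2 * m + 2 < p ∧ p ≤ 3 * m + 2) ∨
    (bl m c p = 6 ∧ 3 * m + 2 < p ∧ p ≤ 3 * m + c + 2) ∨
    (bl m c p = 7 ∧ p = 3 * m + c + 3) ∨
    (bl m c p = 8 ∧ 3 * m + c + 3 < p ∧ p ≤ 3 * m + 2 * c + 3) ∨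
    (bl m c p = 9 ∧ p = 3 * m + 2 * c + 4) ∨
    (bl m c p = 10 ∧ 3 * m + 2 * c + 4 < p ∧ p ≤ 3 * m + 3 * c + 4) := by
  unfold bl
  split_ifs <;> omega

theorem bl_mono (m c : ℕ) {p q : ℕ} (h : p ≤ q) : bl m c p ≤ bl m c q := by
  unfold bl
  split_ifs <;> omega

theorem bl_pos (m c p : ℕ) : 1 ≤ bl m c p := by
  unfold bl
  split_ifs <;> omega

theorem bl_le (m c p : ℕ) : bl m c p < 11 := by
  unfold bl
  split_ifs <;> omega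

theorem noK4_fin : ∀ a b c d : Fin 11, 1 ≤ a.val → a.val ≤ b.val → b.val ≤ c.val → c.val ≤ d.val →
    (R a.val b.val ∨ R a.val c.val ∨ R a.val d.val ∨ R b.val c.val ∨ R b.val d.val ∨
      R c.val d.val) := by
  decide +kernel

theorem noK4 (a : ℕ) (ha : a < 11) (b : ℕ) (hb : b < 11) (c : ℕ) (hc : c < 11) (d : ℕ)
    (hd : d < 11) (h1 : 1 ≤ a) (h2 : a ≤ b) (h3 : b ≤ c) (h4 : c ≤ d) :
    (R a b ∨ R a c ∨ R a d ∨ R b c ∨ R b d ∨ R c d) :=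
  noK4_fin ⟨a, ha⟩ ⟨b, hb⟩ ⟨c, hc⟩ ⟨d, hd⟩ h1 h2 h3 h4

theorem noCopy (m c a b e f g : ℕ) (hm : 1 ≤ m) (hc : 1 ≤ c) (ha : 1 ≤ a) (hab : a + m ≤ b)
    (hbe : b < e) (hef : e < f) (hfg : f + c ≤ g + 1) (hg : g ≤ 3 * m + 3 * c + 4)
    (r1 : R (bl m c a) (bl m c e)) (r2 : R (bl m c b) (bl m c e))
    (r3 : R (bl m c b) (bl m c f)) (r4 : R (bl m c b) (bl m c g)) : False := by
  unfold R at r1 r2 r3 r4
  have Ha := bl_spec m c a (by omega) (by omega)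
  have Hb := bl_spec m c b (by omega) (by omega)
  have He := bl_spec m c e (by omega) (by omega)
  have Hf := bl_spec m c f (by omega) (by omega)
  have Hg := bl_spec m c g (by omega) (by omega)
  generalize bl m c a = A at *
  generalize bl m c b = B at *
  generalize bl m c e = E at *
  generalize bl m c f = F at *
  generalize bl m c g = G at *
  rcases Hb with ⟨rfl, Hb⟩ | ⟨rfl, Hb⟩ | ⟨rfl, Hb⟩ | ⟨rfl, Hb⟩ | ⟨rfl, Hb⟩ | ⟨rfl, Hb⟩ |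
    ⟨rfl, Hb⟩ | ⟨rfl, Hb⟩ | ⟨rfl, Hb⟩ | ⟨rfl, Hb⟩ <;>
  rcases He with ⟨rfl, He⟩ | ⟨rfl, He⟩ | ⟨rfl, He⟩ | ⟨rfl, He⟩ | ⟨rfl, He⟩ | ⟨rfl, He⟩ |
    ⟨rfl, He⟩ | ⟨rfl, He⟩ | ⟨rfl, He⟩ | ⟨rfl, He⟩ <;>
  first
  | (exfalso; revert r2; decide)
  | (exfalso; clear r1 r2 r3 r4 Ha Hf Hg; omega)
  | (rcases Ha with ⟨rfl, Ha⟩ | ⟨rfl, Ha⟩ | ⟨rfl, Ha⟩ | ⟨rfl, Ha⟩ | ⟨rfl, Ha⟩ | ⟨rfl, Ha⟩ |
      ⟨rfl, Ha⟩ | ⟨rfl, Ha⟩ | ⟨rfl, Ha⟩ | ⟨rfl, Ha⟩ <;>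
    first
    | (exfalso; revert r1; decide)
    | (exfalso; clear r1 r2 r3 r4 Hf Hg; omega)
    | (rcases Hf with ⟨rfl, Hf⟩ | ⟨rfl, Hf⟩ | ⟨rfl, Hf⟩ | ⟨rfl, Hf⟩ | ⟨rfl, Hf⟩ | ⟨rfl, Hf⟩ |
        ⟨rfl, Hf⟩ | ⟨rfl, Hf⟩ | ⟨rfl, Hf⟩ | ⟨rfl, Hf⟩ <;>
      first
      | (exfalso; revert r3; decide)
      | (exfalso; clear r1 r2 r3 r4 Hg; omega)
      | (rcases Hg with ⟨rfl, Hg⟩ | ⟨rfl, Hg⟩ | ⟨rfl, Hg⟩ | ⟨rfl, Hg⟩ | ⟨rfl, Hg⟩ | ⟨rfl, Hg⟩ |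
          ⟨rfl, Hg⟩ | ⟨rfl, Hg⟩ | ⟨rfl, Hg⟩ | ⟨rfl, Hg⟩ <;>
        first
        | (exfalso; revert r4; decide)
        | (exfalso; clear r1 r2 r3 r4; omega))))

theorem gap {k : ℕ} {φ : ℕ → ℕ} (h : ∀ i j, 1 ≤ i → i < j → j ≤ k → φ i < φ j) (i : ℕ)
    (hi : 1 ≤ i) : ∀ t, i + t ≤ k → φ i + t ≤ φ (i + t) := by
  intro t
  induction t with
  | zero => intro _; simp
  | succ t ih =>
    intro ht
    have h1 := ih (by omega)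
    have h2 := h (i + t) (i + (t + 1)) (by omega) (by omega) ht
    omega

end FourBad

open FourBad in
/-- double star with both sides nonempty is not 4-good; only four of its edges are used -/
theorem fourBad {G : ℕ → ℕ → Prop} {k x : ℕ} (hx : 1 < x) (hxk : x + 1 < k)
    (h1 : G 1 (x + 1)) (h2 : G x (x + 1)) (h3 : G x (x + 2)) (h4 : G x k) : Bad 4 G k := by
  obtain ⟨m, hm⟩ : ∃ m, x = m + 1 := ⟨x - 1, by omega⟩
  obtain ⟨c, hc⟩ : ∃ c, k = m + c + 2 := ⟨k - x - 1, by omega⟩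
  subst hm
  subst hc
  have hN : (4 - 1) * (m + c + 2 - 1) + 1 = 3 * m + 3 * c + 4 := by omega
  refine ⟨fun p q => R (bl m c p) (bl m c q), ?_, ?_⟩
  · rw [hN]
    rintro ⟨φ, hA, hmono, hE⟩
    have hmono' : ∀ i j, 1 ≤ i → i < j → j ≤ m + c + 2 → φ i < φ j := by
      intro i j hi hij hj
      exact hmono i (Finset.mem_Icc.2 ⟨hi, by omega⟩) j (Finset.mem_Icc.2 ⟨by omega, hj⟩) hij
    have hE' : ∀ i j, 1 ≤ i → i < j → j ≤ m + c + 2 → G i j → R (bl m c (φ i)) (bl m c (φ j)) := by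
      intro i j hi hij hj hG
      exact hE i (Finset.mem_Icc.2 ⟨hi, by omega⟩) j (Finset.mem_Icc.2 ⟨by omega, hj⟩) hij hG
    have hA' : ∀ i, 1 ≤ i → i ≤ m + c + 2 → 1 ≤ φ i ∧ φ i ≤ 3 * m + 3 * c + 4 := by
      intro i hi hi'
      exact Finset.mem_Icc.1 (hA i (Finset.mem_Icc.2 ⟨hi, hi'⟩))
    have g1 := gap hmono' 1 le_rfl m (by omega)
    have g2 := gap hmono' (m + 1 + 2) (by omega) (c - 1) (by omega)
    have e1 : m + 1 + 2 + (c - 1) = m + c + 2 := by omega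
    rw [e1] at g2
    rw [add_comm 1 m] at g1
    refine noCopy m c (φ 1) (φ (m + 1)) (φ (m + 1 + 1)) (φ (m + 1 + 2)) (φ (m + c + 2))
      (by omega) (by omega) (hA' 1 (by omega) (by omega)).1 g1
      (hmono' _ _ (by omega) (by omega) (by omega)) (hmono' _ _ (by omega) (by omega) (by omega))
      (by omega) (hA' _ (by omega) (by omega)).2
      (hE' _ _ (by omega) (by omega) (by omega) h1) (hE' _ _ (by omega) (by omega) (by omega) h2)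
      (hE' _ _ (by omega) (by omega) (by omega) h3) (hE' _ _ (by omega) (by omega) (by omega) h4)
  · rw [hN]
    rintro ⟨B, hBA, hB4, hB⟩
    have hlt : ∀ i j : Fin 4, i < j → B.orderEmbOfFin hB4 i < B.orderEmbOfFin hB4 j :=
      fun i j h => (B.orderEmbOfFin hB4).strictMono h
    have hmem : ∀ i : Fin 4, B.orderEmbOfFin hB4 i ∈ B := fun i => B.orderEmbOfFin_mem hB4 i
    have hnot : ∀ i j : Fin 4, i < j →
        ¬ R (bl m c (B.orderEmbOfFin hB4 i)) (bl m c (B.orderEmbOfFin hB4 j)) :=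
      fun i j h => hB _ (hmem i) _ (hmem j) (hlt i j h)
    have hb : ∀ i j : Fin 4, i < j →
        bl m c (B.orderEmbOfFin hB4 i) ≤ bl m c (B.orderEmbOfFin hB4 j) :=
      fun i j h => bl_mono m c (hlt i j h).le
    have key := noK4 _ (bl_le m c (B.orderEmbOfFin hB4 0)) _ (bl_le m c (B.orderEmbOfFin hB4 1))
      _ (bl_le m c (B.orderEmbOfFin hB4 2)) _ (bl_le m c (B.orderEmbOfFin hB4 3))
      (bl_pos _ _ _) (hb 0 1 (by decide)) (hb 1 2 (by decide)) (hb 2 3 (by decide))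
    rcases key with h | h | h | h | h | h
    · exact hnot 0 1 (by decide) h
    · exact hnot 0 2 (by decide) h
    · exact hnot 0 3 (by decide) h
    · exact hnot 1 2 (by decide) h
    · exact hnot 1 3 (by decide) h
    · exact hnot 2 3 (by decide) h

end OG23
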