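import Mathlib

/-!
Ordered Ramsey goodness: the definitions used in the statement of the problem MP_23a060_co.
An ordered graph on `k` vertices is a simple graph on `Fin k` with the natural order.
-/

namespace OG23

/-- `Contains C G`: the ordered graph `C` on `N` ordered vertices contains `G` as an ordered
subgraph (injective order preserving map sending edges to edges). -/
def Contains {N k : ℕ} (C : SimpleGraph (Fin N)) (G : SimpleGraph (Fin k)) : Prop :=
  ∃ f : Fin k ↪o Fin N, ∀ i j, G.Adj i j → C.Adj (f i) (f j)

/-- The ordered Ramsey number of `G` and `H` : the least `N` such that every colouring of the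
edges of the complete ordered graph on `N` vertices (the red edges form the graph `red`, the
blue edges form its complement) contains a red copy of `G` or a blue copy of `H`. -/
noncomputable def ramsey {k h : ℕ} (G : SimpleGraph (Fin k)) (H : SimpleGraph (Fin h)) : ℕ :=
  sInf {N : ℕ | ∀ red : SimpleGraph (Fin N), Contains red G ∨ Contains redᶜ H}

/-- `G` is connected and `n`-good. -/
def NGood {k : ℕ} (n : ℕ) (G : SimpleGraph (Fin k)) : Prop :=
  G.Connected ∧ ramsey G (⊤ : SimpleGraph (Fin n)) = (n - 1) * (k - 1) + 1

end OG23
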