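import Pool.Agent.Lib_MP_23a060_co.Defs

/-!
MP_23a060_co, part 2: windows between two cut positions, and passing from `n` to `n + 1`.
-/

namespace OG23

/-- strictly increasing functions on an interval grow at least linearly -/
theorem mono_grow {φ : ℕ → ℕ} {a b : ℕ} (hab : a ≤ b)
    (hm : ∀ i j, a ≤ i → i < j → j ≤ b → φ i < φ j) : φ a + (b - a) ≤ φ b := by
  induction b with
  | zero =>
    have : a = 0 := by omega
    subst this
    simp
  | succ b ih =>
    rcases Nat.lt_or_ge b a with h | h
    · have : a = b + 1 := by omega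
      subst this
      simp
    · have h1 := ih h (fun i j hi hij hj => hm i j hi hij (by omega))
      have h2 := hm b (b + 1) h (by omega) (le_refl _)
      omega

theorem og_win {G : ℕ → ℕ → Prop} {k s e : ℕ} (hG : OG G k) (hs : 1 ≤ s) (hse : s ≤ e) (hek : e ≤ k)
    (hcs : ∀ i j, G i j → i < s → ¬ s < j) (hce : ∀ i j, G i j → i < e → ¬ e < j) :
    OG (win G s e) (e - s + 1) := by
  refine ⟨by omega, ?_, ?_, ?_, ?_⟩
  · rintro i j ⟨h1, h2, h3, h4, h5⟩
    exact ⟨h3, h4, h1, h2, hG.symm _ _ h5⟩
  · rintro i j ⟨h1, h2, h3, h4, h5⟩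
    exact ⟨h1, h2⟩
  · rintro i ⟨h1, h2, h3, h4, h5⟩
    exact hG.irr _ h5
  · rintro U ⟨i0, hi1, hi2, hi3⟩ ⟨j0, hj1, hj2, hj3⟩
    obtain ⟨i, j, hij, hUi, hUj⟩ := hG.conn (fun p => U (min (max p s) e - s + 1))
      ⟨i0 + s - 1, by omega, by omega, by
        have : min (max (i0 + s - 1) s) e - s + 1 = i0 := by omega
        simpa only [this] using hi3⟩
      ⟨j0 + s - 1, by omega, by omega, by
        have : min (max (j0 + s - 1) s) e - s + 1 = j0 := by omega
        simpa only [this] using hj3⟩
    have hji := hG.symm _ _ hij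
    have hne : min (max i s) e - s + 1 ≠ min (max j s) e - s + 1 := by
      intro h
      simp only [h] at hUi
      exact hUj hUi
    have c1 := hcs i j hij
    have c2 := hcs j i hji
    have c3 := hce i j hij
    have c4 := hce j i hji
    have b1 : s ≤ i := by
      by_contra h
      have := c1 (by omega)
      omega
    have b2 : s ≤ j := by
      by_contra h
      have := c2 (by omega)
      omega
    have b3 : i ≤ e := by
      by_contra h
      have : ¬ j < e := fun h' => c4 h' (by omega)
      omega
    have b4 : j ≤ e := by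
      by_contra h
      have : ¬ i < e := fun h' => c3 h' (by omega)
      omega
    have e1 : min (max i s) e - s + 1 = i - s + 1 := by omega
    have e2 : min (max j s) e - s + 1 = j - s + 1 := by omega
    simp only [e1] at hUi
    simp only [e2] at hUj
    refine ⟨i - s + 1, j - s + 1, ⟨by omega, by omega, by omega, by omega, ?_⟩, hUi, hUj⟩
    have e3 : i - s + 1 + s - 1 = i := by omega
    have e4 : j - s + 1 + s - 1 = j := by omega
    rw [e3, e4]
    exact hij

/-- A connected window of `d + 1` positions cannot be mapped increasingly into one colour class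
structure consisting of intervals of length `d`. -/
theorem no_copy_blocks {G : ℕ → ℕ → Prop} {d : ℕ} (hG : OG G (d + 1)) (ψ : ℕ → ℕ)
    (hm : ∀ i j, 1 ≤ i → i < j → j ≤ d + 1 → ψ i < ψ j)
    (he : ∀ i j, i < j → G i j → ψ i / d = ψ j / d) (hd : 1 ≤ d) : False := by
  have hall : ∀ j, 1 ≤ j → j ≤ d + 1 → ψ j / d = ψ 1 / d := by
    by_contra hcon
    push Not at hcon
    obtain ⟨j, hj1, hj2, hj3⟩ := hcon
    obtain ⟨i, j', hij, hU, hU'⟩ := hG.conn (fun p => ψ p / d = ψ 1 / d) ⟨1, le_refl _, by omega, rfl⟩
      ⟨j, hj1, hj2, hj3⟩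
    rcases lt_trichotomy i j' with h | h | h
    · have := he i j' h hij
      exact hU' (by rw [← this]; exact hU)
    · subst h
      exact hU' hU
    · have := he j' i h (hG.symm _ _ hij)
      exact hU' (by rw [this]; exact hU)
  have h1 := hall (d + 1) (by omega) le_rfl
  have h2 := mono_grow (φ := ψ) (a := 1) (b := d + 1) (by omega) hm
  have h3 : (ψ 1 + d) / d ≤ ψ (d + 1) / d := Nat.div_le_div_right (by omega)
  rw [Nat.add_div_right _ (by omega)] at h3
  omega

/-- A set of naturals below `m * d` whose elements have distinct quotients by `d` has at most `m`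
elements. -/
theorem card_blocks {B : Finset ℕ} {m d : ℕ} (hB : ∀ p ∈ B, p < m * d)
    (hd : ∀ p ∈ B, ∀ q ∈ B, p < q → p / d ≠ q / d) : B.card ≤ m := by
  have hinj : Set.InjOn (fun p => p / d) (B : Set ℕ) := by
    intro p hp q hq hpq
    rcases lt_trichotomy p q with h | h | h
    · exact absurd hpq (hd p hp q hq h)
    · exact h
    · exact absurd hpq.symm (hd q hq p hp h)
  have hsub : B.image (fun p => p / d) ⊆ Finset.range m := by
    intro x hx
    obtain ⟨p, hp, rfl⟩ := Finset.mem_image.mp hx
    exact Finset.mem_range.mpr (Nat.div_lt_of_lt_mul (by rw [Nat.mul_comm]; exact hB p hp))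
  calc B.card = (B.image (fun p => p / d)).card := (Finset.card_image_of_injOn hinj).symm
    _ ≤ (Finset.range m).card := Finset.card_le_card hsub
    _ = m := Finset.card_range m

theorem bad_window {G : ℕ → ℕ → Prop} {k n s e : ℕ} (hG : OG G k) (hn : 1 ≤ n) (hs : 1 ≤ s)
    (hse : s ≤ e) (hek : e ≤ k)
    (hcs : ∀ i j, G i j → i < s → ¬ s < j) (hce : ∀ i j, G i j → i < e → ¬ e < j)
    (hb : Bad n (win G s e) (e - s + 1)) : Bad n G k := by
  classical
  obtain ⟨red, hcopy, hblue⟩ := hb
  obtain ⟨a, ha⟩ : ∃ a, a = (n - 1) * (s - 1) := ⟨_, rfl⟩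
  obtain ⟨c, hc⟩ : ∃ c, c = (n - 1) * (k - e) := ⟨_, rfl⟩
  obtain ⟨w, hw⟩ : ∃ w, w = (n - 1) * (e - s + 1 - 1) + 1 := ⟨_, rfl⟩
  have hN : (n - 1) * (k - 1) + 1 = a + w + c := by
    have : k - 1 = (s - 1) + (e - s + 1 - 1) + (k - e) := by omega
    rw [this, ha, hc, hw]
    ring
  rw [← hw] at hcopy hblue
  refine ⟨fun p q =>
    if p ≤ a then (if q ≤ a then (p - 1) / (s - 1) = (q - 1) / (s - 1) else True)
    else if p ≤ a + w then (if q ≤ a then True else if q ≤ a + w then red (p - a) (q - a) else True)
    else (if q ≤ a + w then True else (p - a - w - 1) / (k - e) = (q - a - w - 1) / (k - e)),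
    ?_, ?_⟩
  · rintro ⟨φ, hφA, hφm, hφe⟩
    rw [hN] at hφA
    simp only [Finset.mem_Icc] at hφA hφm hφe
    -- first part
    by_cases h1 : φ s ≤ a
    · have hs2 : 1 ≤ s - 1 := by
        by_contra h
        have h0 : s - 1 = 0 := by omega
        rw [h0, Nat.mul_zero] at ha
        have := (hφA s ⟨hs, by omega⟩).1
        omega
      have hog := og_win (s := 1) (e := s) hG le_rfl hs (by omega)
        (fun i j hij hi => by have := (hG.rng i j hij).1; omega) hcs
      have hs3 : s - 1 + 1 = s := by omega
      have hle : ∀ i, 1 ≤ i → i ≤ s → φ i ≤ a := by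
        intro i hi1 hi2
        rcases Nat.lt_or_ge i s with h | h
        · have := hφm i ⟨hi1, by omega⟩ s ⟨hs, by omega⟩ h
          omega
        · have : i = s := by omega
          subst this
          exact h1
      refine no_copy_blocks hog (fun i => φ i - 1) ?_ ?_ hs2
      · intro i j hi hij hj
        have h2 := hφm i ⟨hi, by omega⟩ j ⟨by omega, by omega⟩ hij
        have h3 := (hφA i ⟨hi, by omega⟩).1
        show φ i - 1 < φ j - 1
        omega
      · rintro i j hij ⟨hw1, hw2, hw3, hw4, hw5⟩
        have e3 : i + 1 - 1 = i := by omega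
        have e4 : j + 1 - 1 = j := by omega
        rw [e3, e4] at hw5
        have h2 := hφe i ⟨hw1, by omega⟩ j ⟨hw3, by omega⟩ hij hw5
        rw [if_pos (hle i hw1 (by omega)), if_pos (hle j hw3 (by omega))] at h2
        exact h2
    by_cases h2 : a + w < φ e
    · have hk2 : 1 ≤ k - e := by
        by_contra h
        have h0 : k - e = 0 := by omega
        rw [h0, Nat.mul_zero] at hc
        have := (hφA e ⟨by omega, by omega⟩).2
        omega
      have hog := og_win (s := e) (e := k) hG (by omega) (by omega) le_rfl hce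
        (fun i j hij hi => by have := (hG.rng j i (hG.symm _ _ hij)).2; omega)
      have hgt : ∀ i, e ≤ i → i ≤ k → a + w < φ i := by
        intro i hi1 hi2
        rcases Nat.lt_or_ge e i with h | h
        · have := hφm e ⟨by omega, by omega⟩ i ⟨by omega, by omega⟩ h
          omega
        · have : i = e := by omega
          subst this
          exact h2
      refine no_copy_blocks hog (fun i => φ (i + e - 1) - a - w - 1) ?_ ?_ hk2
      · intro i j hi hij hj
        have h3 := hφm (i + e - 1) ⟨by omega, by omega⟩ (j + e - 1) ⟨by omega, by omega⟩ (by omega)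
        have h4 := hgt (i + e - 1) (by omega) (by omega)
        show φ (i + e - 1) - a - w - 1 < φ (j + e - 1) - a - w - 1
        omega
      · rintro i j hij ⟨hw1, hw2, hw3, hw4, hw5⟩
        have h3 := hφe (i + e - 1) ⟨by omega, by omega⟩ (j + e - 1) ⟨by omega, by omega⟩ (by omega) hw5
        have h4 := hgt (i + e - 1) (by omega) (by omega)
        have h5 := hgt (j + e - 1) (by omega) (by omega)
        rw [if_neg (by omega), if_neg (by omega), if_neg (by omega)] at h3
        exact h3
    -- middle part
    refine hcopy ⟨fun i => φ (i + s - 1) - a, ?_, ?_, ?_⟩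
    all_goals simp only [Finset.mem_Icc]
    all_goals
      have hgt : ∀ i, s ≤ i → i ≤ e → a < φ i ∧ φ i ≤ a + w := by
        intro i hi1 hi2
        constructor
        · rcases Nat.lt_or_ge s i with h | h
          · have := hφm s ⟨by omega, by omega⟩ i ⟨by omega, by omega⟩ h
            omega
          · have : i = s := by omega
            subst this
            omega
        · rcases Nat.lt_or_ge i e with h | h
          · have := hφm i ⟨by omega, by omega⟩ e ⟨by omega, by omega⟩ h
            omega
          · have : i = e := by omega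
            subst this
            omega
    · rintro i ⟨hi1, hi2⟩
      have := hgt (i + s - 1) (by omega) (by omega)
      omega
    · rintro i ⟨hi1, hi2⟩ j ⟨hj1, hj2⟩ hij
      have h3 := hgt (i + s - 1) (by omega) (by omega)
      have h4 := hφm (i + s - 1) ⟨by omega, by omega⟩ (j + s - 1) ⟨by omega, by omega⟩ (by omega)
      omega
    · rintro i ⟨hi1, hi2⟩ j ⟨hj1, hj2⟩ hij ⟨hw1, hw2, hw3, hw4, hw5⟩
      have h3 := hgt (i + s - 1) (by omega) (by omega)
      have h4 := hgt (j + s - 1) (by omega) (by omega)
      have h5 := hφe (i + s - 1) ⟨by omega, by omega⟩ (j + s - 1) ⟨by omega, by omega⟩ (by omega) hw5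
      rw [if_neg (by omega), if_pos (by omega), if_neg (by omega), if_pos (by omega)] at h5
      exact h5
  · rintro ⟨B, hBA, hBc, hBb⟩
    beta_reduce at hBb
    rw [hN] at hBA
    have hne : B.Nonempty := Finset.card_pos.mp (by omega)
    have hmem : ∀ p ∈ B, 1 ≤ p ∧ p ≤ a + w + c := fun p hp => Finset.mem_Icc.mp (hBA hp)
    -- all elements lie in one part
    have hsame : ∀ p ∈ B, ∀ q ∈ B, (p ≤ a → q ≤ a) ∧ (a + w < p → a + w < q) := by
      intro p hp q hq
      have key : ∀ p ∈ B, ∀ q ∈ B, p < q → (p ≤ a ↔ q ≤ a) ∧ (p ≤ a + w ↔ q ≤ a + w) := by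
        intro p hp q hq hpq
        have h := hBb p hp q hq hpq
        by_cases h1 : p ≤ a
        · by_cases h2 : q ≤ a
          · exact ⟨by omega, by omega⟩
          · rw [if_pos h1, if_neg h2] at h
            exact absurd trivial h
        · by_cases h3 : p ≤ a + w
          · by_cases h4 : q ≤ a + w
            · exact ⟨by omega, by omega⟩
            · rw [if_neg h1, if_pos h3, if_neg (by omega), if_neg h4] at h
              exact absurd trivial h
          · exact ⟨by omega, by omega⟩
      rcases lt_trichotomy p q with h | h | h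
      · have := key p hp q hq h
        omega
      · subst h
        exact ⟨id, id⟩
      · have := key q hq p hp h
        omega
    obtain ⟨b0, hb0⟩ := hne
    by_cases h1 : b0 ≤ a
    · have hle : ∀ p ∈ B, p ≤ a := fun p hp => (hsame b0 hb0 p hp).1 h1
      have hcard := card_blocks (B := B.image (fun p => p - 1)) (m := n - 1) (d := s - 1) (by
        intro x hx
        obtain ⟨p, hp, rfl⟩ := Finset.mem_image.mp hx
        have := hle p hp
        have := (hmem p hp).1
        rw [← ha]
        omega) (by
        intro x hx y hy hxy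
        obtain ⟨p, hp, rfl⟩ := Finset.mem_image.mp hx
        obtain ⟨q, hq, rfl⟩ := Finset.mem_image.mp hy
        have h := hBb p hp q hq (by omega)
        rw [if_pos (hle p hp), if_pos (hle q hq)] at h
        exact h)
      rw [Finset.card_image_of_injOn (by
        intro p hp q hq hpq
        have := (hmem p hp).1
        have := (hmem q hq).1
        simp only at hpq
        omega)] at hcard
      omega
    by_cases h2 : a + w < b0
    · have hgt : ∀ p ∈ B, a + w < p := fun p hp => (hsame b0 hb0 p hp).2 h2
      have hcard := card_blocks (B := B.image (fun p => p - a - w - 1)) (m := n - 1) (d := k - e) (by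
        intro x hx
        obtain ⟨p, hp, rfl⟩ := Finset.mem_image.mp hx
        have := hgt p hp
        have := (hmem p hp).2
        rw [← hc]
        omega) (by
        intro x hx y hy hxy
        obtain ⟨p, hp, rfl⟩ := Finset.mem_image.mp hx
        obtain ⟨q, hq, rfl⟩ := Finset.mem_image.mp hy
        have h3 := hgt p hp
        have h4 := hgt q hq
        have h := hBb p hp q hq (by omega)
        rw [if_neg (by omega), if_neg (by omega), if_neg (by omega)] at h
        exact h)
      rw [Finset.card_image_of_injOn (by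
        intro p hp q hq hpq
        have := hgt p hp
        have := hgt q hq
        simp only at hpq
        omega)] at hcard
      omega
    have hmid : ∀ p ∈ B, a < p ∧ p ≤ a + w := by
      intro p hp
      have h3 := (hsame p hp b0 hb0)
      constructor
      · by_contra h
        exact h1 (h3.1 (by omega))
      · by_contra h
        exact h2 (h3.2 (by omega))
    refine hblue ⟨B.image (fun p => p - a), ?_, ?_, ?_⟩
    · intro x hx
      obtain ⟨p, hp, rfl⟩ := Finset.mem_image.mp hx
      have := hmid p hp
      rw [Finset.mem_Icc]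
      omega
    · rw [Finset.card_image_of_injOn (by
        intro p hp q hq hpq
        have := hmid p hp
        have := hmid q hq
        simp only at hpq
        omega)]
      exact hBc
    · intro x hx y hy hxy
      obtain ⟨p, hp, rfl⟩ := Finset.mem_image.mp hx
      obtain ⟨q, hq, rfl⟩ := Finset.mem_image.mp hy
      have h3 := hmid p hp
      have h4 := hmid q hq
      have h := hBb p hp q hq (by omega)
      rw [if_neg (by omega), if_pos (by omega), if_neg (by omega), if_pos (by omega)] at h
      exact h

theorem bad_succ {G : ℕ → ℕ → Prop} {k n : ℕ} (hG : OG G k) (hn : 1 ≤ n) (hb : Bad n G k) :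
    Bad (n + 1) G k := by
  classical
  obtain ⟨red, hcopy, hblue⟩ := hb
  have hk := hG.pos
  obtain ⟨M, hM⟩ : ∃ M, M = (n - 1) * (k - 1) + 1 := ⟨_, rfl⟩
  have hN : (n + 1 - 1) * (k - 1) + 1 = M + (k - 1) := by
    obtain ⟨n', rfl⟩ : ∃ n', n = n' + 1 := ⟨n - 1, by omega⟩
    rw [hM]
    simp only [Nat.add_sub_cancel]
    ring
  rw [← hM] at hcopy hblue
  refine ⟨fun p q => if q ≤ M then red p q else M < p, ?_, ?_⟩
  · rintro ⟨φ, hφA, hφm, hφe⟩
    rw [hN] at hφA
    simp only [Finset.mem_Icc] at hφA hφm hφe
    by_cases hU : ∃ i, 1 ≤ i ∧ i ≤ k ∧ φ i ≤ M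
    · by_cases hV : ∃ j, 1 ≤ j ∧ j ≤ k ∧ ¬ φ j ≤ M
      · obtain ⟨i, j, hij, hi, hj⟩ := hG.conn (fun p => φ p ≤ M) hU hV
        have r1 := hG.rng i j hij
        have r2 := hG.rng j i (hG.symm _ _ hij)
        have hlt : i < j := by
          rcases lt_trichotomy i j with h | h | h
          · exact h
          · subst h
            exact absurd hi hj
          · have := hφm j r2 i r1 h
            omega
        have h := hφe i r1 j r2 hlt hij
        rw [if_neg hj] at h
        omega
      · push Not at hV
        refine hcopy ⟨φ, ?_, ?_, ?_⟩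
        all_goals simp only [Finset.mem_Icc]
        · rintro i ⟨h1, h2⟩
          exact ⟨(hφA i ⟨h1, h2⟩).1, hV i h1 h2⟩
        · exact hφm
        · rintro i ⟨h1, h2⟩ j ⟨h3, h4⟩ hij hG'
          have h := hφe i ⟨h1, h2⟩ j ⟨h3, h4⟩ hij hG'
          rw [if_pos (hV j h3 h4)] at h
          exact h
    · push Not at hU
      have h1 := mono_grow (φ := φ) (a := 1) (b := k) hk
        (fun i j hi hij hj => hφm i ⟨hi, by omega⟩ j ⟨by omega, hj⟩ hij)
      have h2 := hU 1 le_rfl hk
      have h3 := (hφA k ⟨hk, le_rfl⟩).2
      omega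
  · rintro ⟨B, hBA, hBc, hBb⟩
    beta_reduce at hBb
    rw [hN] at hBA
    have hnew : (B.filter (fun p => ¬ p ≤ M)).card ≤ 1 := by
      rw [Finset.card_le_one]
      intro p hp q hq
      rw [Finset.mem_filter] at hp hq
      rcases lt_trichotomy p q with h | h | h
      · have := hBb p hp.1 q hq.1 h
        rw [if_neg hq.2] at this
        omega
      · exact h
      · have := hBb q hq.1 p hp.1 h
        rw [if_neg hp.2] at this
        omega
    have hsum := Finset.card_filter_add_card_filter_not (s := B) (fun p => p ≤ M)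
    have hold : n ≤ (B.filter (fun p => p ≤ M)).card := by omega
    obtain ⟨B', hB', hB'c⟩ := Finset.exists_subset_card_eq hold
    refine hblue ⟨B', ?_, hB'c, ?_⟩
    · intro p hp
      have h1 := Finset.mem_filter.mp (hB' hp)
      have h2 := Finset.mem_Icc.mp (hBA h1.1)
      exact Finset.mem_Icc.mpr ⟨h2.1, h1.2⟩
    · intro p hp q hq hpq
      have h1 := Finset.mem_filter.mp (hB' hp)
      have h2 := Finset.mem_filter.mp (hB' hq)
      have h := hBb p h1.1 q h2.1 hpq
      rw [if_pos h2.2] at h
      exact h

end OG23
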