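import Pool.Agent.Lib_MP_23a060_co.L3
import Pool.Agent.Lib_MP_23a060_co.Window
import Pool.Agent.Lib_MP_23a060_co.FourBad
import Pool.Agent.Lib_MP_23a060_co.ArrowEasy
import Pool.Agent.Lib_MP_23a060_co.ArrowD

/-! Assembly: all connected sub-objects of a graph that is not bad satisfy the upper bound. -/

namespace OG23

variable {G : ℕ → ℕ → Prop} {k : ℕ}

theorem not_bad_le {n m : ℕ} (hG : OG G k) (hm : 1 ≤ m) (hmn : m ≤ n) (h : ¬ Bad n G k) :
    ¬ Bad m G k := by
  induction n, hmn using Nat.le_induction with
  | base => exact h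
  | succ n hn ih => exact ih (fun hb => h (bad_succ hG (by omega) hb))

/-- for `n ≥ 4` a double star that is not bad has its centre at an end -/
theorem dshape_four (hG : OG G k) (hnb : ¬ Bad 4 G k) {x : ℕ} (hx : 1 ≤ x) (hxk : x < k)
    (hD : ∀ i j, G i j → i < j → (j = x + 1 ∧ i ≤ x) ∨ (i = x ∧ x + 1 ≤ j)) :
    x = 1 ∨ x + 1 = k := by
  by_contra hcon
  push Not at hcon
  have hD' : ∀ i j, G i j → (j = x + 1 ∧ i ≤ x) ∨ (i = x ∧ x + 1 ≤ j) ∨ (i = x + 1 ∧ j ≤ x) ∨
      (j = x ∧ x + 1 ≤ i) := by
    intro i j hij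
    rcases lt_trichotomy i j with h | h | h
    · rcases hD i j hij h with h1 | h1
      · exact Or.inl h1
      · exact Or.inr (Or.inl h1)
    · subst h; exact absurd hij (hG.irr _)
    · rcases hD j i (hG.symm _ _ hij) h with h1 | h1
      · exact Or.inr (Or.inr (Or.inl h1))
      · exact Or.inr (Or.inr (Or.inr h1))
  have leaf : ∀ u, 1 ≤ u → u ≤ k → ∃ j, G u j := by
    intro u hu huk
    obtain ⟨i, j, hij, hi, hj⟩ := hG.conn (fun i => i = u) ⟨u, hu, huk, rfl⟩
      ⟨if u = 1 then k else 1, by split_ifs <;> omega, by split_ifs <;> omega, by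
        split_ifs <;> omega⟩
    subst hi
    exact ⟨j, hij⟩
  apply hnb
  apply fourBad (x := x) (by omega) (by omega)
  · obtain ⟨j, hj⟩ := leaf 1 le_rfl (by omega)
    have rj := hG.rng _ _ (hG.symm _ _ hj)
    have := hD' 1 j hj
    have hjx : j = x + 1 := by omega
    rwa [hjx] at hj
  · obtain ⟨i, j, hij, hi, hj⟩ := hG.conn (fun i => i ≤ x + 1 ∧ i ≠ x)
      ⟨1, by omega, by omega, by omega, by omega⟩ ⟨x, by omega, by omega, by omega⟩
    have ri := hG.rng _ _ hij
    have := hD' i j hij
    have h1 : i = x + 1 ∧ j = x := by omega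
    rw [h1.1, h1.2] at hij
    exact hG.symm _ _ hij
  · obtain ⟨j, hj⟩ := leaf (x + 2) (by omega) (by omega)
    have := hD' _ j hj
    have hjx : j = x := by omega
    rw [hjx] at hj
    exact hG.symm _ _ hj
  · obtain ⟨j, hj⟩ := leaf k (by omega) (by omega)
    have := hD' _ j hj
    have hjx : j = x := by omega
    rw [hjx] at hj
    exact hG.symm _ _ hj

/-- restriction of connectedness to the left of a cut position -/
theorem connS_left {S : Finset ℕ} {E : ℕ → ℕ → Prop} {v : ℕ} (hS : ConnS S E) (hv : v ∈ S)
    (hcut : ∀ i j, E i j → i < v → ¬ v < j) (hsym : ∀ i j, E i j → E j i) :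
    ConnS (S.filter (· ≤ v)) E := by
  classical
  intro U h1 h2
  obtain ⟨i, hi, hUi⟩ := h1
  obtain ⟨j, hj, hUj⟩ := h2
  rw [Finset.mem_filter] at hi hj
  obtain ⟨a, ha, b, hb, hab, hUa, hUb⟩ := hS (fun x => (x ≤ v ∧ U x) ∨ (v < x ∧ U v))
    ⟨i, hi.1, Or.inl ⟨hi.2, hUi⟩⟩ ⟨j, hj.1, by
      rintro (h | h)
      · exact hUj h.2
      · omega⟩
  have hav : a ≤ v := by
    by_contra hcon
    have hUv : U v := by
      rcases hUa with h | h
      · omega
      · exact h.2
    have hbv : b < v := by
      by_contra hc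
      rcases Nat.lt_or_ge v b with h | h
      · exact hUb (Or.inr ⟨h, hUv⟩)
      · have : b = v := by omega
        subst this
        exact hUb (Or.inl ⟨le_rfl, hUv⟩)
    exact hcut b a (hsym _ _ hab) hbv (by omega)
  have hUa' : U a := by
    rcases hUa with h | h
    · exact h.2
    · omega
  have hbv : b ≤ v := by
    by_contra hcon
    rcases Nat.lt_or_ge a v with h | h
    · exact hcut a b hab h (by omega)
    · have : a = v := by omega
      subst this
      exact hUb (Or.inr ⟨by omega, hUa'⟩)
  exact ⟨a, Finset.mem_filter.2 ⟨ha, hav⟩, b, Finset.mem_filter.2 ⟨hb, hbv⟩, hab, hUa',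
    fun hc => hUb (Or.inl ⟨hbv, hc⟩)⟩

theorem connS_right {S : Finset ℕ} {E : ℕ → ℕ → Prop} {v : ℕ} (hS : ConnS S E) (hv : v ∈ S)
    (hcut : ∀ i j, E i j → i < v → ¬ v < j) (hsym : ∀ i j, E i j → E j i) :
    ConnS (S.filter (v ≤ ·)) E := by
  classical
  intro U h1 h2
  obtain ⟨i, hi, hUi⟩ := h1
  obtain ⟨j, hj, hUj⟩ := h2
  rw [Finset.mem_filter] at hi hj
  obtain ⟨a, ha, b, hb, hab, hUa, hUb⟩ := hS (fun x => (v ≤ x ∧ U x) ∨ (x < v ∧ U v))
    ⟨i, hi.1, Or.inl ⟨hi.2, hUi⟩⟩ ⟨j, hj.1, by
      rintro (h | h)
      · exact hUj h.2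
      · omega⟩
  have hav : v ≤ a := by
    by_contra hcon
    have hUv : U v := by
      rcases hUa with h | h
      · omega
      · exact h.2
    have hbv : v < b := by
      by_contra hc
      rcases Nat.lt_or_ge b v with h | h
      · exact hUb (Or.inr ⟨h, hUv⟩)
      · have : b = v := by omega
        subst this
        exact hUb (Or.inl ⟨le_rfl, hUv⟩)
    exact hcut a b hab (by omega) hbv
  have hUa' : U a := by
    rcases hUa with h | h
    · exact h.2
    · omega
  have hbv : v ≤ b := by
    by_contra hcon
    rcases Nat.lt_or_ge v a with h | h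
    · exact hcut b a (hsym _ _ hab) (by omega) h
    · have : a = v := by omega
      subst this
      exact hUb (Or.inr ⟨by omega, hUa'⟩)
  exact ⟨a, Finset.mem_filter.2 ⟨ha, hav⟩, b, Finset.mem_filter.2 ⟨hb, hbv⟩, hab, hUa',
    fun hc => hUb (Or.inl ⟨hbv, hc⟩)⟩

/-- connected subgraphs of a double star -/
theorem arrow_dshape {n : ℕ} {S : Finset ℕ} {E : ℕ → ℕ → Prop} {X : ℕ} (hn : 3 ≤ n)
    (hS : S.Nonempty) (hconn : ConnS S E) (hsym : ∀ i j, E i j → E j i) (hirr : ∀ i, ¬ E i i)
    (hE : ∀ i ∈ S, ∀ j ∈ S, i < j → E i j → (j = X + 1 ∧ i ≤ X) ∨ (i = X ∧ X + 1 ≤ j))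
    (h4 : 4 ≤ n → (∀ i ∈ S, X ≤ i) ∨ (∀ i ∈ S, i ≤ X + 1)) : Arrow n S E := by
  classical
  have hE' : ∀ i ∈ S, ∀ j ∈ S, E i j → (j = X + 1 ∧ i ≤ X) ∨ (i = X ∧ X + 1 ≤ j) ∨
      (i = X + 1 ∧ j ≤ X) ∨ (j = X ∧ X + 1 ≤ i) := by
    intro i hi j hj hij
    rcases lt_trichotomy i j with h | h | h
    · rcases hE i hi j hj h hij with h1 | h1
      · exact Or.inl h1
      · exact Or.inr (Or.inl h1)
    · subst h; exact absurd hij (hirr _)
    · rcases hE j hj i hi h (hsym _ _ hij) with h1 | h1
      · exact Or.inr (Or.inr (Or.inl h1))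
      · exact Or.inr (Or.inr (Or.inr h1))
  by_cases hX : X ∈ S
  · by_cases hY : X + 1 ∈ S
    · rcases Nat.lt_or_ge n 4 with hlt | hge
      · have hn3 : n = 3 := by omega
        subst hn3
        exact arrow_D hX hY (by omega) (fun z _ => by omega)
          (fun i hi j hj hij he => hE i hi j hj hij he)
      · rcases h4 hge with h | h
        · apply arrow_star_min (s := X) (by omega) hX h
          intro i hi j hj hij he
          have := hE i hi j hj hij he
          have := h i hi
          omega
        · apply arrow_star_max (s := X + 1) (by omega) hY h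
          intro i hi j hj hij he
          have := hE i hi j hj hij he
          have := h j hj
          omega
    · -- star with minimum `X`
      have hmin : ∀ i ∈ S, X ≤ i := by
        intro i hi
        by_contra hcon
        obtain ⟨a, ha, b, hb, hab, hUa, hUb⟩ := hconn (fun x => x = i) ⟨i, hi, rfl⟩
          ⟨X, hX, by omega⟩
        subst hUa
        have := hE' a ha b hb hab
        have hbY : b ≠ X + 1 := fun h => hY (h ▸ hb)
        omega
      apply arrow_star_min (s := X) (by omega) hX hmin
      intro i hi j hj hij he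
      have := hE i hi j hj hij he
      have := hmin i hi
      omega
  · by_cases hY : X + 1 ∈ S
    · have hmax : ∀ i ∈ S, i ≤ X + 1 := by
        intro i hi
        by_contra hcon
        obtain ⟨a, ha, b, hb, hab, hUa, hUb⟩ := hconn (fun x => x = i) ⟨i, hi, rfl⟩
          ⟨X + 1, hY, by omega⟩
        subst hUa
        have := hE' a ha b hb hab
        have hbX : b ≠ X := fun h => hX (h ▸ hb)
        omega
      apply arrow_star_max (s := X + 1) (by omega) hY hmax
      intro i hi j hj hij he
      have := hE i hi j hj hij he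
      have := hmax j hj
      omega
    · -- single vertex
      apply arrow_point (by omega) ?_ hirr
      rw [Finset.card_eq_one]
      obtain ⟨u, hu⟩ := hS
      refine ⟨u, ?_⟩
      ext i
      simp only [Finset.mem_singleton]
      constructor
      · intro hi
        by_contra hcon
        obtain ⟨a, ha, b, hb, hab, hUa, hUb⟩ := hconn (fun x => x = i) ⟨i, hi, rfl⟩
          ⟨u, hu, fun h => hcon h.symm⟩
        have := hE' a ha b hb hab
        have h1 : b ≠ X := fun h => hX (h ▸ hb)
        have h2 : b ≠ X + 1 := fun h => hY (h ▸ hb)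
        have h3 : a ≠ X := fun h => hX (h ▸ ha)
        have h4 : a ≠ X + 1 := fun h => hY (h ▸ ha)
        omega
      · rintro rfl
        exact hu

theorem arrow_window {n : ℕ} (hn : 3 ≤ n) (hG : OG G k) (hnb : ¬ Bad n G k) :
    ∀ d s e : ℕ, e - s ≤ d → 1 ≤ s → s ≤ e → e ≤ k →
      (∀ i j, G i j → i < s → ¬ s < j) → (∀ i j, G i j → i < e → ¬ e < j) →
      ∀ (S : Finset ℕ) (E : ℕ → ℕ → Prop), (∀ i ∈ S, s ≤ i ∧ i ≤ e) → S.Nonempty → ConnS S E →
        (∀ i j, E i j → G i j) → (∀ i j, E i j → E j i) → Arrow n S E := by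
  classical
  intro d
  induction d with
  | zero =>
    intro s e hd hs hse hek hcs hce S E hSr hS hconn hEG hsym
    apply arrow_point (by omega) ?_ (fun i hi => hG.irr _ (hEG _ _ hi))
    rw [Finset.card_eq_one]
    obtain ⟨u, hu⟩ := hS
    refine ⟨u, ?_⟩
    ext i
    simp only [Finset.mem_singleton]
    constructor
    · intro hi
      have h1 := hSr i hi
      have h2 := hSr u hu
      omega
    · rintro rfl; exact hu
  | succ d ih =>
    intro s e hd hs hse hek hcs hce S E hSr hS hconn hEG hsym
    by_cases hcut : ∃ v, s < v ∧ v < e ∧ ∀ i j, G i j → i < v → ¬ v < j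
    · obtain ⟨v, hsv, hve, hv⟩ := hcut
      by_cases hvS : v ∈ S
      · apply arrow_glue (v := v) (by omega) hvS
          (fun i _ j _ hij => hv i j (hEG _ _ hij))
        · apply ih s v (by omega) hs (by omega) (by omega) hcs hv
          · intro i hi
            rw [Finset.mem_filter] at hi
            exact ⟨(hSr i hi.1).1, hi.2⟩
          · exact ⟨v, Finset.mem_filter.2 ⟨hvS, le_rfl⟩⟩
          · exact connS_left hconn hvS (fun i j hij => hv i j (hEG _ _ hij)) hsym
          · exact hEG
          · exact hsym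
        · apply ih v e (by omega) (by omega) (by omega) (by omega) hv hce
          · intro i hi
            rw [Finset.mem_filter] at hi
            exact ⟨hi.2, (hSr i hi.1).2⟩
          · exact ⟨v, Finset.mem_filter.2 ⟨hvS, le_rfl⟩⟩
          · exact connS_right hconn hvS (fun i j hij => hv i j (hEG _ _ hij)) hsym
          · exact hEG
          · exact hsym
      · by_cases hl : ∃ i ∈ S, i < v
        · have hall : ∀ j ∈ S, j < v := by
            intro j hj
            by_contra hcon
            obtain ⟨a, ha, b, hb, hab, hUa, hUb⟩ := hconn (fun x => x < v) hl ⟨j, hj, hcon⟩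
            have hbv : b ≠ v := fun h => hvS (h ▸ hb)
            exact hv a b (hEG _ _ hab) hUa (by omega)
          apply ih s v (by omega) hs (by omega) (by omega) hcs hv S E ?_ hS hconn hEG hsym
          intro i hi
          exact ⟨(hSr i hi).1, (hall i hi).le⟩
        · apply ih v e (by omega) (by omega) (by omega) (by omega) hv hce S E ?_ hS hconn hEG hsym
          intro i hi
          refine ⟨?_, (hSr i hi).2⟩
          by_contra hcon
          exact hl ⟨i, hi, by omega⟩
    · -- irreducible window
      rcases Nat.eq_or_lt_of_le hse with heq | hlt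
      · exact ih s e (by omega) hs hse hek hcs hce S E hSr hS hconn hEG hsym
      have hW : OG (win G s e) (e - s + 1) := og_win hG hs hse hek hcs hce
      have hWn : ¬ Bad n (win G s e) (e - s + 1) := fun hb =>
        hnb (bad_window hG (by omega) hs hse hek hcs hce hb)
      have hirr : Irred (win G s e) (e - s + 1) := by
        intro v hv1 hv2
        push Not at hcut
        obtain ⟨i, j, hij, hi, hj⟩ := hcut (v + s - 1) (by omega) (by omega)
        have hsi : s ≤ i := by
          by_contra hc
          exact hcs i j hij (by omega) (by omega)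
        have hje : j ≤ e := by
          by_contra hc
          exact hce i j hij (by omega) (by omega)
        refine ⟨i + 1 - s, j + 1 - s, ⟨by omega, by omega, by omega, by omega, ?_⟩, by omega,
          by omega⟩
        have e1 : i + 1 - s + s - 1 = i := by omega
        have e2 : j + 1 - s + s - 1 = j := by omega
        rw [e1, e2]; exact hij
      have hnk : ¬ Killed (win G s e) (e - s + 1) := fun hkl =>
        not_bad_le hW (by omega) hn hWn (killed_bad hW hkl)
      obtain ⟨x, hx1, hxk, hD⟩ := L3 hW (by omega) hirr hnk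
      apply arrow_dshape (X := x + s - 1) hn hS hconn hsym (fun i hi => hG.irr _ (hEG _ _ hi))
      · intro i hi j hj hij he
        have hi' := hSr i hi
        have hj' := hSr j hj
        have := hD (i + 1 - s) (j + 1 - s) ⟨by omega, by omega, by omega, by omega, by
          have e1 : i + 1 - s + s - 1 = i := by omega
          have e2 : j + 1 - s + s - 1 = j := by omega
          rw [e1, e2]; exact hEG _ _ he⟩ (by omega)
        omega
      · intro hn4
        rcases dshape_four hW (not_bad_le hW (by omega) hn4 hWn) hx1 hxk hD with h | h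
        · left
          intro i hi
          have := hSr i hi
          omega
        · right
          intro i hi
          have := hSr i hi
          omega

end OG23
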