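import Pool.Agent.Lib_MP_23a060_co.Defs

/-! Infrastructure for killing words, mirror images. -/

namespace OG23

variable {G : ℕ → ℕ → Prop} {k N : ℕ} {red : ℕ → ℕ → Prop} {φ cls : ℕ → ℕ}

theorem redC_symm {c d : ℕ} (h : redC c d) : redC d c := by
  unfold redC at *; omega

theorem redC_tri {c d e : ℕ} (hc : c < 5) (hd : d < 5) (he : e < 5) :
    redC c d ∨ redC d e ∨ redC c e := by
  unfold redC; omega

/-- three positions of a blue triangle are impossible for a word -/
theorem not_blueIn_word {A : Finset ℕ} (hcls : ∀ p, cls p < 5) :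
    ¬ BlueIn 3 A (fun p q => redC (cls p) (cls q)) := by
  rintro ⟨B, hBA, hB, hblue⟩
  obtain ⟨x, y, z, hxy, hxz, hyz, rfl⟩ := Finset.card_eq_three.1 hB
  have hsym : ∀ p ∈ ({x, y, z} : Finset ℕ), ∀ q ∈ ({x, y, z} : Finset ℕ), p ≠ q →
      ¬ redC (cls p) (cls q) := by
    intro p hp q hq hpq hr
    rcases lt_or_gt_of_ne hpq with h | h
    · exact hblue p hp q hq h hr
    · exact hblue q hq p hp h (redC_symm hr)
  rcases redC_tri (hcls x) (hcls y) (hcls z) with h | h | h
  · exact hsym x (by simp) y (by simp) hxy h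
  · exact hsym y (by simp) z (by simp) hyz h
  · exact hsym x (by simp) z (by simp) hxz h

theorem killed_bad (hG : OG G k) (h : Killed G k) : Bad 3 G k := by
  obtain ⟨cls, hcls, hno⟩ := h
  refine ⟨fun p q => redC (cls p) (cls q), ?_, not_blueIn_word hcls⟩
  rintro ⟨φ, h1, h2, h3⟩
  have hk := hG.pos
  refine hno φ ⟨?_, ?_, ?_, ?_⟩
  · intro i j hi hij hj
    exact h2 i (Finset.mem_Icc.2 ⟨hi, by omega⟩) j (Finset.mem_Icc.2 ⟨by omega, hj⟩) hij
  · intro i hi hik
    exact (Finset.mem_Icc.1 (h1 i (Finset.mem_Icc.2 ⟨hi, hik⟩))).1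
  · intro i hi hik
    have := (Finset.mem_Icc.1 (h1 i (Finset.mem_Icc.2 ⟨hi, hik⟩))).2
    omega
  · intro i j hij hGij
    have hi := hG.rng i j hGij
    have hj := hG.rng j i (hG.symm i j hGij)
    exact h3 i (Finset.mem_Icc.2 hi) j (Finset.mem_Icc.2 hj) hij hGij

theorem Emb.gap (h : Emb G k red N φ) {i j : ℕ} (hi : 1 ≤ i) (hij : i ≤ j) (hj : j ≤ k) :
    φ i + (j - i) ≤ φ j := by
  induction j, hij using Nat.le_induction with
  | base => simp
  | succ m hm ih =>
    have h1 := ih (by omega)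
    have h2 := h.mono m (m + 1) (by omega) (by omega) hj
    omega

theorem Emb.lb (h : Emb G k red N φ) {i : ℕ} (hi : 1 ≤ i) (hik : i ≤ k) : i ≤ φ i := by
  have h1 := h.gap le_rfl hi hik
  have h2 := h.pos 1 le_rfl (by omega)
  omega

theorem Emb.ub (h : Emb G k red (2 * k - 1) φ) {i : ℕ} (hi : 1 ≤ i) (hik : i ≤ k) :
    φ i + 1 ≤ k + i := by
  have h1 := h.gap hi hik le_rfl
  have h2 := h.le k (by omega) le_rfl
  omega

theorem emb_red (hG : OG G k) (h : Emb G k (fun p q => redC (cls p) (cls q)) N φ) {i j : ℕ}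
    (hij : G i j) : redC (cls (φ i)) (cls (φ j)) := by
  rcases lt_trichotomy i j with h1 | h1 | h1
  · exact h.edge i j h1 hij
  · subst h1; exact absurd hij (hG.irr i)
  · exact redC_symm (h.edge j i h1 (hG.symm _ _ hij))

theorem Emb.cut (h : Emb G k red N φ) (τ : ℕ) :
    ∃ l, l ≤ k ∧ ∀ i, 1 ≤ i → i ≤ k → (φ i ≤ τ ↔ i ≤ l) := by
  classical
  by_cases hex : ∃ i, 1 ≤ i ∧ i ≤ k ∧ φ i ≤ τ
  · obtain ⟨i0, hi0, hi0k, hi0τ⟩ := hex
    let S := (Finset.Icc 1 k).filter (fun i => φ i ≤ τ)
    have hS : S.Nonempty := ⟨i0, by simp [S]; omega⟩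
    refine ⟨S.max' hS, ?_, ?_⟩
    · have := S.max'_mem hS
      simp only [S, Finset.mem_filter, Finset.mem_Icc] at this
      exact this.1.2
    · intro i hi hik
      constructor
      · intro hle
        exact S.le_max' i (by simp [S]; omega)
      · intro hle
        have := Finset.mem_filter.1 (S.max'_mem hS)
        have h2 := h.gap hi hle (Finset.mem_Icc.1 this.1).2
        have h3 := this.2
        omega
  · refine ⟨0, by omega, ?_⟩
    intro i hi hik
    constructor
    · intro hle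
      exact absurd ⟨i, hi, hik, hle⟩ hex
    · intro hle
      omega

/-! ### mirror images -/

theorem og_mir (hG : OG G k) : OG (mir G k) k where
  pos := hG.pos
  symm i j h := hG.symm _ _ h
  rng i j h := by
    have := hG.rng _ _ h
    omega
  irr i := hG.irr _
  conn U h1 h2 := by
    obtain ⟨i, hi, hik, hU⟩ := h1
    obtain ⟨j, hj, hjk, hUj⟩ := h2
    obtain ⟨a, b, hab, ha, hb⟩ := hG.conn (fun i => U (k + 1 - i))
      ⟨k + 1 - i, by omega, by omega, by
        have : k + 1 - (k + 1 - i) = i := by omega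
        simpa [this] using hU⟩
      ⟨k + 1 - j, by omega, by omega, by
        have : k + 1 - (k + 1 - j) = j := by omega
        simpa [this] using hUj⟩
    refine ⟨k + 1 - a, k + 1 - b, ?_, ha, hb⟩
    have h1 := hG.rng a b hab
    have h2 := hG.rng b a (hG.symm _ _ hab)
    unfold mir
    have e1 : k + 1 - (k + 1 - a) = a := by omega
    have e2 : k + 1 - (k + 1 - b) = b := by omega
    rw [e1, e2]
    exact hab

theorem mir_mir (hG : OG G k) : mir (mir G k) k = G := by
  funext i j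
  apply propext
  unfold mir
  constructor
  · intro h
    have h1 := hG.rng _ _ h
    have h2 := hG.rng _ _ (hG.symm _ _ h)
    have e1 : k + 1 - (k + 1 - i) = i := by omega
    have e2 : k + 1 - (k + 1 - j) = j := by omega
    rw [e1, e2] at h
    exact h
  · intro h
    have h1 := hG.rng _ _ h
    have h2 := hG.rng _ _ (hG.symm _ _ h)
    have e1 : k + 1 - (k + 1 - i) = i := by omega
    have e2 : k + 1 - (k + 1 - j) = j := by omega
    rw [e1, e2]
    exact h

theorem mir_iff (i j : ℕ) : mir G k i j ↔ G (k + 1 - i) (k + 1 - j) := Iff.rfl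

theorem mir_of (hG : OG G k) {i j : ℕ} (h : G i j) : mir G k (k + 1 - i) (k + 1 - j) := by
  have h1 := hG.rng _ _ h
  have h2 := hG.rng _ _ (hG.symm _ _ h)
  unfold mir
  have e1 : k + 1 - (k + 1 - i) = i := by omega
  have e2 : k + 1 - (k + 1 - j) = j := by omega
  rw [e1, e2]
  exact h

theorem killed_mir (hG : OG G k) (h : Killed (mir G k) k) : Killed G k := by
  obtain ⟨cls, hcls, hno⟩ := h
  refine ⟨fun p => cls (2 * k - p), fun p => hcls _, ?_⟩
  intro φ hφ
  apply hno (fun i => 2 * k - φ (k + 1 - i))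
  have hk := hG.pos
  refine ⟨?_, ?_, ?_, ?_⟩
  · intro i j hi hij hj
    have h1 := hφ.mono (k + 1 - j) (k + 1 - i) (by omega) (by omega) (by omega)
    have h2 := hφ.le (k + 1 - i) (by omega) (by omega)
    have h3 := hφ.le (k + 1 - j) (by omega) (by omega)
    show 2 * k - φ (k + 1 - i) < 2 * k - φ (k + 1 - j)
    omega
  · intro i hi hik
    have h2 := hφ.le (k + 1 - i) (by omega) (by omega)
    show 1 ≤ 2 * k - φ (k + 1 - i)
    omega
  · intro i hi hik
    have h2 := hφ.pos (k + 1 - i) (by omega) (by omega)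
    show 2 * k - φ (k + 1 - i) ≤ 2 * k - 1
    omega
  · intro i j hij hGij
    have hr := emb_red hG hφ hGij
    exact hr

theorem irred_mir (h : Irred G k) (hG : OG G k) : Irred (mir G k) k := by
  intro v hv hvk
  obtain ⟨i, j, hij, h1, h2⟩ := h (k + 1 - v) (by omega) (by omega)
  have r1 := hG.rng _ _ hij
  have r2 := hG.rng _ _ (hG.symm _ _ hij)
  refine ⟨k + 1 - j, k + 1 - i, mir_of hG (hG.symm _ _ hij), by omega, by omega⟩

theorem dshape_mir (hG : OG G k) (h : DShape (mir G k) k) : DShape G k := by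
  obtain ⟨x, hx, hxk, hD⟩ := h
  refine ⟨k - x, by omega, by omega, ?_⟩
  intro i j hij hlt
  have r1 := hG.rng _ _ hij
  have r2 := hG.rng _ _ (hG.symm _ _ hij)
  have h1 := hD (k + 1 - j) (k + 1 - i) (mir_of hG (hG.symm _ _ hij)) (by omega)
  omega

/-! ### reachability -/

theorem Reach.refl {P : ℕ → Prop} (a : ℕ) : Reach P G a a := fun _ ha _ => ha

theorem Reach.step {P : ℕ → Prop} {a i j : ℕ} (h : Reach P G a i) (hij : G i j) (hj : P j) :
    Reach P G a j := fun U ha hU => hU i j (h U ha hU) hij hj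

theorem Reach.trans {P : ℕ → Prop} {a b c : ℕ} (h : Reach P G a b) (h' : Reach P G b c) :
    Reach P G a c := fun U ha hU => h' U (h U ha hU) hU

theorem Reach.mono {P Q : ℕ → Prop} {a b : ℕ} (hPQ : ∀ i, P i → Q i) (h : Reach P G a b) :
    Reach Q G a b := fun U ha hU => h U ha (fun i j hi hij hj => hU i j hi hij (hPQ j hj))

theorem Reach.prop {P : ℕ → Prop} {a b : ℕ} (ha : P a) (h : Reach P G a b) : P b :=
  h P ha (fun _ _ _ _ hj => hj)

theorem Reach.symm' {P : ℕ → Prop} {a b : ℕ} (hsym : ∀ i j, G i j → G j i) (ha : P a)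
    (h : Reach P G a b) : Reach P G b a := by
  have h2 := h (fun i => P i ∧ Reach P G i a) ⟨ha, Reach.refl a⟩ (by
    rintro i j ⟨hi, hr⟩ hij hj
    refine ⟨hj, ?_⟩
    intro U hU hcl
    exact hr U (hcl j i hU (hsym _ _ hij) hi) hcl)
  exact h2.2

end OG23
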