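import Pool.Agent.Lib_MP_23a060_co.Kill

/-! The non-tight case. -/

namespace OG23

variable {G : ℕ → ℕ → Prop} {k a b c p : ℕ} {cls φ : ℕ → ℕ}

structure NT (G : ℕ → ℕ → Prop) (k a b p : ℕ) : Prop where
  og : OG G k
  h1a : G 1 a
  hbk : G b k
  h1k : ¬ G 1 k
  sep : ∀ i j, G 1 i → G j k → j < i
  reach : Reach (fun i => i ≠ 1 ∧ i ≠ k) G b a
  ex1 : ∃ a1, G 1 a1 ∧ p + 2 ≤ a1
  ex2 : ∃ b0, G b0 k ∧ b0 ≤ p

theorem NT.bounds (h : NT G k a b p) : 2 ≤ b ∧ b < a ∧ a + 1 ≤ k ∧ p + 3 ≤ k ∧ 2 ≤ p := by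
  have hG := h.og
  have r1 := hG.rng _ _ h.hbk
  have r2 := hG.rng _ _ (hG.symm _ _ h.h1a)
  have hb1 : b ≠ 1 := by
    intro hb; exact h.h1k (hb ▸ h.hbk)
  have hak : a ≠ k := by
    intro ha; exact h.h1k (ha ▸ h.h1a)
  have hba := h.sep a b h.h1a h.hbk
  obtain ⟨a1, ha1, hpa1⟩ := h.ex1
  obtain ⟨b0, hb0, hb0p⟩ := h.ex2
  have r3 := hG.rng _ _ (hG.symm _ _ ha1)
  have r4 := hG.rng _ _ hb0
  have ha1k : a1 ≠ k := by rintro rfl; exact h.h1k ha1
  have hb01 : b0 ≠ 1 := by rintro rfl; exact h.h1k hb0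
  omega

theorem NT.reach' (h : NT G k a b p) : Reach (fun i => i ≠ 1 ∧ i ≠ k) G a b := by
  have hb := h.bounds
  exact Reach.symm' h.og.symm ⟨by omega, by omega⟩ h.reach

theorem nt_mir (h : NT G k a b p) : NT (mir G k) k (k + 1 - b) (k + 1 - a) (k - 1 - p) := by
  have hb := h.bounds
  have hG := h.og
  have e1 : k + 1 - 1 = k := by omega
  have ek : k + 1 - k = 1 := by omega
  refine ⟨og_mir hG, ?_, ?_, ?_, ?_, ?_, ?_, ?_⟩
  · have := mir_of hG (hG.symm _ _ h.hbk)
    rwa [ek] at this
  · have := mir_of hG (hG.symm _ _ h.h1a)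
    rwa [e1] at this
  · intro hc
    rw [mir_iff, e1, ek] at hc
    exact h.h1k (hG.symm _ _ hc)
  · intro i j hi hj
    have ri := (og_mir hG).rng _ _ ((og_mir hG).symm _ _ hi)
    have rj := (og_mir hG).rng _ _ hj
    rw [mir_iff, e1] at hi
    rw [mir_iff, ek] at hj
    have := h.sep _ _ (hG.symm _ _ hj) (hG.symm _ _ hi)
    omega
  · intro U hU hcl
    have hr := h.reach' (fun i => 1 ≤ i ∧ i ≤ k ∧ U (k + 1 - i)) ⟨by omega, by omega, hU⟩ (by
      rintro i j ⟨hi1, hik, hi⟩ hij ⟨hj1, hjk⟩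
      have rj := hG.rng _ _ (hG.symm _ _ hij)
      exact ⟨rj.1, rj.2, hcl _ _ hi (mir_of hG hij) ⟨by omega, by omega⟩⟩)
    exact hr.2.2
  · obtain ⟨b0, hb0, hb0p⟩ := h.ex2
    have r := hG.rng _ _ hb0
    refine ⟨k + 1 - b0, ?_, by omega⟩
    have := mir_of hG (hG.symm _ _ hb0)
    rwa [ek] at this
  · obtain ⟨a1, ha1, hpa1⟩ := h.ex1
    have r := hG.rng _ _ (hG.symm _ _ ha1)
    refine ⟨k + 1 - a1, ?_, by omega⟩
    have := mir_of hG (hG.symm _ _ ha1)
    rwa [e1] at this

/-- the word `x; C^{c-1}; X^p; Y^{k-1-p}; C^{a-1-c}; y; C^{k-a}` -/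
def SpecT3 (cls : ℕ → ℕ) (k a c p : ℕ) : Prop := ∀ q,
  (q ≤ 1 ∧ cls q = 0) ∨ (1 < q ∧ q ≤ c ∧ cls q = 1) ∨ (c < q ∧ q ≤ c + p ∧ 1 < q ∧ cls q = 4) ∨
  (c + p < q ∧ q + 1 ≤ c + k ∧ cls q = 3) ∨ (c + k ≤ q ∧ q + 2 ≤ a + k ∧ cls q = 1) ∨
  (q + 1 = a + k ∧ cls q = 2) ∨ (a + k ≤ q ∧ cls q = 1)

theorem exists_specT3 (hc : 1 ≤ c) (hca : c + 1 ≤ a) (hp : p + 1 ≤ k) (hak : a + 1 ≤ k) :
    ∃ cls, SpecT3 cls k a c p := by
  refine ⟨fun q => if q ≤ 1 then 0 else if q ≤ c then 1 else if q ≤ c + p then 4 else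
    if q + 1 ≤ c + k then 3 else if q + 2 ≤ a + k then 1 else if q + 1 = a + k then 2 else 1, ?_⟩
  intro q; dsimp only; split_ifs <;> omega

/-- the word is a kill or there is an embedding -/
theorem exists_emb_T3 (hnk : ¬ Killed G k) (hc : 1 ≤ c) (hca : c + 1 ≤ a) (hp : p + 1 ≤ k)
    (hak : a + 1 ≤ k) :
    ∃ cls, SpecT3 cls k a c p ∧ ∃ φ, Emb G k (fun p q => redC (cls p) (cls q)) (2 * k - 1) φ := by
  obtain ⟨cls, hcls⟩ := exists_specT3 (p := p) hc hca hp hak
  refine ⟨cls, hcls, ?_⟩
  by_contra hcon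
  push Not at hcon
  exact hnk ⟨cls, fun q => by have := hcls q; omega, hcon⟩

/-- `K` is nonempty -/
theorem t3_K_nonempty (h : NT G k a b p) (hc : 1 ≤ c) (hca : c + 1 ≤ a)
    (hs : SpecT3 cls k a c p) (hφ : Emb G k (fun p q => redC (cls p) (cls q)) (2 * k - 1) φ) :
    ∃ i, 1 ≤ i ∧ i ≤ k ∧ c < φ i ∧ φ i + 1 ≤ c + k := by
  have hb := h.bounds
  have hG := h.og
  by_contra hcon
  push Not at hcon
  obtain ⟨l, hl, hcut⟩ := hφ.cut c
  have hlc : l ≤ c := by
    by_contra hlt
    have h1 := (hcut l (by omega) hl).2 le_rfl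
    have h2 := hφ.lb (i := l) (by omega) hl
    omega
  have h3 : ¬ φ (l + 1) ≤ c := fun hc' => by
    have := (hcut (l + 1) (by omega) (by omega)).1 hc'
    omega
  have h4 := hcon (l + 1) (by omega) (by omega) (by omega)
  have h5 := hφ.ub (i := l + 1) (by omega) (by omega)
  have hlc' : l = c := by omega
  have h6 := (hcut l (by omega) hl).2 le_rfl
  have h7 := hφ.gap (i := 1) (j := l) le_rfl (by omega) (by omega)
  have h8 := hφ.pos 1 le_rfl (by omega)
  have h9 := hφ.gap (i := l + 1) (j := a) (by omega) (by omega) (by omega)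
  have h10 := hφ.ub (i := a) (by omega) (by omega)
  have e := emb_red hG hφ h.h1a
  have s1 := hs (φ 1)
  have s2 := hs (φ a)
  unfold redC at e
  omega

/-- `b` does not lie in `K` -/
theorem t3_K1 (h : NT G k a b p) (hc : 1 ≤ c) (hca : c + 1 ≤ a)
    (hs : SpecT3 cls k a c p) (hφ : Emb G k (fun p q => redC (cls p) (cls q)) (2 * k - 1) φ) :
    ¬ (c < φ b ∧ φ b + 1 ≤ c + k) := by
  have hb := h.bounds
  have hG := h.og
  intro hKb
  have e1 := emb_red hG hφ h.h1a
  have e2 := emb_red hG hφ h.hbk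
  have s1 := hs (φ 1)
  have sa := hs (φ a)
  have sb := hs (φ b)
  have sk := hs (φ k)
  have g1 := hφ.pos 1 le_rfl (by omega)
  have g2 := hφ.gap (i := 1) (j := b) le_rfl (by omega) (by omega)
  have g3 := hφ.gap (i := b) (j := a) (by omega) (by omega) (by omega)
  have g4 := hφ.gap (i := a) (j := k) (by omega) (by omega) (by omega)
  have g5 := hφ.le k (by omega) le_rfl
  by_cases hk : φ k + 1 ≤ c + k
  · -- `k ∈ K`
    have hx : φ 1 = 1 ∧ φ a ≤ c + p := by
      unfold redC at e1
      omega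
    obtain ⟨a1, ha1, hpa1⟩ := h.ex1
    have r1 := hG.rng _ _ (hG.symm _ _ ha1)
    have hba1 := h.sep a1 b ha1 h.hbk
    have e3 := emb_red hG hφ ha1
    have sa1 := hs (φ a1)
    have g6 := hφ.gap (i := b) (j := a1) (by omega) (by omega) (by omega)
    have g7 := hφ.gap (i := a1) (j := k) (by omega) (by omega) (by omega)
    have hXa1 : φ a1 ≤ c + p := by
      unfold redC at e3
      omega
    obtain ⟨l, hl, hcut⟩ := hφ.cut c
    have hlb : l < b := by
      by_contra hcon
      have := (hcut b (by omega) (by omega)).2 (by omega)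
      omega
    have hl1 : 1 ≤ l := (hcut 1 le_rfl (by omega)).1 (by omega)
    have hl2 : l ≤ 1 := by
      by_contra hcon
      obtain ⟨i, j, hij, hi, hj⟩ := hG.conn (fun i => 2 ≤ i ∧ i ≤ l) ⟨2, by omega, by omega,
        by omega⟩ ⟨1, by omega, by omega, by omega⟩
      have ri := hG.rng _ _ hij
      have rj := hG.rng _ _ (hG.symm _ _ hij)
      by_cases hj1 : j = 1
      · subst hj1
        have := h.sep i b (hG.symm _ _ hij) h.hbk
        omega
      · have f1 := (hcut i (by omega) (by omega)).2 (by omega)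
        have f2 := hφ.gap (i := 1) (j := i) le_rfl (by omega) (by omega)
        have f3 : ¬ φ j ≤ c := fun hc' => by
          have := (hcut j (by omega) (by omega)).1 hc'
          omega
        have f4 := hφ.gap (i := j) (j := k) (by omega) (by omega) (by omega)
        have er := emb_red hG hφ hij
        have si := hs (φ i)
        have sj := hs (φ j)
        unfold redC at er
        omega
    have h2 : ¬ φ 2 ≤ c := fun hc' => by
      have := (hcut 2 (by omega) (by omega)).1 hc'
      omega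
    have g8 := hφ.gap (i := 2) (j := a1) (by omega) (by omega) (by omega)
    omega
  · -- `k ∉ K`
    have hy : φ k + 1 = a + k ∧ c + p < φ b := by
      unfold redC at e2
      omega
    have hKa := h.reach (fun i => 1 ≤ i ∧ i ≤ k ∧ c < φ i ∧ φ i + 1 ≤ c + k)
      ⟨by omega, by omega, hKb.1, hKb.2⟩ (by
        rintro i j ⟨hi1, hik, hi⟩ hij ⟨hj1, hjk⟩
        have rj := hG.rng _ _ (hG.symm _ _ hij)
        have f1 := hφ.gap (i := 1) (j := j) le_rfl (by omega) (by omega)
        have f2 := hφ.gap (i := j) (j := k) (by omega) (by omega) (by omega)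
        have er := emb_red hG hφ hij
        have si := hs (φ i)
        have sj := hs (φ j)
        refine ⟨by omega, by omega, ?_⟩
        unfold redC at er
        omega)
    have hK1 : c < φ 1 := by
      unfold redC at e1
      omega
    have hlast : φ (k - 1) + 1 ≤ c + k := by
      by_contra hcon
      obtain ⟨i, j, hij, hi, hj⟩ := hG.conn (fun i => c + k ≤ φ i ∧ i < k) ⟨k - 1, by omega,
        by omega, by omega, by omega⟩ ⟨1, by omega, by omega, by omega⟩
      have ri := hG.rng _ _ hij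
      have rj := hG.rng _ _ (hG.symm _ _ hij)
      by_cases hjk : j = k
      · subst hjk
        have hia := h.sep a i h.h1a hij
        have := hφ.mono i a (by omega) hia (by omega)
        omega
      · have f1 : φ j + 1 ≤ c + k := by
          by_contra hc'
          exact hj ⟨by omega, by omega⟩
        have f2 := hφ.gap (i := 1) (j := j) le_rfl (by omega) (by omega)
        have f3 := hφ.gap (i := i) (j := k) (by omega) (by omega) (by omega)
        have er := emb_red hG hφ hij
        have si := hs (φ i)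
        have sj := hs (φ j)
        unfold redC at er
        omega
    obtain ⟨b0, hb0, hb0p⟩ := h.ex2
    have r0 := hG.rng _ _ hb0
    have hb0k : b0 ≠ k := by rintro rfl; exact hG.irr _ hb0
    have f1 := hφ.gap (i := b0) (j := k - 1) (by omega) (by omega) (by omega)
    have f2 := hφ.gap (i := 1) (j := b0) le_rfl (by omega) (by omega)
    have er := emb_red hG hφ hb0
    have s0 := hs (φ b0)
    unfold redC at er
    omega

theorem nt_F0 (h : NT G k a b p) (hnk : ¬ Killed G k) :
    (∃ (v : ℕ) (J : ℕ → Prop), a < v ∧ v < k ∧ J a ∧ (∀ i, J i → b < i) ∧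
      (∀ i j, J i → G i j → J j ∨ j = 1 ∨ j = v)) ∨
    (∃ I : ℕ → Prop, I (a - 1) ∧ (∀ i, I i → b < i ∧ i < a) ∧
      (∀ i j, I i → G i j → I j ∨ j = a)) := by
  have hb := h.bounds
  have hG := h.og
  obtain ⟨cls, hs, φ, hφ⟩ := exists_emb_T3 (c := a - 1) (a := a) (p := p) hnk (by omega) (by omega)
    (by omega) (by omega)
  have hK1 := t3_K1 h (by omega) (by omega) hs hφ
  obtain ⟨i0, hi0, hi0k, hi0K⟩ := t3_K_nonempty h (by omega) (by omega) hs hφ
  have ubb := hφ.ub (i := b) (by omega) (by omega)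
  have uba := hφ.ub (i := a) (by omega) (by omega)
  have lba := hφ.lb (i := a) (by omega) (by omega)
  have g1 := hφ.pos 1 le_rfl (by omega)
  have g2 := hφ.gap (i := 1) (j := b) le_rfl (by omega) (by omega)
  have g3 := hφ.gap (i := b) (j := a) (by omega) (by omega) (by omega)
  have e1 := emb_red hG hφ h.h1a
  have s1 := hs (φ 1)
  have sa := hs (φ a)
  have hbb : φ b ≤ a - 1 := by omega
  have hbK : ∀ i, 1 ≤ i → i ≤ k → a - 1 < φ i → b < i := by
    intro i hi hik hlt
    by_contra hcon
    have := hφ.gap (i := i) (j := b) hi (by omega) (by omega)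
    omega
  by_cases hKa : φ a + 1 ≤ a - 1 + k
  · left
    have hx : φ 1 = 1 := by
      unfold redC at e1
      omega
    have hv : ∃ v, 1 ≤ v ∧ v < k ∧ φ v + 1 = a + k := by
      by_contra hcon
      have hKb := h.reach' (fun i => 1 ≤ i ∧ i ≤ k ∧ a - 1 < φ i ∧ φ i + 1 ≤ a - 1 + k)
        ⟨by omega, by omega, by omega, by omega⟩ (by
          rintro i j ⟨hi1, hik, hi⟩ hij ⟨hj1, hjk⟩
          have rj := hG.rng _ _ (hG.symm _ _ hij)
          have f1 := hφ.gap (i := 1) (j := j) le_rfl (by omega) (by omega)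
          have er := emb_red hG hφ hij
          have si := hs (φ i)
          have sj := hs (φ j)
          have hny : φ j + 1 ≠ a + k := fun hy => hcon ⟨j, by omega, by omega, hy⟩
          refine ⟨by omega, by omega, ?_⟩
          unfold redC at er
          omega)
      exact hK1 ⟨hKb.2.2.1, hKb.2.2.2⟩
    obtain ⟨v, hv1, hvk, hvy⟩ := hv
    have hav : a < v := by
      by_contra hcon
      have := hφ.gap (i := v) (j := a) hv1 (by omega) (by omega)
      omega
    refine ⟨v, fun i => 1 ≤ i ∧ i ≤ k ∧ a - 1 < φ i ∧ φ i + 1 ≤ a - 1 + k, hav, hvk,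
      ⟨by omega, by omega, by omega, by omega⟩, ?_, ?_⟩
    · rintro i ⟨hi1, hik, hi⟩
      exact hbK i hi1 hik hi.1
    · rintro i j ⟨hi1, hik, hi⟩ hij
      have rj := hG.rng _ _ (hG.symm _ _ hij)
      by_cases hj1 : j = 1
      · exact Or.inr (Or.inl hj1)
      by_cases hjv : j = v
      · exact Or.inr (Or.inr hjv)
      left
      have f1 := hφ.gap (i := 1) (j := j) le_rfl (by omega) (by omega)
      have er := emb_red hG hφ hij
      have si := hs (φ i)
      have sj := hs (φ j)
      have hny : φ j ≠ φ v := by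
        rcases lt_or_gt_of_ne hjv with h1 | h1
        · exact (hφ.mono j v (by omega) h1 (by omega)).ne
        · exact (hφ.mono v j (by omega) h1 (by omega)).ne'
      refine ⟨by omega, by omega, ?_⟩
      unfold redC at er
      omega
  · right
    have hay : φ a + 1 = a + k := by omega
    have hi0a : i0 < a := by
      by_contra hcon
      have := hφ.gap (i := a) (j := i0) (by omega) (by omega) (by omega)
      omega
    have f1 := hφ.gap (i := i0) (j := a - 1) (by omega) (by omega) (by omega)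
    have f2 := hφ.gap (i := a - 1) (j := a) (by omega) (by omega) (by omega)
    refine ⟨fun i => 1 ≤ i ∧ i ≤ k ∧ a - 1 < φ i ∧ φ i + 1 ≤ a - 1 + k,
      ⟨by omega, by omega, by omega, by omega⟩, ?_, ?_⟩
    · rintro i ⟨hi1, hik, hi⟩
      refine ⟨hbK i hi1 hik hi.1, ?_⟩
      by_contra hcon
      have := hφ.gap (i := a) (j := i) (by omega) (by omega) (by omega)
      omega
    · rintro i j ⟨hi1, hik, hi⟩ hij
      have rj := hG.rng _ _ (hG.symm _ _ hij)
      by_cases hja : j = a
      · exact Or.inr hja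
      left
      have f1 := hφ.gap (i := 1) (j := j) le_rfl (by omega) (by omega)
      have er := emb_red hG hφ hij
      have si := hs (φ i)
      have sj := hs (φ j)
      have hny : φ j ≠ φ a := by
        rcases lt_or_gt_of_ne hja with h1 | h1
        · exact (hφ.mono j a (by omega) h1 (by omega)).ne
        · exact (hφ.mono a j (by omega) h1 (by omega)).ne'
      refine ⟨by omega, by omega, ?_⟩
      unfold redC at er e1
      omega

theorem nt_F1 (h : NT G k a b p) (hnk : ¬ Killed G k) :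
    ∃ R : ℕ → Prop, R (b - 1) ∧ (∀ i, R i → i < b) ∧ (∀ i j, R i → G i j → R j ∨ j = a) := by
  have hb := h.bounds
  have hG := h.og
  obtain ⟨cls, hs, φ, hφ⟩ := exists_emb_T3 (c := b - 1) (a := a) (p := p) hnk (by omega) (by omega)
    (by omega) (by omega)
  have hK1 := t3_K1 h (by omega) (by omega) hs hφ
  obtain ⟨i0, hi0, hi0k, hi0K⟩ := t3_K_nonempty h (by omega) (by omega) hs hφ
  have ubb := hφ.ub (i := b) (by omega) (by omega)
  have lbb := hφ.lb (i := b) (by omega) (by omega)
  have uba := hφ.ub (i := a) (by omega) (by omega)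
  have g1 := hφ.pos 1 le_rfl (by omega)
  have g3 := hφ.gap (i := b) (j := a) (by omega) (by omega) (by omega)
  have e1 := emb_red hG hφ h.h1a
  have s1 := hs (φ 1)
  have sa := hs (φ a)
  have hbb : φ b + 1 = b + k := by omega
  have hay : φ a + 1 = a + k := by omega
  have hi0a : i0 < b := by
    by_contra hcon
    have := hφ.gap (i := b) (j := i0) (by omega) (by omega) (by omega)
    omega
  have f1 := hφ.gap (i := i0) (j := b - 1) (by omega) (by omega) (by omega)
  have f2 := hφ.gap (i := b - 1) (j := b) (by omega) (by omega) (by omega)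
  refine ⟨fun i => 1 ≤ i ∧ i ≤ k ∧ b - 1 < φ i ∧ φ i + 1 ≤ b - 1 + k,
    ⟨by omega, by omega, by omega, by omega⟩, ?_, ?_⟩
  · rintro i ⟨hi1, hik, hi⟩
    by_contra hcon
    have := hφ.gap (i := b) (j := i) (by omega) (by omega) (by omega)
    omega
  · rintro i j ⟨hi1, hik, hi⟩ hij
    have rj := hG.rng _ _ (hG.symm _ _ hij)
    by_cases hja : j = a
    · exact Or.inr hja
    left
    have f1 := hφ.gap (i := 1) (j := j) le_rfl (by omega) (by omega)
    have er := emb_red hG hφ hij
    have si := hs (φ i)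
    have sj := hs (φ j)
    have hny : φ j ≠ φ a := by
      rcases lt_or_gt_of_ne hja with h1 | h1
      · exact (hφ.mono j a (by omega) h1 (by omega)).ne
      · exact (hφ.mono a j (by omega) h1 (by omega)).ne'
    refine ⟨by omega, by omega, ?_⟩
    unfold redC at er e1
    omega

theorem nt_F2 (h : NT G k a b p) (hnk : ¬ Killed G k) (J : ℕ → Prop) (hJ : J (b + 1))
    (hJr : ∀ i, J i → b < i ∧ i < a) (hJc : ∀ i j, J i → G i j → J j ∨ j = b) : False := by
  have hb := h.bounds
  have hG := h.og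
  obtain ⟨cls, hs, φ, hφ⟩ := exists_emb_T3 (c := b) (a := a) (p := p) hnk (by omega) (by omega)
    (by omega) (by omega)
  have hK1 := t3_K1 h (by omega) (by omega) hs hφ
  obtain ⟨i0, hi0, hi0k, hi0K⟩ := t3_K_nonempty h (by omega) (by omega) hs hφ
  have ubb := hφ.ub (i := b) (by omega) (by omega)
  have lbb := hφ.lb (i := b) (by omega) (by omega)
  have uba := hφ.ub (i := a) (by omega) (by omega)
  have hbb : φ b = b := by omega
  have hi0b : b < i0 := by
    by_contra hcon
    have := hφ.gap (i := i0) (j := b) (by omega) (by omega) (by omega)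
    omega
  have f1 := hφ.gap (i := b + 1) (j := i0) (by omega) (by omega) (by omega)
  have f2 := hφ.gap (i := b) (j := b + 1) (by omega) (by omega) (by omega)
  obtain ⟨i, j, hij, hi, hj⟩ := hG.conn (fun i => J i ∧ φ i + 1 ≤ b + k)
    ⟨b + 1, by omega, by omega, hJ, by omega⟩ ⟨1, by omega, by omega, fun hc => by
      have := (hJr 1 hc.1).1
      omega⟩
  have ri := hG.rng _ _ hij
  have rj := hG.rng _ _ (hG.symm _ _ hij)
  have hib := hJr i hi.1
  have f3 := hφ.gap (i := b) (j := i) (by omega) (by omega) (by omega)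
  have er := emb_red hG hφ hij
  have si := hs (φ i)
  have sj := hs (φ j)
  rcases hJc i j hi.1 hij with hJj | rfl
  · have hjb := hJr j hJj
    have f4 := hφ.gap (i := b) (j := j) (by omega) (by omega) (by omega)
    have f5 := hφ.gap (i := j) (j := a) (by omega) (by omega) (by omega)
    have hj' : ¬ (φ j + 1 ≤ b + k) := fun hc => hj ⟨hJj, hc⟩
    unfold redC at er
    omega
  · unfold redC at er
    omega

theorem nonTight (h : NT G k a b p) : Killed G k := by
  by_contra hnk
  have hb := h.bounds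
  have hG := h.og
  have hm := nt_mir h
  have hnkm : ¬ Killed (mir G k) k := fun hc => hnk (killed_mir hG hc)
  rcases nt_F0 hm hnkm with ⟨v, J, hv1, hvk, hJb, hJlt, hJcl⟩ | ⟨I, hI, hIr, hIc⟩
  · -- (I^)
    obtain ⟨R, hR, hRlt, hRcl⟩ := nt_F1 hm hnkm
    -- facts in original coordinates
    have hJ : ∀ i j, 1 ≤ i → i ≤ k → J (k + 1 - i) → G i j →
        (1 ≤ j ∧ j ≤ k ∧ J (k + 1 - j)) ∨ j = k ∨ j = k + 1 - v := by
      intro i j hi hik hJi hij
      have rj := hG.rng _ _ (hG.symm _ _ hij)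
      rcases hJcl _ _ hJi (mir_of hG hij) with h1 | h1 | h1
      · exact Or.inl ⟨rj.1, rj.2, h1⟩
      · right; left; omega
      · right; right; omega
    have hRc : ∀ i j, 1 ≤ i → i ≤ k → R (k + 1 - i) → G i j →
        (1 ≤ j ∧ j ≤ k ∧ R (k + 1 - j)) ∨ j = b := by
      intro i j hi hik hRi hij
      have rj := hG.rng _ _ (hG.symm _ _ hij)
      rcases hRcl _ _ hRi (mir_of hG hij) with h1 | h1
      · exact Or.inl ⟨rj.1, rj.2, h1⟩
      · right; omega
    have hRa : R (k + 1 - (a + 1)) := by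
      have e : k + 1 - (a + 1) = k + 1 - a - 1 := by omega
      rw [e]; exact hR
    have hRgt : ∀ i, 1 ≤ i → i ≤ k → R (k + 1 - i) → a < i := by
      intro i hi hik hRi
      have := hRlt _ hRi
      omega
    have hJlt' : ∀ i, 1 ≤ i → i ≤ k → J (k + 1 - i) → i < a := by
      intro i hi hik hJi
      have := hJlt _ hJi
      omega
    -- the only connection of R with the rest is b - k
    have hbR : ∀ r, G b r → 1 ≤ r → r ≤ k → R (k + 1 - r) → r = k := by
      intro r hbr hr hrk hRr
      have har := hRgt r hr hrk hRr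
      rcases hJ b r (by omega) (by omega) hJb hbr with h1 | h1 | h1
      · have := hJlt' r h1.1 h1.2.1 h1.2.2
        omega
      · exact h1
      · omega
    have hRk : R (k + 1 - k) := by
      obtain ⟨i, j, hij, hi, hj⟩ := hG.conn (fun i => R (k + 1 - i)) ⟨a + 1, by omega, by omega,
        hRa⟩ ⟨b, by omega, by omega, fun hc => by
          have := hRgt b (by omega) (by omega) hc
          omega⟩
      have ri := hG.rng _ _ hij
      rcases hRc i j ri.1 ri.2 hi hij with h1 | h1
      · exact absurd h1.2.2 hj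
      · subst h1
        have := hbR i (hG.symm _ _ hij) ri.1 ri.2 hi
        rw [this] at hi
        exact hi
    have hak : a + 1 = k := by
      by_contra hne
      -- R without k is closed
      obtain ⟨i, j, hij, hi, hj⟩ := hG.conn (fun i => R (k + 1 - i) ∧ i ≠ k) ⟨a + 1, by omega,
        by omega, hRa, hne⟩ ⟨b, by omega, by omega, fun hc => by
          have := hRgt b (by omega) (by omega) hc.1
          omega⟩
      have ri := hG.rng _ _ hij
      have rj := hG.rng _ _ (hG.symm _ _ hij)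
      have hai := hRgt i ri.1 ri.2 hi.1
      by_cases hjk : j = k
      · subst hjk
        have := h.sep a i h.h1a hij
        omega
      · rcases hRc i j ri.1 ri.2 hi.1 hij with h1 | h1
        · exact hj ⟨h1.2.2, hjk⟩
        · subst h1
          have := hbR i (hG.symm _ _ hij) ri.1 ri.2 hi.1
          exact hi.2 this
    rcases nt_F0 h hnk with ⟨v', J', hv1', hvk', -⟩ | ⟨I, hI, hIr, hIc⟩
    · omega
    · -- mirror F2
      apply nt_F2 hm hnkm (fun i => 1 ≤ i ∧ i ≤ k ∧ I (k + 1 - i))
      · refine ⟨by omega, by omega, ?_⟩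
        have e : k + 1 - (k + 1 - a + 1) = a - 1 := by omega
        rw [e]; exact hI
      · rintro i ⟨hi, hik, hIi⟩
        have := hIr _ hIi
        omega
      · rintro i j ⟨hi, hik, hIi⟩ hij
        have rj := (og_mir hG).rng _ _ ((og_mir hG).symm _ _ hij)
        rcases hIc _ _ hIi hij with h1 | h1
        · exact Or.inl ⟨rj.1, rj.2, h1⟩
        · right; omega
  · -- (II^)
    apply nt_F2 h hnk (fun i => 1 ≤ i ∧ i ≤ k ∧ I (k + 1 - i))
    · refine ⟨by omega, by omega, ?_⟩
      have e : k + 1 - (b + 1) = k + 1 - b - 1 := by omega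
      rw [e]; exact hI
    · rintro i ⟨hi, hik, hIi⟩
      have := hIr _ hIi
      omega
    · rintro i j ⟨hi, hik, hIi⟩ hij
      have rj := hG.rng _ _ (hG.symm _ _ hij)
      rcases hIc _ _ hIi (mir_of hG hij) with h1 | h1
      · exact Or.inl ⟨rj.1, rj.2, h1⟩
      · right; omega

end OG23
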