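import Pool.Agent.Lib_MP_23a060_co.Kill

/-! Tight case with `b` and `b + 1` adjacent. -/

namespace OG23

variable {G : ℕ → ℕ → Prop} {k : ℕ}

/-- existence of a 6-block word with given end positions and classes -/
theorem word6 (t1 t2 t3 t4 t5 c1 c2 c3 c4 c5 c6 : ℕ) (h12 : t1 ≤ t2) (h23 : t2 ≤ t3)
    (h34 : t3 ≤ t4) (h45 : t4 ≤ t5) :
    ∃ cls : ℕ → ℕ, ∀ p, (p ≤ t1 ∧ cls p = c1) ∨ (t1 < p ∧ p ≤ t2 ∧ cls p = c2) ∨
      (t2 < p ∧ p ≤ t3 ∧ cls p = c3) ∨ (t3 < p ∧ p ≤ t4 ∧ cls p = c4) ∨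
      (t4 < p ∧ p ≤ t5 ∧ cls p = c5) ∨ (t5 < p ∧ cls p = c6) := by
  refine ⟨fun p => if p ≤ t1 then c1 else if p ≤ t2 then c2 else if p ≤ t3 then c3 else
      if p ≤ t4 then c4 else if p ≤ t5 then c5 else c6, ?_⟩
  intro p; dsimp only; split_ifs <;> omega

theorem killedT2 (hG : OG G k) {b w w' : ℕ} (h1 : G 1 (b + 1)) (h2 : G b k) (h3 : G b (b + 1))
    (hw : G w w') (hb : 2 ≤ b) (hw1 : b + 1 ≤ w) (hww : w < w') (hwk : w' < k) : Killed G k := by
  -- C^{b-1} X^{w-1} x Y^{k-w} y C^{k-b-1}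
  obtain ⟨cls, hcls⟩ := word6 (b - 1) (b + w - 2) (b + w - 1) (b + k - 1) (b + k) 1 4 0 3 2 1
    (by omega) (by omega) (by omega) (by omega)
  refine ⟨cls, ?_, ?_⟩
  · intro p; have := hcls p; omega
  · intro φ hφ
    have e1 := emb_red hG hφ h1
    have e2 := emb_red hG hφ h2
    have e3 := emb_red hG hφ h3
    have e4 := emb_red hG hφ hw
    have g1 := hφ.pos 1 le_rfl (by omega)
    have g2 := hφ.gap (i := 1) (j := b) le_rfl (by omega) (by omega)
    have g3 := hφ.gap (i := b) (j := b + 1) (by omega) (by omega) (by omega)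
    have g4 := hφ.gap (i := b + 1) (j := w) (by omega) (by omega) (by omega)
    have g5 := hφ.gap (i := w) (j := w') (by omega) (by omega) (by omega)
    have g6 := hφ.gap (i := w') (j := k) (by omega) (by omega) (by omega)
    have g7 := hφ.le k (by omega) le_rfl
    have s1 := hcls (φ 1)
    have s2 := hcls (φ b)
    have s3 := hcls (φ (b + 1))
    have s4 := hcls (φ w)
    have s5 := hcls (φ w')
    have s6 := hcls (φ k)
    unfold redC at e1 e2 e3 e4
    omega

theorem killedLR (hG : OG G k) {b l r : ℕ} (h1 : G 1 (b + 1)) (h2 : G b k) (h3 : G b (b + 1))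
    (hl : G l r) (hl2 : 2 ≤ l) (hlb : l < b) (hr : b + 1 < r) (hrk : r < k) : Killed G k := by
  -- classes 0,2,3,4,0,1 sizes (b-1,b-1,2,k-a,1,k-a)
  obtain ⟨cls, hcls⟩ := word6 (b - 1) (2 * b - 2) (2 * b) (b + k - 1) (b + k) 0 2 3 4 0 1
    (by omega) (by omega) (by omega) (by omega)
  refine ⟨cls, ?_, ?_⟩
  · intro p; have := hcls p; omega
  · intro φ hφ
    have e1 := emb_red hG hφ h1
    have e2 := emb_red hG hφ h2
    have e3 := emb_red hG hφ h3
    have e4 := emb_red hG hφ hl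
    have g1 := hφ.pos 1 le_rfl (by omega)
    have g2 := hφ.gap (i := 1) (j := l) le_rfl (by omega) (by omega)
    have g3 := hφ.gap (i := l) (j := b) (by omega) (by omega) (by omega)
    have g4 := hφ.gap (i := b) (j := b + 1) (by omega) (by omega) (by omega)
    have g5 := hφ.gap (i := b + 1) (j := r) (by omega) (by omega) (by omega)
    have g6 := hφ.gap (i := r) (j := k) (by omega) (by omega) (by omega)
    have g7 := hφ.le k (by omega) le_rfl
    have s1 := hcls (φ 1)
    have s2 := hcls (φ l)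
    have s3 := hcls (φ b)
    have s4 := hcls (φ (b + 1))
    have s5 := hcls (φ r)
    have s6 := hcls (φ k)
    unfold redC at e1 e2 e3 e4
    omega

theorem tightAB (hG : OG G k) {b : ℕ} (hb : 2 ≤ b) (hbk : b + 1 < k) (h1 : G 1 (b + 1))
    (h2 : G b k) (h3 : G b (b + 1)) (hN1 : ∀ i, G 1 i → i = b + 1) (hNk : ∀ i, G i k → i = b)
    (hnk : ¬ Killed G k) : DShape G k := by
  refine ⟨b, by omega, by omega, ?_⟩
  intro i j hij hlt
  have ri := hG.rng _ _ hij
  have rj := hG.rng _ _ (hG.symm _ _ hij)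
  by_contra hcon
  have hi1 : i ≠ 1 := by
    rintro rfl
    have := hN1 j hij
    omega
  have hjk : j ≠ k := by
    rintro rfl
    have := hNk i hij
    omega
  apply hnk
  by_cases c1 : b + 1 ≤ i
  · exact killedT2 hG h1 h2 h3 hij hb c1 hlt (by omega)
  by_cases c2 : j ≤ b
  · -- mirror
    apply killed_mir hG
    refine killedT2 (og_mir hG) (b := k - b) (w := k + 1 - j) (w' := k + 1 - i) ?_ ?_ ?_
      (mir_of hG (hG.symm _ _ hij)) (by omega) (by omega) (by omega) (by omega)
    · show G (k + 1 - 1) (k + 1 - (k - b + 1))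
      have e1 : k + 1 - 1 = k := by omega
      have e2 : k + 1 - (k - b + 1) = b := by omega
      rw [e1, e2]
      exact hG.symm _ _ h2
    · show G (k + 1 - (k - b)) (k + 1 - k)
      have e1 : k + 1 - k = 1 := by omega
      have e2 : k + 1 - (k - b) = b + 1 := by omega
      rw [e1, e2]
      exact hG.symm _ _ h1
    · show G (k + 1 - (k - b)) (k + 1 - (k - b + 1))
      have e1 : k + 1 - (k - b + 1) = b := by omega
      have e2 : k + 1 - (k - b) = b + 1 := by omega
      rw [e1, e2]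
      exact hG.symm _ _ h3
  · exact killedLR hG h1 h2 h3 hij (by omega) (by omega) (by omega) (by omega)

end OG23
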