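import Pool.Agent.Lib_MP_23a060_co.TightNoAB

/-! The tight case with `b` and `b + 1` not adjacent: end of the proof. -/

namespace OG23

variable {G : ℕ → ℕ → Prop} {k b w p : ℕ}

/-- no right neighbour of `b + 1` is connected with `b` outside `b + 1` -/
theorem tn_alpha (h : TN G k b) (hnk : ¬ Killed G k) (z : ℕ) (hz : b + 1 < z)
    (haz : G (b + 1) z) : ¬ Reach (fun i => i ≠ b + 1) G b z := by
  have hb := h.hb
  have hbk := h.hbk
  intro hr
  rcases tLemma (w := b + 1) (p := 0) h hnk (by omega) (by omega) (by omega) with h1 | h1 | h1 | h1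
  · obtain ⟨U, m, hUb, hUc, -, -, hU⟩ := h1
    exact hU z hz (hr U hUb (fun i j hi hij hj => hUc i j hi hij hj)) haz
  · omega
  · omega
  · obtain ⟨v, m, hv, hvw, -⟩ := h1
    omega

theorem tn_beta (h : TN G k b) (hnk : ¬ Killed G k) (z : ℕ) (hz : z < b)
    (hbz : G b z) : ¬ Reach (fun i => i ≠ b) G (b + 1) z := by
  have hb := h.hb
  have hbk := h.hbk
  have hG := h.og
  intro hr
  have rz := hG.rng _ _ (hG.symm _ _ hbz)
  have hnkm : ¬ Killed (mir G k) k := fun hc => hnk (killed_mir hG hc)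
  have e1 : k + 1 - (k - b) = b + 1 := by omega
  have e2 : k - b + 1 = k + 1 - b := by omega
  apply tn_alpha (tn_mir h) hnkm (k + 1 - z) (by omega)
  · rw [e2]; exact mir_of hG hbz
  · intro U hU hcl
    have := hr (fun i => 1 ≤ i ∧ i ≤ k ∧ U (k + 1 - i)) ⟨by omega, by omega, by
      have e3 : k + 1 - (b + 1) = k - b := by omega
      rw [e3]; exact hU⟩ (by
      rintro i j ⟨hi1, hik, hi⟩ hij hj
      have rj := hG.rng _ _ (hG.symm _ _ hij)
      exact ⟨rj.1, rj.2, hcl _ _ hi (mir_of hG hij) (by omega)⟩)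
    exact this.2.2

/-- a left neighbour of `b + 1` connected with `b` outside `b + 1` -/
theorem tn_TL (h : TN G k b) (hnk : ¬ Killed G k) :
    ∃ z, 2 ≤ z ∧ z < b ∧ G (b + 1) z ∧ Reach (fun i => i ≠ b + 1) G b z := by
  have hb := h.hb
  have hbk := h.hbk
  have hG := h.og
  obtain ⟨i, j, hij, hi, hj⟩ := hG.conn (fun i => Reach (fun i => i ≠ b + 1) G b i)
    ⟨b, by omega, by omega, Reach.refl b⟩ ⟨b + 1, by omega, by omega, fun hc => by
      have := Reach.prop (P := fun i => i ≠ b + 1) (by omega : b ≠ b + 1) hc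
      exact this rfl⟩
  have ri := hG.rng _ _ hij
  have hja : j = b + 1 := by
    by_contra hne
    exact hj (hi.step hij hne)
  subst hja
  have hi1 : i ≠ 1 := by
    rintro rfl
    have := hi (fun i => i ≠ 1 ∧ i ≠ b + 1) ⟨by omega, by omega⟩ (by
      rintro i j ⟨hi1, hia⟩ hij' hj'
      refine ⟨?_, hj'⟩
      rintro rfl
      exact hia (h.n1' i (hG.symm _ _ hij')))
    exact this.1 rfl
  have hib : i ≠ b := by
    rintro rfl
    exact h.nab hij
  have hia : i ≠ b + 1 := by
    rintro rfl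
    exact hG.irr _ hij
  refine ⟨i, by omega, ?_, hG.symm _ _ hij, hi⟩
  by_contra hcon
  exact tn_alpha h hnk i (by omega) (hG.symm _ _ hij) hi

/-- a right neighbour of `b` -/
theorem tn_TR (h : TN G k b) (hnk : ¬ Killed G k) :
    ∃ s, b + 1 < s ∧ s < k ∧ G b s := by
  have hb := h.hb
  have hbk := h.hbk
  have hG := h.og
  have hnkm : ¬ Killed (mir G k) k := fun hc => hnk (killed_mir hG hc)
  obtain ⟨z, hz2, hzb, hz, -⟩ := tn_TL (tn_mir h) hnkm
  refine ⟨k + 1 - z, by omega, by omega, ?_⟩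
  have e : k + 1 - (k - b + 1) = b := by omega
  rw [mir_iff, e] at hz
  exact hz

theorem tightNoAB (h : TN G k b) : Killed G k := by
  classical
  by_contra hnk
  have hb := h.hb
  have hbk := h.hbk
  have hG := h.og
  obtain ⟨s, hs, hsk, hbs⟩ := tn_TR h hnk
  have hex : ∃ z, b + 1 < z ∧ z < k ∧ Reach (fun i => i ≠ b + 1) G b z :=
    ⟨s, hs, hsk, (Reach.refl b).step hbs (by omega)⟩
  -- the leftmost vertex right of `b + 1` connected with `b`
  obtain ⟨μ, ⟨hμ1, hμk, hμ⟩, hμmin⟩ : ∃ μ, (b + 1 < μ ∧ μ < k ∧ Reach (fun i => i ≠ b + 1) G b μ) ∧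
      ∀ z, (b + 1 < z ∧ z < k ∧ Reach (fun i => i ≠ b + 1) G b z) → μ ≤ z :=
    ⟨Nat.find hex, Nat.find_spec hex, fun z hz => Nat.find_min' hex hz⟩
  obtain ⟨z, hz2, hzb, haz, hbz⟩ := tn_TL h hnk
  -- a crossing edge
  obtain ⟨l0, w0, hl0, hl0b, hw0, hw0k, hlw⟩ : ∃ l0 w0, 2 ≤ l0 ∧ l0 < b ∧ μ ≤ w0 ∧ w0 < k ∧
      G l0 w0 := by
    by_contra hcon
    -- vertices of `[2, b)` connected with `z` inside `[2, b)`
    let Q : ℕ → Prop := fun i => Reach (fun i => 2 ≤ i ∧ i < b) G z i
    have hQr : ∀ i, Q i → 2 ≤ i ∧ i < b := fun i hi => Reach.prop (P := fun i => 2 ≤ i ∧ i < b)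
      ⟨hz2, hzb⟩ hi
    have hQb : ∀ i, Q i → Reach (fun i => i ≠ b + 1) G b i := fun i hi =>
      hbz.trans (hi.mono (fun j hj => by omega))
    have hQa : ∀ i, Q i → Reach (fun i => i ≠ b) G (b + 1) i := fun i hi =>
      ((Reach.refl (b + 1)).step (P := fun i => i ≠ b) haz (by omega)).trans
        (hi.mono (fun j hj => by omega))
    have hQc : ∀ i j, Q i → G i j → j ≠ b + 1 → Q j := by
      intro i j hi hij hj
      have hir := hQr i hi
      have rj := hG.rng _ _ (hG.symm _ _ hij)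
      have hj1 : j ≠ 1 := by
        rintro rfl
        have := h.n1' i (hG.symm _ _ hij)
        omega
      have hjk : j ≠ k := by
        rintro rfl
        have := h.nk' i hij
        omega
      have hjb : j ≠ b := by
        rintro rfl
        exact tn_beta h hnk i (by omega) (hG.symm _ _ hij) (hQa i hi)
      by_cases hjlt : j < b
      · exact hi.step hij ⟨by omega, hjlt⟩
      · exfalso
        have hjR : Reach (fun i => i ≠ b + 1) G b j := (hQb i hi).step hij hj
        have := hμmin j ⟨by omega, by omega, hjR⟩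
        exact hcon ⟨i, j, hir.1, hir.2, this, by omega, hij⟩
    have hbb := (Reach.symm' (P := fun i => i ≠ b + 1) hG.symm (by omega : b ≠ b + 1) hbz) Q
      (Reach.refl z) hQc
    have := hQr b hbb
    omega
  -- the word for the crossing edge
  obtain ⟨l, v, m, hl2, hlb, hav, hvm, hmk, hwm, hD, hNv⟩ : OutF1 G k b w0 := by
    rcases tLemma (w := w0) (p := l0) h hnk (by omega) (by omega) (by omega) with
      h1 | h1 | h1 | h1
    · exfalso
      obtain ⟨U, m, hUb, hUc, hwm, hUz, -⟩ := h1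
      have hUμ := hμ U hUb (fun i j hi hij hj => hUc i j hi hij hj)
      have := (hUz μ (by omega) (by omega)).1 hUμ
      omega
    · exact h1.2
    · exfalso
      exact h1.2 z haz ⟨hz2, hzb⟩
    · exfalso
      obtain ⟨v, m, hv, hvw, -, -, -, hN⟩ := h1
      have := hN l0 (hG.symm _ _ hlw)
      omega
  -- `v ≥ μ`
  have hμv : μ ≤ v := by
    by_contra hcon
    have hvb : Reach (fun i => i ≠ b + 1) G b v := by
      by_contra hnv
      -- the set D1 is closed outside b+1, so b ∈ D1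
      have := (Reach.symm' (P := fun i => i ≠ b + 1) hG.symm (by omega : b ≠ b + 1) hμ)
        (fun i => ((2 ≤ i ∧ i ≤ l) ∨ (v < i ∧ i ≤ m)) ∧ Reach (fun i => i ≠ b + 1) G b i)
        ⟨Or.inr ⟨by omega, by omega⟩, hμ⟩ (by
          rintro i j ⟨hi, hib⟩ hij hj
          have hjb := hib.step hij hj
          rcases hD i j hi hij with h1 | h1 | h1
          · exact ⟨Or.inl h1, hjb⟩
          · exact ⟨Or.inr h1, hjb⟩
          · subst h1
            exact absurd hjb hnv)
      omega
    have := hμmin v ⟨by omega, by omega, hvb⟩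
    omega
  -- a neighbour `u` of `v` in `(b + 1, v)`
  obtain ⟨u, hvu, hau, huv⟩ : ∃ u, G v u ∧ b + 1 < u ∧ u < v := by
    by_contra hcon
    obtain ⟨i, j, hij, hi, hj⟩ := hG.conn (fun i => (2 ≤ i ∧ i ≤ l) ∨ (v < i ∧ i ≤ m) ∨ i = v)
      ⟨v, by omega, by omega, by omega⟩ ⟨1, by omega, by omega, by omega⟩
    by_cases hiv : i = v
    · subst hiv
      rcases hNv j hij with h1 | h1 | h1
      · exact hj (Or.inl h1)
      · exact hj (Or.inr (Or.inl h1))
      · exact hcon ⟨j, hij, h1.1, h1.2⟩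
    · exact hj (hD i j (by omega) hij)
  rcases tLemma (w := u) (p := 0) h hnk (by omega) (by omega) (by omega) with h1 | h1 | h1 | h1
  · obtain ⟨U, m', hUb, hUc, hwm', hUz, -⟩ := h1
    have hUμ := hμ U hUb (fun i j hi hij hj => hUc i j hi hij hj)
    have h2 := (hUz μ (by omega) (by omega)).1 hUμ
    have h3 := (hUz v (by omega) (by omega)).2 (by omega)
    have h4 := hUc v u h3 hvu (by omega)
    have h5 := (hUz u (by omega) (by omega)).1 h4
    omega
  · omega
  · omega
  · obtain ⟨v', m', hv', hvw', hwm', hmk', hE, hN⟩ := h1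
    have h2 := hN v (hG.symm _ _ hvu)
    have h3 : v' ≤ v ∧ v ≤ m' := by omega
    obtain ⟨i, j, hij, hi, hj⟩ := hG.conn
      (fun i => ((2 ≤ i ∧ i ≤ l) ∨ (v < i ∧ i ≤ m)) ∧ ¬ (v' < i ∧ i ≤ m'))
      ⟨2, by omega, by omega, by omega⟩ ⟨1, by omega, by omega, by omega⟩
    have h4 := hD i j hi.1 hij
    by_cases hjv : j = v
    · subst hjv
      have h5 := hE j i (by omega) h3.2 (hG.symm _ _ hij)
      have h6 : i = v' := by omega
      omega
    · have h5 : v' < j ∧ j ≤ m' := by
        by_contra hc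
        exact hj ⟨by omega, hc⟩
      have h6 := hE j i h5.1 h5.2 (hG.symm _ _ hij)
      omega

end OG23
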