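import Pool.Agent.Lib_MP_23a060_co.Case1
import Pool.Agent.Lib_MP_23a060_co.NonTight
import Pool.Agent.Lib_MP_23a060_co.TightAB
import Pool.Agent.Lib_MP_23a060_co.TightNoAB2

/-! Irreducible graphs that are not killed by a word are (subgraphs of) double stars. -/

namespace OG23

variable {G : ℕ → ℕ → Prop} {k : ℕ}

theorem L3 (hG : OG G k) (hk : 2 ≤ k) (hirr : Irred G k) (hnk : ¬ Killed G k) : DShape G k := by
  by_cases hk2 : k = 2
  · refine ⟨1, le_rfl, by omega, ?_⟩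
    intro i j hij hlt
    have ri := hG.rng _ _ hij
    have rj := hG.rng _ _ (hG.symm _ _ hij)
    right; omega
  by_cases h0 : G 1 k
  · exact case1 hG hirr (by omega) h0 hnk
  have sep : ∀ i j, G 1 i → G j k → j < i := by
    intro i j hi hj
    by_contra hcon
    have ri := hG.rng _ _ (hG.symm _ _ hi)
    have rj := hG.rng _ _ hj
    have hi1 : i ≠ 1 := by rintro rfl; exact hG.irr _ hi
    have hjk : j ≠ k := by rintro rfl; exact hG.irr _ hj
    exact hnk (killedA hG hirr hi hj (by omega) (by omega) (by omega))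
  obtain ⟨a, b, ha, hb, hab⟩ : ∃ a b, G 1 a ∧ G b k ∧ Reach (fun i => i ≠ 1 ∧ i ≠ k) G a b := by
    by_contra hcon
    have hP : ∀ a, G 1 a → (a ≠ 1 ∧ a ≠ k) := by
      intro a ha
      refine ⟨?_, ?_⟩
      · rintro rfl; exact hG.irr _ ha
      · rintro rfl; exact h0 ha
    obtain ⟨i, j, hij, hi, hj⟩ := hG.conn
      (fun i => i = 1 ∨ ∃ a, G 1 a ∧ Reach (fun i => i ≠ 1 ∧ i ≠ k) G a i)
      ⟨1, le_rfl, by omega, Or.inl rfl⟩ ⟨k, by omega, le_rfl, by
        rintro (hc | ⟨a, ha, hr⟩)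
        · omega
        · have := Reach.prop (P := fun i => i ≠ 1 ∧ i ≠ k) (hP a ha) hr
          exact this.2 rfl⟩
    rcases hi with rfl | ⟨a, ha, hr⟩
    · exact hj (Or.inr ⟨j, hij, Reach.refl j⟩)
    · by_cases hj1 : j = 1
      · exact hj (Or.inl hj1)
      by_cases hjk : j = k
      · subst hjk
        exact hcon ⟨a, i, ha, hij, hr⟩
      · exact hj (Or.inr ⟨a, ha, hr.step hij ⟨hj1, hjk⟩⟩)
  have ra := hG.rng _ _ (hG.symm _ _ ha)
  have rb := hG.rng _ _ hb
  have ha1 : a ≠ 1 := by rintro rfl; exact hG.irr _ ha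
  have hak : a ≠ k := by rintro rfl; exact h0 ha
  have hb1 : b ≠ 1 := by rintro rfl; exact h0 hb
  have hba := sep a b ha hb
  by_cases hnt : ∃ a1 b0, G 1 a1 ∧ G b0 k ∧ b0 + 2 ≤ a1
  · exfalso
    obtain ⟨a1, b0, ha1, hb0, hle⟩ := hnt
    exact hnk (nonTight (a := a) (b := b) (p := b0) ⟨hG, ha, hb, h0, sep,
      Reach.symm' (P := fun i => i ≠ 1 ∧ i ≠ k) hG.symm ⟨by omega, by omega⟩ hab,
      ⟨a1, ha1, hle⟩, ⟨b0, hb0, le_rfl⟩⟩)
  push Not at hnt
  have hN1 : ∀ i, G 1 i → i = b + 1 := by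
    intro i hi
    have h1 := hnt i b hi hb
    have h2 := sep i b hi hb
    omega
  have hNk : ∀ i, G i k → i = b := by
    intro i hi
    have h1 := hnt a i ha hi
    have h2 := sep a i ha hi
    have h3 := hN1 a ha
    omega
  have hab1 := hN1 a ha
  subst hab1
  by_cases h3 : G b (b + 1)
  · exact tightAB hG (by omega) (by omega) ha hb h3 hN1 hNk hnk
  · exact absurd (tightNoAB (b := b) ⟨hG, by omega, by omega, ha, hN1, hb, hNk, h3⟩) hnk

end OG23
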