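import Pool.Agent.Lib_MP_23a060_co.Kill

/-! The tight case with `b` and `b + 1` not adjacent. -/

namespace OG23

variable {G : ℕ → ℕ → Prop} {k b w p : ℕ} {cls φ : ℕ → ℕ}

structure TN (G : ℕ → ℕ → Prop) (k b : ℕ) : Prop where
  og : OG G k
  hb : 2 ≤ b
  hbk : b + 2 ≤ k
  n1 : G 1 (b + 1)
  n1' : ∀ i, G 1 i → i = b + 1
  nk : G b k
  nk' : ∀ i, G i k → i = b
  nab : ¬ G b (b + 1)

theorem tn_mir (h : TN G k b) : TN (mir G k) k (k - b) := by
  have hb := h.hb
  have hbk := h.hbk
  have hG := h.og
  have e1 : k + 1 - 1 = k := by omega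
  have ek : k + 1 - k = 1 := by omega
  have eb : k + 1 - (k - b) = b + 1 := by omega
  have eb' : k + 1 - (k - b + 1) = b := by omega
  refine ⟨og_mir hG, by omega, by omega, ?_, ?_, ?_, ?_, ?_⟩
  · rw [mir_iff, e1, eb']; exact hG.symm _ _ h.nk
  · intro i hi
    have r := (og_mir hG).rng _ _ ((og_mir hG).symm _ _ hi)
    rw [mir_iff, e1] at hi
    have := h.nk' _ (hG.symm _ _ hi)
    omega
  · rw [mir_iff, ek, eb]; exact hG.symm _ _ h.n1
  · intro i hi
    have r := (og_mir hG).rng _ _ hi
    rw [mir_iff, ek] at hi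
    have := h.n1' _ (hG.symm _ _ hi)
    omega
  · intro hc
    rw [mir_iff, eb, eb'] at hc
    exact h.nab (hG.symm _ _ hc)

/-- the word `x; C^{b-1}; X^p; Y^{w-1-p}; y; C^{k-b-1}; X^{k-w}` -/
def SpecT (cls : ℕ → ℕ) (k b w p : ℕ) : Prop := ∀ q,
  (q ≤ 1 ∧ cls q = 0) ∨ (1 < q ∧ q ≤ b ∧ cls q = 1) ∨ (b < q ∧ q ≤ b + p ∧ cls q = 4) ∨
  (b + p < q ∧ q < b + w ∧ cls q = 3) ∨ (q = b + w ∧ cls q = 2) ∨
  (b + w < q ∧ q < w + k ∧ cls q = 1) ∨ (w + k ≤ q ∧ cls q = 4)

theorem exists_specT (hb : 2 ≤ b) (hbw : b + 1 ≤ w) (hp : p + 1 ≤ b) (hbk : b + 2 ≤ k) :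
    ∃ cls, SpecT cls k b w p := by
  refine ⟨fun q => if q ≤ 1 then 0 else if q ≤ b then 1 else if q ≤ b + p then 4 else
    if q < b + w then 3 else if q = b + w then 2 else if q < w + k then 1 else 4, ?_⟩
  intro q; dsimp only; split_ifs <;> omega

theorem exists_emb_T (hnk : ¬ Killed G k) (hb : 2 ≤ b) (hbw : b + 1 ≤ w) (hp : p + 1 ≤ b)
    (hbk : b + 2 ≤ k) :
    ∃ cls, SpecT cls k b w p ∧ ∃ φ, Emb G k (fun p q => redC (cls p) (cls q)) (2 * k - 1) φ := by
  obtain ⟨cls, hcls⟩ := exists_specT (p := p) hb hbw hp hbk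
  refine ⟨cls, hcls, ?_⟩
  by_contra hcon
  push Not at hcon
  exact hnk ⟨cls, fun q => by have := hcls q; omega, hcon⟩

def OutE1 (G : ℕ → ℕ → Prop) (k b w : ℕ) : Prop :=
  ∃ (U : ℕ → Prop) (m : ℕ), U b ∧ (∀ i j, U i → G i j → j ≠ b + 1 → U j) ∧ w ≤ m ∧
    (∀ z, b + 1 < z → z ≤ k → (U z ↔ m < z)) ∧ (∀ z, b + 1 < z → U z → ¬ G (b + 1) z)

def OutF1 (G : ℕ → ℕ → Prop) (k b w : ℕ) : Prop :=
  ∃ l v m : ℕ, 2 ≤ l ∧ l < b ∧ b + 1 < v ∧ v ≤ m ∧ m < k ∧ w ≤ m ∧
    (∀ i j, (2 ≤ i ∧ i ≤ l) ∨ (v < i ∧ i ≤ m) → G i j →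
      (2 ≤ j ∧ j ≤ l) ∨ (v < j ∧ j ≤ m) ∨ j = v) ∧
    (∀ j, G v j → (2 ≤ j ∧ j ≤ l) ∨ (v < j ∧ j ≤ m) ∨ (b + 1 < j ∧ j < v))

def OutE2 (G : ℕ → ℕ → Prop) (k b w p : ℕ) : Prop :=
  ∃ v m : ℕ, b + 1 < v ∧ v ≤ w ∧ w ≤ m ∧ m < k ∧
    (∀ i j, v < i → i ≤ m → G i j → v ≤ j ∧ j ≤ m) ∧
    (∀ j, G w j → (v ≤ j ∧ j ≤ m) ∨ (p < j ∧ j < w))

theorem tLemma (h : TN G k b) (hnk : ¬ Killed G k) (hbw : b + 1 ≤ w) (hwk : w + 1 ≤ k)
    (hp : p + 1 ≤ b) :
    OutE1 G k b w ∨ (1 ≤ p ∧ OutF1 G k b w) ∨
      (1 ≤ p ∧ ∀ j, G (b + 1) j → ¬ (2 ≤ j ∧ j < b)) ∨ OutE2 G k b w p := by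
  have hb := h.hb
  have hbk := h.hbk
  have hG := h.og
  obtain ⟨cls, hs, φ, hφ⟩ := exists_emb_T (p := p) (w := w) hnk hb hbw hp hbk
  have e1 := emb_red hG hφ h.n1
  have e2 := emb_red hG hφ h.nk
  have s1 := hs (φ 1)
  have sa := hs (φ (b + 1))
  have sb := hs (φ b)
  have sk := hs (φ k)
  have g1 := hφ.pos 1 le_rfl (by omega)
  have g2 := hφ.gap (i := 1) (j := b) le_rfl (by omega) (by omega)
  have g3 := hφ.gap (i := b) (j := b + 1) (by omega) (by omega) (by omega)
  have g4 := hφ.gap (i := b + 1) (j := k) (by omega) (by omega) (by omega)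
  have g5 := hφ.le k (by omega) le_rfl
  have uw := hφ.ub (i := w) (by omega) (by omega)
  have ub' := hφ.ub (i := b) (by omega) (by omega)
  have ua' := hφ.ub (i := b + 1) (by omega) (by omega)
  have key : (φ 1 = 1 ∧ b < φ b ∧ φ (b + 1) ≤ b + p ∧ (w + k ≤ φ k ∨ φ k < b + w)) ∨
      (φ b ≤ b ∧ φ (b + 1) ≤ b + p) ∨
      (b < φ b ∧ φ (b + 1) = b + w ∧ w + k ≤ φ k) ∨
      (b < φ b ∧ φ b < b + w ∧ b + w < φ (b + 1) ∧ φ (b + 1) < w + k ∧ w + k ≤ φ k) ∨
      (b < φ 1 ∧ φ (b + 1) < b + w ∧ w + k ≤ φ k) := by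
    unfold redC at e1 e2
    omega
  obtain ⟨m, hmk, hm⟩ := hφ.cut (w + k - 1)
  have hwm : w ≤ m := (hm w (by omega) (by omega)).1 (by omega)
  obtain ⟨q, hqk, hq⟩ := hφ.cut (b + w - 1)
  have hinj : ∀ i j, 1 ≤ i → i ≤ k → 1 ≤ j → j ≤ k → φ i = φ j → i = j := by
    intro i j hi hik hj hjk he
    rcases lt_trichotomy i j with h1 | h1 | h1
    · have := hφ.mono i j hi h1 hjk
      omega
    · exact h1
    · have := hφ.mono j i hj h1 hik
      omega
  rcases key with ⟨hx, hφb, hφa, hφk⟩ | ⟨hφb, hφa⟩ | ⟨hφb, hφa, hφk⟩ | ⟨hφb, hφb', hφa, hφa', hφk⟩ |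
    ⟨hφ1, hφa, hφk⟩
  · -- outcome F1
    right; left
    refine ⟨by omega, ?_⟩
    obtain ⟨l, hlk, hl⟩ := hφ.cut b
    have hlb : l < b := by
      by_contra hcon
      have := (hl b (by omega) (by omega)).2 (by omega)
      omega
    have hl1 : ¬ φ (l + 1) ≤ b := fun hc => by
      have := (hl (l + 1) (by omega) (by omega)).1 hc
      omega
    have f1 := hφ.gap (i := l + 1) (j := b + 1) (by omega) (by omega) (by omega)
    have hl2 : 2 ≤ l := by omega
    have hφk : w + k ≤ φ k := by
      by_contra hcon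
      have hφk' : φ k < b + w := by omega
      obtain ⟨i, j, hij, hi, hj⟩ := hG.conn (fun i => 2 ≤ i ∧ i ≤ l) ⟨2, by omega, by omega,
        by omega, by omega⟩ ⟨1, by omega, by omega, by omega⟩
      have ri := hG.rng _ _ hij
      have rj := hG.rng _ _ (hG.symm _ _ hij)
      have f2 := (hl i (by omega) (by omega)).2 hi.2
      have f3 := hφ.gap (i := 1) (j := i) le_rfl (by omega) (by omega)
      by_cases hj1 : j = 1
      · subst hj1
        have := h.n1' i (hG.symm _ _ hij)
        omega
      · have f4 : ¬ φ j ≤ b := fun hc => by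
          have := (hl j (by omega) (by omega)).1 hc
          omega
        have f5 := hφ.gap (i := j) (j := k) (by omega) (by omega) (by omega)
        have er := emb_red hG hφ hij
        have si := hs (φ i)
        have sj := hs (φ j)
        unfold redC at er
        omega
    have hmk' : m < k := by
      by_contra hcon
      have := (hm k (by omega) (by omega)).2 (by omega)
      omega
    have haq : b + 1 ≤ q := (hq (b + 1) (by omega) (by omega)).1 (by omega)
    have hqm : q < m := by
      by_contra hcon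
      -- no C2 vertices and no y : then [2..l] closed
      have hqk' : ¬ q = k := by
        rintro rfl
        have := (hq q (by omega) (by omega)).2 le_rfl
        omega
      obtain ⟨i, j, hij, hi, hj⟩ := hG.conn (fun i => 2 ≤ i ∧ i ≤ l) ⟨2, by omega, by omega,
        by omega, by omega⟩ ⟨1, by omega, by omega, by omega⟩
      have ri := hG.rng _ _ hij
      have rj := hG.rng _ _ (hG.symm _ _ hij)
      have f2 := (hl i (by omega) (by omega)).2 hi.2
      have f3 := hφ.gap (i := 1) (j := i) le_rfl (by omega) (by omega)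
      by_cases hj1 : j = 1
      · subst hj1
        have := h.n1' i (hG.symm _ _ hij)
        omega
      · have f4 : ¬ φ j ≤ b := fun hc => by
          have := (hl j (by omega) (by omega)).1 hc
          omega
        have f5 := hq j rj.1 rj.2
        have f6 := hm j rj.1 rj.2
        have er := emb_red hG hφ hij
        have si := hs (φ i)
        have sj := hs (φ j)
        unfold redC at er
        omega
    have hq1 : ¬ φ (q + 1) ≤ b + w - 1 := fun hc => by
      have := (hq (q + 1) (by omega) (by omega)).1 hc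
      omega
    have hv : φ (q + 1) = b + w := by
      by_contra hne
      obtain ⟨i, j, hij, hi, hj⟩ := hG.conn (fun i => (2 ≤ i ∧ i ≤ l) ∨ (q < i ∧ i ≤ m))
        ⟨2, by omega, by omega, by omega⟩ ⟨1, by omega, by omega, by omega⟩
      have ri := hG.rng _ _ hij
      have rj := hG.rng _ _ (hG.symm _ _ hij)
      have fi1 := hl i ri.1 ri.2
      have fi2 := hq i ri.1 ri.2
      have fi3 := hm i ri.1 ri.2
      have fj1 := hl j rj.1 rj.2
      have fj2 := hq j rj.1 rj.2
      have fj3 := hm j rj.1 rj.2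
      by_cases hj1 : j = 1
      · subst hj1
        have := h.n1' i (hG.symm _ _ hij)
        omega
      · have f3 : i ≠ 1 := by omega
        have f4 := hφ.gap (i := 1) (j := i) le_rfl (by omega) (by omega)
        have f4' := hφ.gap (i := 1) (j := j) le_rfl (by omega) (by omega)
        have fiq : q < i → b + w < φ i := fun hqi => by
          have := hφ.gap (i := q + 1) (j := i) (by omega) (by omega) (by omega)
          omega
        have fjq : q < j → b + w < φ j := fun hqj => by
          have := hφ.gap (i := q + 1) (j := j) (by omega) (by omega) (by omega)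
          omega
        have er := emb_red hG hφ hij
        have si := hs (φ i)
        have sj := hs (φ j)
        unfold redC at er
        omega
    refine ⟨l, q + 1, m, hl2, hlb, by omega, by omega, hmk', hwm, ?_, ?_⟩
    · intro i j hi hij
      have ri := hG.rng _ _ hij
      have rj := hG.rng _ _ (hG.symm _ _ hij)
      have fi1 := hl i ri.1 ri.2
      have fi2 := hq i ri.1 ri.2
      have fi3 := hm i ri.1 ri.2
      have fj1 := hl j rj.1 rj.2
      have fj2 := hq j rj.1 rj.2
      have fj3 := hm j rj.1 rj.2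
      have hj1 : j ≠ 1 := by
        rintro rfl
        have := h.n1' i (hG.symm _ _ hij)
        omega
      by_cases hjv : j = q + 1
      · exact Or.inr (Or.inr hjv)
      have hjv' : φ j ≠ b + w := fun hc => hjv (hinj _ _ rj.1 rj.2 (by omega) (by omega) (by omega))
      have hiv' : φ i ≠ b + w := fun hc => by
        have := hinj i (q + 1) ri.1 ri.2 (by omega) (by omega) (by omega)
        omega
      have f4 := hφ.gap (i := 1) (j := i) le_rfl (by omega) (by omega)
      have f4' := hφ.gap (i := 1) (j := j) le_rfl (by omega) (by omega)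
      have er := emb_red hG hφ hij
      have si := hs (φ i)
      have sj := hs (φ j)
      unfold redC at er
      omega
    · intro j hij
      have rj := hG.rng _ _ (hG.symm _ _ hij)
      have fj1 := hl j rj.1 rj.2
      have fj2 := hq j rj.1 rj.2
      have fj3 := hm j rj.1 rj.2
      have hjv : j ≠ q + 1 := by rintro rfl; exact hG.irr _ hij
      have hj1 : j ≠ 1 := by
        rintro rfl
        have := h.n1' _ (hG.symm _ _ hij)
        omega
      have hjv' : φ j ≠ b + w := fun hc => hjv (hinj _ _ rj.1 rj.2 (by omega) (by omega) (by omega))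
      have er := emb_red hG hφ hij
      have si := hs (φ (q + 1))
      have sj := hs (φ j)
      have hja : ¬ (j ≤ b + 1 ∧ b + p < φ j) := by
        rintro ⟨hc1, hc2⟩
        have := hφ.gap (i := j) (j := b + 1) (by omega) hc1 (by omega)
        omega
      unfold redC at er
      omega
  · -- outcome F2
    right; right; left
    refine ⟨by omega, ?_⟩
    intro j hj hc
    have er := emb_red hG hφ hj
    have f1 := hφ.gap (i := 1) (j := j) le_rfl (by omega) (by omega)
    have f2 := hφ.gap (i := j) (j := b) (by omega) (by omega) (by omega)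
    have sj := hs (φ j)
    unfold redC at er
    omega
  · -- outcome E1
    left
    refine ⟨fun i => 1 ≤ i ∧ i ≤ k ∧ ((b < φ i ∧ φ i < b + w) ∨ w + k ≤ φ i), m,
      ⟨by omega, by omega, by omega⟩, ?_, hwm, ?_, ?_⟩
    · rintro i j ⟨hi1, hik, hi⟩ hij hja
      have rj := hG.rng _ _ (hG.symm _ _ hij)
      have hj1 : j ≠ 1 := by
        rintro rfl
        have := h.n1' i (hG.symm _ _ hij)
        subst this
        omega
      have hja' : φ j ≠ b + w := fun hc => hja (hinj _ _ rj.1 rj.2 (by omega) (by omega) (by omega))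
      have f4' := hφ.gap (i := 1) (j := j) le_rfl (by omega) (by omega)
      have er := emb_red hG hφ hij
      have si := hs (φ i)
      have sj := hs (φ j)
      refine ⟨rj.1, rj.2, ?_⟩
      unfold redC at er
      omega
    · intro z hz hzk
      have f1 := hφ.gap (i := b + 1) (j := z) (by omega) (by omega) (by omega)
      have f2 := hm z (by omega) hzk
      show (1 ≤ z ∧ z ≤ k ∧ ((b < φ z ∧ φ z < b + w) ∨ w + k ≤ φ z)) ↔ m < z
      omega
    · rintro z hz ⟨hz1, hzk, hU⟩ haz
      have f1 := hφ.gap (i := b + 1) (j := z) (by omega) (by omega) (by omega)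
      have er := emb_red hG hφ haz
      have sz := hs (φ z)
      unfold redC at er
      omega
  · -- impossible
    exfalso
    obtain ⟨i, j, hij, hi, hj⟩ := hG.conn (fun i => (b < φ i ∧ φ i < b + w) ∨ w + k ≤ φ i)
      ⟨b, by omega, by omega, by omega⟩ ⟨b + 1, by omega, by omega, by omega⟩
    have ri := hG.rng _ _ hij
    have rj := hG.rng _ _ (hG.symm _ _ hij)
    have hj1 : j ≠ 1 := by
      rintro rfl
      have := h.n1' i (hG.symm _ _ hij)
      subst this
      omega
    have f4' := hφ.gap (i := 1) (j := j) le_rfl (by omega) (by omega)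
    have er := emb_red hG hφ hij
    have si := hs (φ i)
    have sj := hs (φ j)
    have hjy : φ j ≠ b + w := by
      intro hc
      rcases Nat.lt_or_ge b j with h1 | h1
      · have := hφ.gap (i := b + 1) (j := j) (by omega) (by omega) (by omega)
        omega
      · have := hφ.gap (i := j) (j := b) (by omega) (by omega) (by omega)
        omega
    unfold redC at er
    omega
  · -- outcome E2
    right; right; right
    have hmk' : m < k := by
      by_contra hcon
      have := (hm k (by omega) (by omega)).2 (by omega)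
      omega
    have haq : b + 1 ≤ q := (hq (b + 1) (by omega) (by omega)).1 (by omega)
    have hqw : q + 1 ≤ w := by
      have f1 := (hq q (by omega) hqk).2 le_rfl
      have f2 := hφ.gap (i := 1) (j := q) le_rfl (by omega) (by omega)
      omega
    have hq1 : ¬ φ (q + 1) ≤ b + w - 1 := fun hc => by
      have := (hq (q + 1) (by omega) (by omega)).1 hc
      omega
    have hv : φ (q + 1) = b + w := by
      by_contra hne
      obtain ⟨i, j, hij, hi, hj⟩ := hG.conn (fun i => q < i ∧ i ≤ m)
        ⟨w, by omega, by omega, by omega, by omega⟩ ⟨1, by omega, by omega, by omega⟩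
      have ri := hG.rng _ _ hij
      have rj := hG.rng _ _ (hG.symm _ _ hij)
      have fi3 := hm i ri.1 ri.2
      have fj2 := hq j rj.1 rj.2
      have fj3 := hm j rj.1 rj.2
      have f4' := hφ.gap (i := 1) (j := j) le_rfl (by omega) (by omega)
      have fiq := hφ.gap (i := q + 1) (j := i) (by omega) (by omega) (by omega)
      have fjq : q < j → b + w < φ j := fun hqj => by
        have := hφ.gap (i := q + 1) (j := j) (by omega) (by omega) (by omega)
        omega
      have er := emb_red hG hφ hij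
      have si := hs (φ i)
      have sj := hs (φ j)
      unfold redC at er
      omega
    refine ⟨q + 1, m, by omega, hqw, hwm, hmk', ?_, ?_⟩
    · intro i j hvi him hij
      have ri := hG.rng _ _ hij
      have rj := hG.rng _ _ (hG.symm _ _ hij)
      have fi3 := hm i ri.1 ri.2
      have fj2 := hq j rj.1 rj.2
      have fj3 := hm j rj.1 rj.2
      have f4' := hφ.gap (i := 1) (j := j) le_rfl (by omega) (by omega)
      have fiq := hφ.gap (i := q + 1) (j := i) (by omega) (by omega) (by omega)
      have er := emb_red hG hφ hij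
      have si := hs (φ i)
      have sj := hs (φ j)
      unfold redC at er
      omega
    · intro j hij
      have rj := hG.rng _ _ (hG.symm _ _ hij)
      have fj2 := hq j rj.1 rj.2
      have fj3 := hm j rj.1 rj.2
      have f4' := hφ.gap (i := 1) (j := j) le_rfl (by omega) (by omega)
      have hjw : j ≠ w := by rintro rfl; exact hG.irr _ hij
      have fw := hm w (by omega) (by omega)
      have fwq := hφ.gap (i := q + 1) (j := w) (by omega) (by omega) (by omega)
      have er := emb_red hG hφ hij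
      have si := hs (φ w)
      have sj := hs (φ j)
      by_cases hwv : w = q + 1
      · have f5 : j ≤ w → φ j + (w - j) ≤ φ w := fun hjw => hφ.gap rj.1 hjw (by omega)
        subst hwv
        unfold redC at er
        omega
      · unfold redC at er
        omega

end OG23
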